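import Pool.Agent.Helper11.PlaneEuler.Lift

/-! The turning angle of a planar lift around a point, near infinity -/

set_option autoImplicit false

open Filter Topology

namespace Pool.Agent.Q175.MW

open Pool.Agent.Helper11.PlaneEuler

/-- angle of the pair `(c, z)`, zero if `z = c` -/
noncomputable def an (F : PlaneLift) (c z : ℂ) : ℝ :=
  if h : c ≠ z then F.angle ⟨(c, z), h⟩ else 0

lemma an_eq (F : PlaneLift) {c z : ℂ} (h : c ≠ z) : an F c z = F.angle ⟨(c, z), h⟩ := by
  unfold an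
  rw [dif_pos h]

lemma an_spec (F : PlaneLift) {c z : ℂ} (h : c ≠ z) :
    (F.homeo z - F.homeo c) / (z - c) =
      (‖(F.homeo z - F.homeo c) / (z - c)‖ : ℂ) * Complex.exp (an F c z * Complex.I) := by
  rw [an_eq F h]
  exact F.spec ⟨(c, z), h⟩

lemma an_mul (F G : PlaneLift) {c z : ℂ} (h : c ≠ z) :
    an (F * G) c z = an F (G.homeo c) (G.homeo z) + an G c z := by
  rw [an_eq _ h, an_eq _ h, an_eq _ (fun e => h (G.homeo.injective e)), mul_angle]
  rfl

lemma an_one (c z : ℂ) : an 1 c z = 0 := by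
  unfold an
  split_ifs
  · rfl
  · rfl

lemma an_central (m : ℤ) {c z : ℂ} (h : c ≠ z) : an (central m) c z = 2 * Real.pi * m := by
  rw [an_eq _ h]
  rfl

lemma an_central_mul (m : ℤ) (F : PlaneLift) {c z : ℂ} (h : c ≠ z) :
    an (central m * F) c z = 2 * Real.pi * m + an F c z := by
  rw [an_mul _ _ h, an_central m (fun e => h (F.homeo.injective e))]

lemma continuousOn_an (F : PlaneLift) : ContinuousOn (fun y : ℂ × ℂ => an F y.1 y.2)
    {y | y.1 ≠ y.2} := by
  rw [continuousOn_iff_continuous_domRestrict]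
  refine F.angle.continuous.congr fun y => ?_
  show F.angle y = an F y.1.1 y.1.2
  rw [an_eq F y.2]

lemma isOpen_conf : IsOpen {y : ℂ × ℂ | y.1 ≠ y.2} :=
  isOpen_ne_fun continuous_fst continuous_snd

lemma continuousAt_an (F : PlaneLift) {c z : ℂ} (h : c ≠ z) :
    ContinuousAt (fun y : ℂ × ℂ => an F y.1 y.2) (c, z) :=
  (continuousOn_an F).continuousAt (isOpen_conf.mem_nhds h)

lemma continuousAt_an_right (F : PlaneLift) {c z : ℂ} (h : c ≠ z) :
    ContinuousAt (fun w => an F c w) z :=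
  ContinuousAt.comp (g := fun y : ℂ × ℂ => an F y.1 y.2) (f := fun w => (c, w))
    (continuousAt_an F h) (by fun_prop)

lemma continuousAt_an_left (F : PlaneLift) {c z : ℂ} (h : c ≠ z) :
    ContinuousAt (fun w => an F w z) c :=
  ContinuousAt.comp (g := fun y : ℂ × ℂ => an F y.1 y.2) (f := fun w => (w, z))
    (continuousAt_an F h) (by fun_prop)

lemma tendsto_homeo (f : ℂ ≃ₜ ℂ) : Tendsto f (cocompact ℂ) (cocompact ℂ) :=
  f.isClosedEmbedding.tendsto_cocompact

/-- if all values of `exp (i f)` along a path are close to one, `f` varies little -/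
lemma small_of_cos {f : ℝ → ℝ} (hf : ContinuousOn f (Set.Icc 0 1)) (h0 : |f 0| < Real.pi / 2)
    (h : ∀ t ∈ Set.Icc (0 : ℝ) 1, 0 < Real.cos (f t)) : |f 1| < Real.pi / 2 := by
  by_contra hc
  rw [not_lt] at hc
  have hcont : ContinuousOn (fun t => |f t|) (Set.Icc 0 1) := hf.abs
  have h1 := intermediate_value_Icc (zero_le_one' ℝ) hcont
  obtain ⟨t, ht, he⟩ := h1 ⟨h0.le, hc⟩
  have h2 := h t ht
  have he' : |f t| = Real.pi / 2 := he
  rw [← Real.cos_abs, he', Real.cos_pi_div_two] at h2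
  exact lt_irrefl _ h2

/-- a number with `|x| < π / 2` and `exp (i x)` close to one is small -/
lemma small_of_exp (ε : ℝ) (hε : 0 < ε) : ∃ δ > 0, ∀ x : ℝ, |x| < Real.pi / 2 →
    ‖Complex.exp (x * Complex.I) - 1‖ < δ → |x| < ε := by
  have harg : ContinuousAt Complex.arg 1 := Complex.continuousAt_arg (by simp)
  rw [Metric.continuousAt_iff] at harg
  obtain ⟨δ, hδ, h⟩ := harg ε hε
  refine ⟨δ, hδ, fun x hx hxe => ?_⟩
  have h1 := h (x := Complex.exp (x * Complex.I)) (by rwa [dist_eq_norm])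
  rw [Complex.arg_one, Real.dist_eq, sub_zero, Complex.arg_exp_mul_I,
    (toIocMod_eq_self Real.two_pi_pos).2] at h1
  · exact h1
  · have := abs_lt.1 hx
    have hpi := Real.pi_pos
    constructor
    · linarith
    · linarith

/-- the unit vector of a quotient close to one is close to one -/
lemma unit_close {w u : ℂ} (hu : ‖u‖ = 1) (hw : w = ‖w‖ * u) : ‖u - 1‖ ≤ 2 * ‖w - 1‖ := by
  have h1 : |‖w‖ - 1| ≤ ‖w - 1‖ := by
    have := abs_norm_sub_norm_le w 1
    simpa using this
  have h2 : u - 1 = (w - 1) + (1 - ‖w‖ : ℝ) * u := by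
    obtain ⟨n, hn⟩ : ∃ n : ℝ, n = ‖w‖ := ⟨_, rfl⟩
    rw [← hn] at hw ⊢
    rw [hw]
    push_cast
    ring
  rw [h2]
  refine (norm_add_le _ _).trans ?_
  rw [norm_mul, hu, mul_one, Complex.norm_real, Real.norm_eq_abs, abs_sub_comm]
  linarith

lemma cos_pos_of_exp {x : ℝ} (h : ‖Complex.exp (x * Complex.I) - 1‖ < 1) : 0 < Real.cos x := by
  have h1 : |(Complex.exp (x * Complex.I) - 1).re| ≤ ‖Complex.exp (x * Complex.I) - 1‖ :=
    Complex.abs_re_le_norm _
  rw [Complex.sub_re, Complex.one_re, Complex.exp_ofReal_mul_I_re] at h1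
  have := (abs_lt.1 (lt_of_le_of_lt h1 h)).1
  linarith

lemma div_close {u v p q : ℂ} (hv : v ≠ 0) (hp : p ≠ 0) (_hq : q ≠ 0) :
    (u / p) / (v / q) - 1 = (u / v - 1) * (q / p) + (q / p - 1) := by
  field_simp
  ring

/-- the angle around a far point does not depend much on the base point -/
lemma an_near (F : PlaneLift) (c : ℂ) :
    Tendsto (fun w => an F c w - an F 0 w) (cocompact ℂ) (𝓝 0) := by
  rw [Metric.tendsto_nhds]
  intro ε hε
  obtain ⟨δ, hδ, hsm⟩ := small_of_exp ε hε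
  set η := min (δ / 8) (1 / 16) with hη
  have hη0 : 0 < η := by positivity
  -- compactness of the segment
  have hcomp : IsCompact ((fun t : ℝ => F.homeo (t * c)) '' Set.Icc 0 1) :=
    isCompact_Icc.image (F.homeo.continuous.comp (by fun_prop))
  obtain ⟨M, hM⟩ := hcomp.isBounded.exists_norm_le
  have hM' : ∀ t ∈ Set.Icc (0 : ℝ) 1, ‖F.homeo (t * c)‖ ≤ M := fun t ht =>
    hM _ ⟨t, ht, rfl⟩
  have hM0 : 0 ≤ M := (norm_nonneg _).trans (hM' 0 (by simp))
  have e1 : ∀ᶠ w in cocompact ℂ, 2 * ‖c‖ / η + 2 * ‖c‖ + 1 < ‖w‖ :=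
    tendsto_norm_cocompact_atTop.eventually_gt_atTop _
  have e2 : ∀ᶠ w in cocompact ℂ, 4 * M / η + 2 * M + 1 < ‖F.homeo w‖ :=
    (tendsto_norm_cocompact_atTop.comp (tendsto_homeo F.homeo)).eventually_gt_atTop _
  filter_upwards [e1, e2] with w hw1 hw2
  rw [Real.dist_eq, sub_zero]
  have hc0 := norm_nonneg c
  have hwne : ∀ t ∈ Set.Icc (0 : ℝ) 1, (t : ℂ) * c ≠ w := by
    intro t ht he
    have h1 : ‖(t : ℂ) * c‖ ≤ ‖c‖ := by
      rw [norm_mul, Complex.norm_real, Real.norm_of_nonneg ht.1]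
      nlinarith [ht.2]
    rw [he] at h1
    have : 0 ≤ 2 * ‖c‖ / η := by positivity
    linarith
  set f : ℝ → ℝ := fun t => an F (t * c) w - an F 0 w with hf
  have hf0 : f 0 = 0 := by simp [hf]
  have hfc : ContinuousOn f (Set.Icc 0 1) := by
    intro t ht
    have h1 : ContinuousAt (fun s : ℝ => an F (s * c) w) t :=
      ContinuousAt.comp (g := fun u => an F u w) (f := fun s : ℝ => (s : ℂ) * c)
        (continuousAt_an_left F (hwne t ht)) (by fun_prop)
    exact (h1.sub continuousAt_const).continuousWithinAt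
  have h0w : (0 : ℂ) ≠ w := by
    have := hwne 0 (by simp)
    simpa using this
  -- quotient estimate
  have hq : ∀ t ∈ Set.Icc (0 : ℝ) 1,
      ‖Complex.exp (f t * Complex.I) - 1‖ ≤ 2 * (3 * η) := by
    intro t ht
    have s1 := an_spec F (hwne t ht)
    have s2 := an_spec F h0w
    set W1 := (F.homeo w - F.homeo (t * c)) / (w - t * c) with hW1
    set W2 := (F.homeo w - F.homeo 0) / (w - 0) with hW2
    have n1 : F.homeo w - F.homeo (t * c) ≠ 0 :=
      sub_ne_zero.2 fun e => hwne t ht (F.homeo.injective e).symm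
    have n2 : F.homeo w - F.homeo 0 ≠ 0 := sub_ne_zero.2 fun e => h0w (F.homeo.injective e).symm
    have n3 : w - (t : ℂ) * c ≠ 0 := sub_ne_zero.2 fun e => hwne t ht e.symm
    have n4 : w - 0 ≠ 0 := sub_ne_zero.2 fun e => h0w e.symm
    have m1 : 0 < ‖W1‖ := norm_pos_iff.2 (div_ne_zero n1 n3)
    have m2 : 0 < ‖W2‖ := norm_pos_iff.2 (div_ne_zero n2 n4)
    have hW : W1 / W2 = ‖W1 / W2‖ * Complex.exp (f t * Complex.I) := by
      have h3 : ((f t : ℝ) : ℂ) * Complex.I =
          (an F (t * c) w : ℂ) * Complex.I - (an F 0 w : ℂ) * Complex.I := by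
        rw [hf]; push_cast; ring
      rw [h3, Complex.exp_sub, norm_div]
      nth_rewrite 1 [s1]
      nth_rewrite 1 [s2]
      push_cast
      rw [mul_div_mul_comm]
    have hun : ‖Complex.exp (f t * Complex.I)‖ = 1 := Complex.norm_exp_ofReal_mul_I _
    refine (unit_close hun hW).trans (mul_le_mul_of_nonneg_left ?_ zero_le_two)
    rw [hW1, hW2, div_close n2 n3 n4]
    -- first factor
    have a1 : ‖(F.homeo w - F.homeo (t * c)) / (F.homeo w - F.homeo 0) - 1‖ ≤ η := by
      rw [div_sub_one n2, norm_div, div_le_iff₀ (norm_pos_iff.2 n2)]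
      have h1 : ‖F.homeo w - F.homeo (t * c) - (F.homeo w - F.homeo 0)‖ ≤ 2 * M := by
        have : F.homeo w - F.homeo (t * c) - (F.homeo w - F.homeo 0) =
          F.homeo 0 - F.homeo (t * c) := by ring
        rw [this]
        have h2 := hM' t ht
        have h3 := hM' 0 (by simp)
        simp only [Complex.ofReal_zero, zero_mul] at h3
        exact (norm_sub_le _ _).trans (by linarith)
      have h2 : 4 * M / η < ‖F.homeo w - F.homeo 0‖ := by
        have h3 := hM' 0 (by simp)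
        simp only [Complex.ofReal_zero, zero_mul] at h3
        have h4 := norm_sub_norm_le (F.homeo w) (F.homeo 0)
        linarith
      rw [div_lt_iff₀ hη0] at h2
      linarith
    have a2 : ‖(w - 0) / (w - t * c) - 1‖ ≤ η := by
      rw [div_sub_one n3, norm_div, div_le_iff₀ (norm_pos_iff.2 n3)]
      have h1 : ‖w - 0 - (w - (t : ℂ) * c)‖ ≤ ‖c‖ := by
        have : w - 0 - (w - (t : ℂ) * c) = (t : ℂ) * c := by ring
        rw [this, norm_mul, Complex.norm_real, Real.norm_of_nonneg ht.1]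
        nlinarith [ht.2]
      have h2 : 2 * ‖c‖ / η < ‖w - t * c‖ := by
        have h4 := norm_sub_norm_le w ((t : ℂ) * c)
        have h5 : ‖(t : ℂ) * c‖ ≤ ‖c‖ := by
          rw [norm_mul, Complex.norm_real, Real.norm_of_nonneg ht.1]
          nlinarith [ht.2]
        linarith
      rw [div_lt_iff₀ hη0] at h2
      linarith
    have a3 : ‖(w - 0) / (w - t * c)‖ ≤ 2 := by
      have h1 := norm_sub_norm_le ((w - 0) / (w - t * c)) 1
      rw [norm_one] at h1
      have : η ≤ 1 / 16 := min_le_right _ _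
      linarith
    calc _ ≤ ‖(F.homeo w - F.homeo (t * c)) / (F.homeo w - F.homeo 0) - 1‖ *
          ‖(w - 0) / (w - t * c)‖ + ‖(w - 0) / (w - t * c) - 1‖ := by
            refine (norm_add_le _ _).trans ?_
            rw [norm_mul]
      _ ≤ η * 2 + η := by
          refine add_le_add (mul_le_mul a1 a3 (norm_nonneg _) hη0.le) a2
      _ = 3 * η := by ring
  have hη1 : η ≤ 1 / 16 := min_le_right _ _
  have hη2 : η ≤ δ / 8 := min_le_left _ _
  have h1 : |f 1| < Real.pi / 2 := by
    refine small_of_cos hfc (by rw [hf0, abs_zero]; positivity) fun t ht => ?_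
    exact cos_pos_of_exp (lt_of_le_of_lt (hq t ht) (by linarith))
  have h2 := hsm (f 1) h1 (lt_of_le_of_lt (hq 1 (by simp)) (by linarith))
  simpa [hf] using h2

/-- the angle is a cocycle up to a small error near infinity -/
lemma an_cocycle (F G : PlaneLift) :
    Tendsto (fun z => an (F * G) 0 z - an F 0 (G.homeo z) - an G 0 z) (cocompact ℂ) (𝓝 0) := by
  have h1 := (an_near F (G.homeo 0)).comp (tendsto_homeo G.homeo)
  refine h1.congr' ?_
  have e1 : ∀ᶠ z in cocompact ℂ, (0 : ℝ) < ‖z‖ :=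
    tendsto_norm_cocompact_atTop.eventually_gt_atTop _
  filter_upwards [e1] with z hz
  have h0 : (0 : ℂ) ≠ z := fun e => by rw [← e, norm_zero] at hz; exact lt_irrefl _ hz
  rw [an_mul F G h0]
  simp only [Function.comp]
  ring

lemma an_inv (F : PlaneLift) :
    Tendsto (fun z => an F⁻¹ 0 z + an F 0 (F.homeo⁻¹ z)) (cocompact ℂ) (𝓝 0) := by
  have h1 := (an_cocycle F F⁻¹).neg
  rw [neg_zero] at h1
  refine h1.congr fun z => ?_
  rw [mul_inv_cancel, an_one]
  show -(0 - an F 0 (F.homeo⁻¹ z) - an F⁻¹ 0 z) = _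
  ring

end Pool.Agent.Q175.MW
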