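import Pool.Agent.W293.DP.Evtw
import Pool.Agent.W293.DP.Orb

/-! Critical configurations of words realising a map with given turning angle -/

set_option autoImplicit false

namespace Pool.Agent.Q175.MW

open Pool.Agent Pool.Agent.W710.DP Pool.Agent.W293.DP Set

lemma exp_eq_of {a b u v : ℝ} (hu : 0 < u) (hv : 0 < v)
    (h : (u : ℂ) * Complex.exp ((a : ℂ) * Complex.I) = v * Complex.exp ((b : ℂ) * Complex.I)) :
    Complex.exp ((a : ℂ) * Complex.I) = Complex.exp ((b : ℂ) * Complex.I) := by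
  have h1 := congrArg norm h
  rw [norm_mul, norm_mul, Complex.norm_exp_ofReal_mul_I, Complex.norm_exp_ofReal_mul_I, mul_one,
    mul_one, Complex.norm_real, Complex.norm_real, Real.norm_of_nonneg hu.le,
    Real.norm_of_nonneg hv.le] at h1
  rw [h1] at h
  exact mul_left_cancel₀ (by exact_mod_cast hv.ne') h

lemma circle_one_of {a : ℝ} (h : Complex.exp ((a : ℂ) * Complex.I) = 1) : Circle.exp a = 1 := by
  apply Circle.ext
  simpa using h

/-- a continuous real function on an interval with `exp (i f) = 1` is constant -/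
lemma const_of_exp {f : ℝ → ℝ} {α β : ℝ} (hf : ContinuousOn f (Ioo α β))
    (h : ∀ t ∈ Ioo α β, Complex.exp ((f t : ℂ) * Complex.I) = 1) {u v : ℝ} (hu : u ∈ Ioo α β)
    (hv : v ∈ Ioo α β) : f u = f v := by
  haveI : PreconnectedSpace (Ioo α β) := Subtype.preconnectedSpace isPreconnected_Ioo
  exact Circle.isCoveringMap_exp.const_of_comp (g := fun t : Ioo α β => f t)
    (continuousOn_iff_continuous_restrict.1 hf)
    (fun a b => by rw [circle_one_of (h _ a.2), circle_one_of (h _ b.2)]) ⟨u, hu⟩ ⟨v, hv⟩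

lemma E_ne {x t : ℝ} (ht : 0 < t) : E x t ≠ 0 := by
  have h := norm_E x t
  intro h0
  rw [h0, norm_zero] at h
  have : 0 < Real.sqrt (t / Real.pi) := Real.sqrt_pos.2 (div_pos ht Real.pi_pos)
  linarith

lemma E_div {x y s t : ℝ} (ht : 0 < t) : E x s / E y t =
    ((Real.sqrt (s / Real.pi) / Real.sqrt (t / Real.pi) : ℝ) : ℂ) *
      Complex.exp (((2 * Real.pi * (x - y) : ℝ) : ℂ) * Complex.I) := by
  have h1 : ((Real.sqrt (t / Real.pi) : ℝ) : ℂ) ≠ 0 := by
    exact_mod_cast (Real.sqrt_pos.2 (div_pos ht Real.pi_pos)).ne'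
  rw [div_eq_iff (E_ne ht)]
  unfold E
  have h2 : Complex.exp (2 * Real.pi * x * Complex.I) =
      Complex.exp (((2 * Real.pi * (x - y) : ℝ) : ℂ) * Complex.I) *
        Complex.exp (2 * Real.pi * y * Complex.I) := by
    rw [← Complex.exp_add]
    congr 1
    push_cast
    ring
  rw [h2]
  push_cast
  field_simp

theorem crit_path (g : Equiv.Perm ℂ) (hg : AP g) (hid : Id0 g) (θ : ℂ → ℝ)
    (hθc : ContinuousOn θ {0}ᶜ)
    (hθ : ∀ z : ℂ, z ≠ 0 → g z / z =
      (‖g z / z‖ : ℂ) * Complex.exp (((2 * Real.pi * θ z : ℝ) : ℂ) * Complex.I))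
    (hθ0 : ∃ r : ℝ, 0 < r ∧ ∀ z : ℂ, z ≠ 0 → ‖z‖ < r → θ z = 0) (s1 : ℝ) (hs1 : 0 < s1) :
    ∃ C : ℝ, ∀ (b T e R : ℝ) (w : List Letter), Par b T e → GoodW T e w → b < R →
      Realises w g (Dc R) → ∀ ζ, Crit b w ζ →
      ζ.1 w.length - ζ.1 0 = θ (E (ζ.1 0) b) ∧
      ((b ≤ s1 ∨ ∃ n : ℝ, ∀ z, s1 ≤ ar z → θ z = n) →
        Sw b w ζ + b * (ζ.1 w.length - ζ.1 0) ≤ C) := by
  obtain ⟨r, hr, hrid⟩ := hid
  have hpi := Real.pi_pos
  have hg0 : g 0 = 0 := hrid 0 (by simpa using hr)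
  obtain ⟨C1', C2', hC⟩ := bound_hh g hg hg0 r s1 hr
  set C1 := max C1' 0 with hC1
  have hC1n : 0 ≤ C1 := le_max_right _ _
  refine ⟨C1 * s1, ?_⟩
  intro b T e R w hPar hG hbR hreal ζ hcrit
  obtain ⟨he, heb, hTe⟩ := hPar
  have hb : 0 < b := lt_trans he heb
  obtain ⟨c, hc, hrr⟩ := hreal
  set x0 := ζ.1 0 with hx0
  obtain ⟨X, S, A, X₁, S₁, h⟩ := hrr 0 R (fun _ => x0) (fun t => t) (fun _ => 0) (fun _ => 1)
    (by
      intro t ht
      refine ⟨hasDerivAt_const t _, hasDerivAt_id t, ht.1, ?_⟩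
      show ar (E x0 t) < R
      rw [ar_E _ _ ht.1.le]
      exact ht.2)
  -- the plane curve
  have hev : ∀ t ∈ Ioo 0 R, ∀ᶠ τ in nhds t, E (X τ) (S τ) = g (E x0 τ) := by
    intro t ht
    filter_upwards [isOpen_Ioo.mem_nhds ht] with τ hτ
    exact (h τ hτ).2.2.2.2.2.1
  have hγ : ∀ t ∈ Ioo 0 R, HasDerivAt (fun τ => g (E x0 τ))
      (fderiv ℝ g (E x0 t) (((1 / (2 * t) : ℝ) : ℂ) * E x0 t)) t := by
    intro t ht
    have hd : HasFDerivAt g (fderiv ℝ g (E x0 t)) (E x0 t) :=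
      (hg.1.differentiable (by simp)).differentiableAt.hasFDerivAt
    exact hd.comp_hasDerivAt t (hasDeriv_rad x0 t ht.1)
  -- derivative bounds
  have hbd : ∀ t ∈ Ioo 0 R, t ≤ s1 → |S t * X₁ t| ≤ C1 := by
    intro t ht hts
    obtain ⟨a1, a2, a3, a4, a5, a6, a7⟩ := h t ht
    by_cases hsm : ‖E x0 t‖ < r
    · have hev2 : ∀ᶠ τ in nhds t, E x0 τ = g (E x0 τ) := by
        have hcont : ContinuousAt (fun τ => ‖E x0 τ‖) t :=
          (hasDeriv_rad x0 t ht.1).continuousAt.norm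
        filter_upwards [hcont.eventually_lt continuousAt_const hsm] with τ hτ
        exact (hrid _ hτ).symm
      obtain ⟨b1, b2⟩ := ang_two W293.DP.t_ang a1 a2 (hγ t ht) a3 (hev t ht) ht.1
        (hasDerivAt_const t x0) hev2
      rw [b2]
      simp [hC1n]
    · rw [not_lt] at hsm
      obtain ⟨b1, b2⟩ := W293.DP.t_ang X S _ t _ _ _ a1 a2 (hγ t ht) a3 (hev t ht)
      have har : ar (E x0 t) = t := ar_E _ _ ht.1.le
      obtain ⟨d1, d2⟩ := hC (E x0 t) hsm (by rw [har]; exact hts)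
      have e1 : hh g (E x0 t) = S t * X₁ t := by
        unfold hh
        rw [har, b2]
      rw [e1] at d1
      exact d1.trans (le_max_left _ _)
  -- the angle
  set D : ℝ → ℝ := fun t => 2 * Real.pi * (X t - x0 - θ (E x0 t)) with hD
  have hDc : ContinuousOn D (Ioo 0 R) := by
    intro t ht
    have h1 : ContinuousAt X t := (h t ht).1.continuousAt
    have h2 : ContinuousAt (fun τ => E x0 τ) t := (hasDeriv_rad x0 t ht.1).continuousAt
    have h3 : ContinuousAt θ (E x0 t) :=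
      hθc.continuousAt (isOpen_compl_singleton.mem_nhds (E_ne ht.1))
    have h4 : ContinuousAt (fun τ => θ (E x0 τ)) t := ContinuousAt.comp (g := θ) h3 h2
    exact (((h1.sub continuousAt_const).sub h4).const_mul _).continuousWithinAt
  have hD1 : ∀ t ∈ Ioo 0 R, Complex.exp ((D t : ℂ) * Complex.I) = 1 := by
    intro t ht
    obtain ⟨a1, a2, a3, a4, a5, a6, a7⟩ := h t ht
    have h1 := hθ (E x0 t) (E_ne ht.1)
    have hgne : g (E x0 t) ≠ 0 := by
      rw [← a6]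
      exact E_ne a3
    have h2 : 0 < ‖g (E x0 t) / E x0 t‖ := norm_pos_iff.2 (div_ne_zero hgne (E_ne ht.1))
    have h3 : g (E x0 t) / E x0 t = ((Real.sqrt (S t / Real.pi) / Real.sqrt (t / Real.pi) : ℝ) : ℂ)
        * Complex.exp (((2 * Real.pi * (X t - x0) : ℝ) : ℂ) * Complex.I) := by
      rw [← a6]
      exact E_div ht.1
    have h4 : 0 < Real.sqrt (S t / Real.pi) / Real.sqrt (t / Real.pi) :=
      div_pos (Real.sqrt_pos.2 (div_pos a3 hpi)) (Real.sqrt_pos.2 (div_pos ht.1 hpi))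
    have h5 := exp_eq_of h4 h2 (h3.symm.trans h1)
    have h6 : ((D t : ℝ) : ℂ) * Complex.I = ((2 * Real.pi * (X t - x0) : ℝ) : ℂ) * Complex.I -
        ((2 * Real.pi * θ (E x0 t) : ℝ) : ℂ) * Complex.I := by
      rw [hD]
      push_cast
      ring
    rw [h6, Complex.exp_sub, h5, div_self (Complex.exp_ne_zero _)]
  obtain ⟨r2, hr2, hr2θ⟩ := hθ0
  -- a small time
  set t0 := min (min c s1) (min b (Real.pi * (r2 / 2) ^ 2)) / 2 with ht0
  have hm : 0 < min (min c s1) (min b (Real.pi * (r2 / 2) ^ 2)) := by positivity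
  have ht0c : t0 < c := by
    have : min (min c s1) (min b (Real.pi * (r2 / 2) ^ 2)) ≤ c :=
      (min_le_left _ _).trans (min_le_left _ _)
    rw [ht0]
    linarith
  have ht0s : t0 < s1 := by
    have : min (min c s1) (min b (Real.pi * (r2 / 2) ^ 2)) ≤ s1 :=
      (min_le_left _ _).trans (min_le_right _ _)
    rw [ht0]
    linarith
  have ht0b : t0 < b := by
    have : min (min c s1) (min b (Real.pi * (r2 / 2) ^ 2)) ≤ b :=
      (min_le_right _ _).trans (min_le_left _ _)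
    rw [ht0]
    linarith
  have ht0r : t0 < Real.pi * (r2 / 2) ^ 2 := by
    have : min (min c s1) (min b (Real.pi * (r2 / 2) ^ 2)) ≤ Real.pi * (r2 / 2) ^ 2 :=
      (min_le_right _ _).trans (min_le_right _ _)
    rw [ht0]
    linarith
  have ht0p : 0 < t0 := by positivity
  have ht0mem : t0 ∈ Ioo 0 R := ⟨ht0p, by linarith⟩
  obtain ⟨c1, c2, c3⟩ := (h t0 ht0mem).2.2.2.2.2.2 ht0c
  have hθt0 : θ (E x0 t0) = 0 := by
    refine hr2θ _ (E_ne ht0p) ?_
    have h1 : ar (E x0 t0) = t0 := ar_E _ _ ht0p.le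
    unfold ar at h1
    have h2 : Real.pi * ‖E x0 t0‖ ^ 2 < Real.pi * (r2 / 2) ^ 2 := by rw [h1]; exact ht0r
    have h3 : ‖E x0 t0‖ ^ 2 < (r2 / 2) ^ 2 := lt_of_mul_lt_mul_left h2 hpi.le
    have h4 : ‖E x0 t0‖ < r2 / 2 :=
      lt_of_pow_lt_pow_left₀ 2 (by positivity) h3
    linarith
  have hDt0 : D t0 = 0 := by
    rw [hD]
    simp only
    rw [c1, hθt0]
    ring
  have hX : ∀ t ∈ Ioo 0 R, X t = x0 + θ (E x0 t) := by
    intro t ht
    have h1 := const_of_exp hDc hD1 ht ht0mem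
    rw [hDt0] at h1
    rw [hD] at h1
    simp only at h1
    have h2 : X t - x0 - θ (E x0 t) = 0 := by
      rcases mul_eq_zero.1 h1 with h3 | h3
      · exfalso
        have : 0 < 2 * Real.pi := by positivity
        linarith
      · exact h3
    linarith
  have hsub : ∀ t ∈ Icc t0 b, t ∈ Ioo 0 R := fun t ht => ⟨lt_of_lt_of_le ht0p ht.1,
    lt_of_le_of_lt ht.2 hbR⟩
  have hAd : ∀ t ∈ Icc t0 b, HasDerivAt A (S t * X₁ t) t := fun t ht => by
    have := (h t (hsub t ht)).2.2.2.1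
    rw [mul_zero, sub_zero] at this
    exact this
  -- up to s1
  have hAs : ∀ t ∈ Icc t0 b, t ≤ s1 → A t ≤ C1 * s1 := by
    intro t ht hts
    have hx := Convex.norm_image_sub_le_of_norm_hasDerivWithin_le (f := A)
      (f' := fun t => S t * X₁ t)
      (C := C1) (s := Icc t0 t) (x := t0) (y := t)
      (fun τ hτ => (hAd τ ⟨hτ.1, hτ.2.trans ht.2⟩).hasDerivWithinAt)
      (fun τ hτ => (hbd τ (hsub τ ⟨hτ.1, hτ.2.trans ht.2⟩) (hτ.2.trans hts)))
      (convex_Icc _ _) ⟨le_rfl, ht.1⟩ ⟨ht.1, le_rfl⟩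
    rw [c3, sub_zero, Real.norm_eq_abs, Real.norm_eq_abs,
      abs_of_nonneg (by linarith [ht.1] : 0 ≤ t - t0)] at hx
    have h1 : C1 * (t - t0) ≤ C1 * s1 := mul_le_mul_of_nonneg_left (by linarith) hC1n
    exact (le_abs_self _).trans (hx.trans h1)
  have hmem : b ∈ Ioo 0 R := ⟨hb, hbR⟩
  have hOrb := (h b hmem).2.2.2.2.1
  have hO2 := W293.DP.t_orb.1 b w ζ hcrit
  obtain ⟨d1, d2, d3⟩ := W293.DP.t_orb.2 T e w hG _ _ _ _ _ _ _ _ hOrb hO2
  refine ⟨?_, ?_⟩
  · rw [← d1, hX b hmem]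
    ring
  · intro hcase
    rw [← d3]
    by_cases hbs : b ≤ s1
    · exact hAs b ⟨ht0b.le, le_rfl⟩ hbs
    · rw [not_le] at hbs
      rcases hcase with hcase | ⟨n, hn⟩
      · exact absurd hcase (not_le.2 hbs)
      · -- constant angle
        have hX1 : ∀ t ∈ Ioo s1 R, X₁ t = 0 := by
          intro t ht
          have ht' : t ∈ Ioo 0 R := ⟨hs1.trans ht.1, ht.2⟩
          have h1 : X =ᶠ[nhds t] fun _ => x0 + n := by
            filter_upwards [isOpen_Ioo.mem_nhds ht] with τ hτ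
            rw [hX τ ⟨hs1.trans hτ.1, hτ.2⟩, hn _ (by
              rw [ar_E _ _ (hs1.trans hτ.1).le]; exact hτ.1.le)]
          have h2 : HasDerivAt X 0 t := (hasDerivAt_const t (x0 + n)).congr_of_eventuallyEq h1
          exact (h t ht').1.unique h2
        have hAc : ContinuousOn A (Icc s1 b) := fun t ht =>
          (hAd t ⟨ht0s.le.trans ht.1, ht.2⟩).continuousAt.continuousWithinAt
        obtain ⟨ξ, hξ, hξe⟩ := exists_hasDerivAt_eq_slope A (fun t => S t * X₁ t) hbs hAc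
          (fun t ht => hAd t ⟨ht0s.le.trans ht.1.le, ht.2.le⟩)
        rw [hX1 ξ ⟨hξ.1, hξ.2.trans hbR⟩, mul_zero] at hξe
        have hne : b - s1 ≠ 0 := by linarith
        rw [eq_comm, div_eq_zero_iff] at hξe
        rcases hξe with hξe | hξe
        · have h1 := hAs s1 ⟨ht0s.le, hbs.le⟩ le_rfl
          linarith
        · exact absurd hξe hne

end Pool.Agent.Q175.MW
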