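import Pool.Agent.Q175.MW.StepU

/-! Almost critical configurations have almost the displacement of critical ones, uniformly in
the level -/

set_option autoImplicit false

namespace Pool.Agent.Q175.MW

open Pool.Agent Pool.Agent.W710.DP Pool.Agent.W933.DP Set

theorem ps_unif (T e b0 b1 : ℝ) (w : List Letter) (he : 0 < e) (h0 : e < b0) (h01 : b0 ≤ b1)
    (h1 : e < T - b1) (hG : GoodW T e w) (κ κ2 : ℝ) (hκ : κ2 < κ)
    (hcr : ∀ b ∈ Icc b0 b1, ∀ ζ, Om T w.length ζ → Crit b w ζ →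
      κ ≤ ζ.1 w.length - ζ.1 0) :
    ∃ κ1 > 0, ∀ b ∈ Icc b0 b1, ∀ ζ, Om T w.length ζ →
      (∀ i ≤ w.length, |gradX b w ζ i| ≤ κ1) → (∀ i < w.length, |gradS w ζ i| ≤ κ1) →
      κ2 ≤ ζ.1 w.length - ζ.1 0 := by
  set N := w.length with hN
  have hT : 0 ≤ T := by linarith
  have hp : Par b0 T e := ⟨he, h0, by linarith⟩
  -- a common bound for `gs`
  have hB : ∃ B : ℝ, 0 ≤ B ∧ ∀ i < N, ∀ x s, 0 ≤ s → s ≤ T → |(lt w i).gs x s| ≤ B := by
    have h1 : ∀ i, ∃ B : ℝ, 0 ≤ B ∧ (i < N → ∀ x s, 0 ≤ s → s ≤ T → |(lt w i).gs x s| ≤ B) := by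
      intro i
      by_cases hi : i < N
      · obtain ⟨B, h0, h1⟩ := gs_bound hp (lt_good hG hi)
        exact ⟨B, h0, fun _ => h1⟩
      · exact ⟨0, le_rfl, fun h => absurd h hi⟩
    choose B hB0 hB using h1
    refine ⟨∑ i ∈ Finset.range N, B i, Finset.sum_nonneg fun i _ => hB0 i, fun i hi x s h0 h1 => ?_⟩
    exact (hB i hi x s h0 h1).trans (Finset.single_le_sum (f := B) (fun j _ => hB0 j)
      (Finset.mem_range.2 hi))
  obtain ⟨B, hB0, hB⟩ := hB
  set R : ℝ := 1 + N * (1 + B) with hR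
  -- the compact set
  set K : Set Cfg := (Set.pi univ (fun i : ℕ => if i ≤ N then Icc (-R) R else {0})) ×ˢ
    (Set.pi univ (fun i : ℕ => if i < N then Icc 0 T else {0})) with hK
  have hKc : IsCompact K := by
    refine IsCompact.prod (isCompact_univ_pi fun i => ?_) (isCompact_univ_pi fun i => ?_)
    · split_ifs
      · exact isCompact_Icc
      · exact isCompact_singleton
    · split_ifs
      · exact isCompact_Icc
      · exact isCompact_singleton
  set K1 : Set (ℝ × Cfg) := (Icc b0 b1 ×ˢ K) ∩ {p | p.2.1 N - p.2.1 0 ≤ κ2} with hK1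
  have hK1c : IsCompact K1 := by
    refine (isCompact_Icc.prod hKc).inter_right (isClosed_le ?_ continuous_const)
    fun_prop
  set φ : ℝ × Cfg → ℝ := fun p => ∑ i ∈ Finset.range (N + 1), |gradX p.1 w p.2 i| +
    ∑ i ∈ Finset.range N, |gradS w p.2 i| with hφ
  have hφc : Continuous φ := by
    refine Continuous.add (continuous_finsetSum _ fun i _ => ?_)
      (continuous_finsetSum _ fun i hi => ?_)
    · have e1 : (fun p : ℝ × Cfg => |gradX p.1 w p.2 i|) = fun p : ℝ × Cfg =>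
          |gradX b0 w p.2 i + (p.1 - b0) * ((if i = 0 then 1 else 0) -
            (if i < w.length then 0 else 1))| := by
        funext p
        rw [gradX_shift b0 p.1]
      rw [e1]
      have h2 : Continuous fun p : ℝ × Cfg => gradX b0 w p.2 i :=
        (cont_gradX w hG i).comp continuous_snd
      exact (h2.add (by fun_prop)).abs
    · exact ((cont_gradS w hG (Finset.mem_range.1 hi)).comp continuous_snd).abs
  have hm : ∃ m0 : ℝ, 0 < m0 ∧ ∀ p ∈ K1, m0 ≤ φ p := by
    rcases K1.eq_empty_or_nonempty with h0 | h0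
    · exact ⟨1, one_pos, fun ζ hζ => by rw [h0] at hζ; exact absurd hζ (Set.notMem_empty _)⟩
    · obtain ⟨p0, hp0, hmin⟩ := hK1c.exists_isMinOn h0 hφc.continuousOn
      refine ⟨φ p0, ?_, fun p hp => hmin hp⟩
      have hnn : 0 ≤ φ p0 := add_nonneg (Finset.sum_nonneg fun i _ => abs_nonneg _)
        (Finset.sum_nonneg fun i _ => abs_nonneg _)
      rcases hnn.lt_or_eq with h1 | h1
      · exact h1
      · exfalso
        have h2 : ∑ i ∈ Finset.range (N + 1), |gradX p0.1 w p0.2 i| = 0 ∧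
            ∑ i ∈ Finset.range N, |gradS w p0.2 i| = 0 := by
          have ha : 0 ≤ ∑ i ∈ Finset.range (N + 1), |gradX p0.1 w p0.2 i| :=
            Finset.sum_nonneg fun i _ => abs_nonneg _
          have hb : 0 ≤ ∑ i ∈ Finset.range N, |gradS w p0.2 i| :=
            Finset.sum_nonneg fun i _ => abs_nonneg _
          have hc : ∑ i ∈ Finset.range (N + 1), |gradX p0.1 w p0.2 i| +
            ∑ i ∈ Finset.range N, |gradS w p0.2 i| = 0 := h1.symm
          constructor <;> linarith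
        have hcrit : Crit p0.1 w p0.2 := by
          constructor
          · intro i hi
            have := (Finset.sum_eq_zero_iff_of_nonneg (fun i _ => abs_nonneg _)).1 h2.1 i
              (Finset.mem_range.2 (Nat.lt_succ_of_le hi))
            exact abs_eq_zero.1 this
          · intro i hi
            have := (Finset.sum_eq_zero_iff_of_nonneg (fun i _ => abs_nonneg _)).1 h2.2 i
              (Finset.mem_range.2 hi)
            exact abs_eq_zero.1 this
        have hom : Om T w.length p0.2 := by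
          intro i hi
          have h3 := hp0.1.2.2 i (mem_univ i)
          have hi' : i < N := hi
          simp only [if_pos hi'] at h3
          exact h3
        have h4 := hcr p0.1 hp0.1.1 p0.2 hom hcrit
        have h5 : p0.2.1 N - p0.2.1 0 ≤ κ2 := hp0.2
        linarith
  obtain ⟨m0, hm0, hmin⟩ := hm
  have hNpos : (0 : ℝ) < 2 * N + 2 := by positivity
  refine ⟨min 1 (m0 / (2 * N + 2)), lt_min one_pos (div_pos hm0 hNpos),
    fun b hb ζ hom hgX hgS => ?_⟩
  by_contra hcon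
  push Not at hcon
  set κ3 := min 1 (m0 / (2 * N + 2)) with hκ3
  set m : ℤ := ⌊ζ.1 0⌋ with hmz
  let η : Cfg := (fun i => if i ≤ N then ζ.1 i - m else 0, fun i => if i < N then ζ.2 i else 0)
  have hη1 : ∀ i ≤ N, η.1 i = ζ.1 i - m := fun i hi => if_pos hi
  have hη2 : ∀ i < N, η.2 i = ζ.2 i := fun i hi => if_pos hi
  have htr : Tr w.length m ζ η := ⟨hη1, hη2⟩
  -- differences
  have hd : ∀ i < N, |ζ.1 (i + 1) - ζ.1 i| ≤ 1 + B := by
    intro i hi
    have h1 := hgS i hi
    have h2 := hB i hi (ζ.1 i) (ζ.2 i) (hom i hi).1 (hom i hi).2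
    have h3 : ζ.1 (i + 1) - ζ.1 i = gradS w ζ i + (lt w i).gs (ζ.1 i) (ζ.2 i) := by
      unfold gradS; ring
    rw [h3]
    refine (abs_add_le _ _).trans (add_le_add (h1.trans (min_le_left _ _)) h2)
  have hx : ∀ i ≤ N, |ζ.1 i - m| ≤ 1 + i * (1 + B) := by
    intro i
    induction i with
    | zero =>
      intro _
      have h1 := Int.floor_le (ζ.1 0)
      have h2 := Int.lt_floor_add_one (ζ.1 0)
      rw [abs_le]
      constructor
      · simp only [CharP.cast_eq_zero, zero_mul, add_zero]; linarith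
      · simp only [CharP.cast_eq_zero, zero_mul, add_zero]; linarith
    | succ i ih =>
      intro hi
      have h1 := ih (by omega)
      have h2 := hd i (by omega)
      have h3 : ζ.1 (i + 1) - m = (ζ.1 (i + 1) - ζ.1 i) + (ζ.1 i - m) := by ring
      rw [h3]
      refine (abs_add_le _ _).trans ?_
      push_cast
      linarith
  have hηK : η ∈ K := by
    refine ⟨fun i _ => ?_, fun i _ => ?_⟩
    · by_cases hi : i ≤ N
      · have h1 := hx i hi
        have h2 : (i : ℝ) * (1 + B) ≤ N * (1 + B) :=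
          mul_le_mul_of_nonneg_right (by exact_mod_cast hi) (by linarith)
        have h3 : |ζ.1 i - m| ≤ R := by rw [hR]; linarith
        simp only [if_pos hi]
        rw [hη1 i hi]
        exact abs_le.1 h3
      · simp only [if_neg hi]
        change (if i ≤ N then ζ.1 i - m else 0) ∈ ({0} : Set ℝ)
        rw [if_neg hi]
        exact mem_singleton _
    · by_cases hi : i < N
      · simp only [if_pos hi]
        rw [hη2 i hi]
        exact hom i hi
      · simp only [if_neg hi]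
        change (if i < N then ζ.2 i else 0) ∈ ({0} : Set ℝ)
        rw [if_neg hi]
        exact mem_singleton _
  have hηK1 : (b, η) ∈ K1 := by
    refine ⟨⟨hb, hηK⟩, ?_⟩
    change η.1 N - η.1 0 ≤ κ2
    rw [hη1 N le_rfl, hη1 0 (Nat.zero_le _)]
    linarith
  have h1 := hmin (b, η) hηK1
  have h2 : φ (b, η) ≤ (2 * N + 1) * κ3 := by
    have h3 : ∑ i ∈ Finset.range (N + 1), |gradX b w η i| ≤ ∑ i ∈ Finset.range (N + 1), κ3 := by
      refine Finset.sum_le_sum fun i hi => ?_
      have hi' : i ≤ N := Nat.lt_succ_iff.1 (Finset.mem_range.1 hi)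
      rw [gradX_tr w hG m htr hi']
      exact hgX i hi'
    have h4 : ∑ i ∈ Finset.range N, |gradS w η i| ≤ ∑ i ∈ Finset.range N, κ3 := by
      refine Finset.sum_le_sum fun i hi => ?_
      have hi' : i < N := Finset.mem_range.1 hi
      rw [gradS_tr w hG m htr hi']
      exact hgS i hi'
    rw [Finset.sum_const, Finset.card_range, nsmul_eq_mul] at h3 h4
    have h5 : φ (b, η) = ∑ i ∈ Finset.range (N + 1), |gradX b w η i| +
      ∑ i ∈ Finset.range N, |gradS w η i| := rfl
    rw [h5]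
    push_cast at h3
    linarith
  have h3 : (2 * N + 1) * κ3 < m0 := by
    have h4 : κ3 ≤ m0 / (2 * N + 2) := min_le_right _ _
    have h5 : (2 * (N : ℝ) + 1) * κ3 ≤ (2 * N + 1) * (m0 / (2 * N + 2)) :=
      mul_le_mul_of_nonneg_left h4 (by positivity)
    have h6 : (2 * (N : ℝ) + 1) * (m0 / (2 * N + 2)) < m0 := by
      rw [mul_div_assoc', div_lt_iff₀ hNpos]
      nlinarith
    linarith
  linarith

/-- either a definite decrease, or a definite displacement -/
theorem gain_unif (T e b0 b1 τ : ℝ) (w : List Letter) (he : 0 < e) (h0 : e < b0)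
    (h01 : b0 ≤ b1) (h1 : e < T - b1) (hG : GoodW T e w)
    (hst : ∀ b ∈ Icc b0 b1, StepOK τ b T w) (κ κ' : ℝ) (hκ : κ' < κ)
    (hcr : ∀ b ∈ Icc b0 b1, ∀ ζ, Om T w.length ζ → Crit b w ζ →
      κ ≤ ζ.1 w.length - ζ.1 0) :
    ∃ γ > 0, ∀ b ∈ Icc b0 b1, ∀ ζ, Om T w.length ζ →
      Sw b w (Dst τ b T w ζ) ≤ Sw b w ζ - γ ∨
      κ' ≤ (Dst τ b T w ζ).1 w.length - (Dst τ b T w ζ).1 0 := by
  set κ2 : ℝ := (κ + κ') / 2 with hκ2
  obtain ⟨κ0, hκ0, hps⟩ := ps_unif T e b0 b1 w he h0 h01 h1 hG κ κ2 (by linarith) hcr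
  have hτ0 : 0 < τ := (hst b0 ⟨le_rfl, h01⟩).1
  set N : ℝ := (w.length : ℝ) with hN
  have hN0 : 0 ≤ N := Nat.cast_nonneg _
  set κ1 : ℝ := min κ0 (e / (2 * (N + 1))) with hκ1
  have hκ10 : 0 < κ1 := lt_min hκ0 (by positivity)
  have hκ1a : κ1 ≤ κ0 := min_le_left _ _
  have hκ1b : N * κ1 ≤ e / 2 := by
    have h : κ1 ≤ e / (2 * (N + 1)) := min_le_right _ _
    rw [le_div_iff₀ (by positivity)] at h
    nlinarith
  set δ : ℝ := min (min (τ * κ1) (e / 4)) ((κ2 - κ') / 2) with hδ
  have hκκ : 0 < (κ2 - κ') / 2 := by linarith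
  have hδ0 : 0 < δ := lt_min (lt_min (by positivity) (by positivity)) hκκ
  have hδa : δ ≤ τ * κ1 := (min_le_left _ _).trans (min_le_left _ _)
  have hδb : δ ≤ e / 4 := (min_le_left _ _).trans (min_le_right _ _)
  have hδc : δ ≤ (κ2 - κ') / 2 := min_le_right _ _
  refine ⟨δ ^ 2 / (2 * τ), by positivity, fun b hb ζ hO => ?_⟩
  obtain ⟨_, _, _, hX, hS, _⟩ := hst b hb
  have hP : Par b T e := ⟨he, lt_of_lt_of_le h0 hb.1, by linarith [hb.2]⟩
  have hcol := W705.DP.t_col b T e w hP hG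
  by_cases hcon : Sw b w (Dst τ b T w ζ) ≤ Sw b w ζ - δ ^ 2 / (2 * τ)
  · exact Or.inl hcon
  right
  push Not at hcon
  have hsm : ∀ u : ℝ, Sw b w (Dst τ b T w ζ) + u ^ 2 / (2 * τ) ≤ Sw b w ζ → |u| < δ := by
    intro u hu
    have h3 : u ^ 2 / (2 * τ) < δ ^ 2 / (2 * τ) := by linarith
    have h4 : u ^ 2 < δ ^ 2 := by
      rwa [div_lt_div_iff_of_pos_right (by positivity)] at h3
    exact abs_lt_of_sq_lt_sq h4 hδ0.le
  have hgX : ∀ i ≤ w.length, |gradX b w ζ i| < κ1 := by
    intro i hi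
    have h3 := hsm _ (hX ζ hO i hi)
    have e1 : (Dst τ b T w ζ).1 i - ζ.1 i = -(τ * gradX b w ζ i) := by simp only [Dst]; ring
    rw [e1, abs_neg, abs_mul, abs_of_pos hτ0] at h3
    exact lt_of_mul_lt_mul_left (h3.trans_le hδa) hτ0.le
  have hin := hcol ζ κ1 hκ10.le hκ1b (fun i hi => (hgX i hi.le).le)
  have hgS : ∀ i < w.length, |gradS w ζ i| < κ1 := by
    intro i hi
    have h3 := hsm _ (hS ζ hO i hi)
    obtain ⟨h4, h5⟩ := hin i hi
    have h6 := abs_lt.1 h3
    have e1 : (Dst τ b T w ζ).2 i = ζ.2 i - τ * gradS w ζ i := by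
      have e2 : (Dst τ b T w ζ).2 i = max 0 (min T (ζ.2 i - τ * gradS w ζ i)) := rfl
      rw [e2] at h6 ⊢
      rcases le_total T (ζ.2 i - τ * gradS w ζ i) with h | h
      · rw [min_eq_left h, max_eq_right (by linarith)] at h6
        linarith
      · rcases le_total 0 (ζ.2 i - τ * gradS w ζ i) with h' | h'
        · rw [min_eq_right h, max_eq_right h']
        · rw [min_eq_right h, max_eq_left h'] at h6
          linarith
    have e3 : (Dst τ b T w ζ).2 i - ζ.2 i = -(τ * gradS w ζ i) := by rw [e1]; ring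
    rw [e3, abs_neg, abs_mul, abs_of_pos hτ0] at h3
    exact lt_of_mul_lt_mul_left (h3.trans_le hδa) hτ0.le
  have h7 := hps b hb ζ hO (fun i hi => ((hgX i hi).le).trans hκ1a)
    (fun i hi => ((hgS i hi).le).trans hκ1a)
  have h8 := abs_lt.1 (hsm _ (hX ζ hO 0 (Nat.zero_le _)))
  have h9 := abs_lt.1 (hsm _ (hX ζ hO w.length le_rfl))
  linarith [h8.1, h8.2, h9.1, h9.2]

end Pool.Agent.Q175.MW
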