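import Pool.Agent.Q175.MW.DropU
import Pool.Agent.Q175.MW.PsU

/-! Nonvanishing levels move with the displacement of the critical configurations when the level
`b` changes -/

set_option autoImplicit false

namespace Pool.Agent.Q175.MW

open Pool.Agent Pool.Agent.W710.DP Pool.Agent.W197.DP Set Finsupp

theorem lip_step (T e b0 b1 : ℝ) (w : List Letter) (he : 0 < e) (h0 : e < b0) (h01 : b0 ≤ b1)
    (h1 : e < T - b1) (hG : GoodW T e w) (κ κ' : ℝ) (hκ : κ' < κ)
    (hcr : ∀ b ∈ Icc b0 b1, ∀ ζ, Om T w.length ζ → Crit b w ζ →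
      κ ≤ ζ.1 w.length - ζ.1 0) (am : ℝ) :
    ∃ h0 > 0, ∀ b h : ℝ, b ∈ Icc b0 b1 → 0 ≤ h → h ≤ h0 → ∀ a, am ≤ a →
      NN b T w a → NN (b + h) T w (a - κ' * h) := by
  obtain ⟨τ, B, hτ0, hB0, hst, hBS⟩ := step_unif T e b0 b1 w he h0 h01 h1 hG
  obtain ⟨C, hC⟩ := drop_unif T e b0 b1 τ B w he h0 h1 hG hB0 hst hBS
  obtain ⟨γ, hγ, hgain⟩ := gain_unif T e b0 b1 τ w he h0 h01 h1 hG hst κ κ' hκ hcr
  set Y : ℝ := max 0 (2 * (C - am + |κ'|) / e) with hY
  have hY0 : 0 ≤ Y := le_max_left _ _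
  have hk0 : 0 ≤ |κ'| := abs_nonneg _
  have hkk : κ' ≤ |κ'| := le_abs_self _
  refine ⟨min (min 1 (e / 2)) (γ / (Y + |κ'| + 1)), by positivity, ?_⟩
  intro b h hb hh hh0 a ham hn
  have hh1 : h ≤ 1 := hh0.trans ((min_le_left _ _).trans (min_le_left _ _))
  have hh2 : h ≤ e / 2 := hh0.trans ((min_le_left _ _).trans (min_le_right _ _))
  have hh3 : h * (Y + |κ'| + 1) ≤ γ := by
    have := hh0.trans (min_le_right _ _)
    rwa [le_div_iff₀ (by positivity)] at this
  have hP : Par b T e := ⟨he, lt_of_lt_of_le h0 hb.1, by linarith [hb.2]⟩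
  have hτ := hst b hb
  obtain ⟨L, hL, hc⟩ := hτ.2.2.2.2.2
  set D : Cfg → Cfg := Dst τ b T w with hD
  -- the new value
  have hval : ∀ ζ, Om T w.length ζ → Sw b w ζ ≤ a → Sw (b + h) w (D ζ) ≤ a - κ' * h := by
    intro ζ hζ ha
    have e1 := Sw_shift b (b + h) w (D ζ)
    rw [add_sub_cancel_left] at e1
    have e2 := sw_step hτ ζ hζ
    rw [← hD] at e2
    have e3 := hC b hb ζ hζ
    rw [← hD] at e3
    have e4 := abs_le.1 (disp_le_tv w (D ζ))
    have e5 := tv_nonneg w (D ζ)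
    have e6 : h * (-tv w (D ζ)) ≤ h * ((D ζ).1 w.length - (D ζ).1 0) :=
      mul_le_mul_of_nonneg_left e4.1 hh
    have e7 : κ' * h ≤ |κ'| := by
      calc κ' * h ≤ |κ'| * h := mul_le_mul_of_nonneg_right hkk hh
        _ ≤ |κ'| * 1 := mul_le_mul_of_nonneg_left hh1 hk0
        _ = |κ'| := mul_one _
    rcases le_or_gt Y (tv w (D ζ)) with h8 | h8
    · have e8 : 2 * (C - am + |κ'|) / e ≤ tv w (D ζ) := (le_max_right _ _).trans h8
      rw [div_le_iff₀ he] at e8
      have e9 : h * tv w (D ζ) ≤ e / 2 * tv w (D ζ) := mul_le_mul_of_nonneg_right hh2 e5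
      rw [e1]
      linarith
    · rcases hgain b hb ζ hζ with h9 | h9
      · rw [← hD] at h9
        have e8 : h * tv w (D ζ) ≤ h * Y := mul_le_mul_of_nonneg_left h8.le hh
        have e10 : κ' * h ≤ |κ'| * h := mul_le_mul_of_nonneg_right hkk hh
        rw [e1]
        nlinarith
      · rw [← hD] at h9
        have e8 : h * κ' ≤ h * ((D ζ).1 w.length - (D ζ).1 0) :=
          mul_le_mul_of_nonneg_left h9 hh
        rw [e1]
        linarith
  intro M ε hε
  obtain ⟨M0, hM0⟩ := a_far b T e w hP hG 3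
  have hL0 : 0 < L := by linarith
  obtain ⟨z, hz1, hz2, hz3⟩ := hn (max (max (2 * M + |C|) M0) 0) (min (ε / L) (1 / 4))
    (by positivity)
  have hε1 : L * min (ε / L) (1 / 4) ≤ ε := by
    calc L * min (ε / L) (1 / 4) ≤ L * (ε / L) := by
          gcongr
          exact min_le_left _ _
      _ = ε := by field_simp
  refine ⟨mapc D z, ?_, ?_, ?_⟩
  · intro t ht
    obtain ⟨s, hs, rfl⟩ := W197.DP.mapc_support D z t ht
    obtain ⟨hs1, hs2, hs3⟩ := hz1 s hs
    refine ⟨by simpa using hs1, ?_, ?_⟩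
    · intro p hp q hq
      obtain ⟨p', hp', rfl⟩ := List.mem_map.1 hp
      obtain ⟨q', hq', rfl⟩ := List.mem_map.1 hq
      exact close_mono hε1 (hc p' q' _ (by positivity) (hs2 p' hp' q' hq'))
    · intro p hp
      obtain ⟨p', hp', rfl⟩ := List.mem_map.1 hp
      exact ⟨hτ.2.1 p', hval p' (hs3 p' hp').1 (hs3 p' hp').2⟩
  · intro t ht p hp
    rw [W197.DP.bd_mapc] at ht
    obtain ⟨s, hs, rfl⟩ := W197.DP.mapc_support D _ t ht
    obtain ⟨p', hp', rfl⟩ := List.mem_map.1 hp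
    obtain ⟨s', hs', _, hs2⟩ := W197.DP.bd_support z s hs
    have ho : Om T w.length p' := ((hz1 s' hs').2.2 p' (hs2 p' hp')).1
    have h5 := sw_step hτ p' ho
    rw [← hD] at h5
    have h6 := hz2 s hs p' hp'
    have h7 : 2 * M + |C| ≤ max (max (2 * M + |C|) M0) 0 :=
      (le_max_left _ _).trans (le_max_left _ _)
    have h8 : 0 ≤ max (max (2 * M + |C|) M0) 0 := le_max_right _ _
    have e1 := Sw_shift b (b + h) w (D p')
    rw [add_sub_cancel_left] at e1
    have e3 := hC b hb p' ho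
    rw [← hD] at e3
    have e4 := abs_le.1 (disp_le_tv w (D p'))
    have e5 := tv_nonneg w (D p')
    have e6 : h * (-tv w (D p')) ≤ h * ((D p').1 w.length - (D p').1 0) :=
      mul_le_mul_of_nonneg_left e4.1 hh
    have e9 : h * tv w (D p') ≤ e / 2 * tv w (D p') := mul_le_mul_of_nonneg_right hh2 e5
    have e10 : C ≤ |C| := le_abs_self _
    show Sw (b + h) w (D p') ≤ -M
    rw [e1]
    linarith
  · rw [W197.DP.pr_mapc]
    rcases Nat.eq_zero_or_pos w.length with hw0 | hw0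
    · rw [hw0] at hz3 ⊢
      simpa [hw] using hz3
    rw [← hz3]
    refine (W153.DP.t_repl Cfg (hw w.length) ((hw w.length).map (fun h => h ∘ D)) z (by simp)
      (fun t ht => (hz1 t ht).1) ?_).symm
    intro t ht
    obtain ⟨s, hs, hst, hts⟩ := W197.DP.bd_support z t ht
    have hlen := (hz1 s hs).1
    rw [W197.DP.hw_length] at hlen
    have htl : t.length = w.length := by omega
    obtain ⟨p0, hp0⟩ : ∃ p0, p0 ∈ t := by
      cases t with
      | nil => simp at htl; omega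
      | cons x u => exact ⟨x, by simp⟩
    have ho0 : Om T w.length p0 := ((hz1 s hs).2.2 p0 (hts p0 hp0)).1
    have hq0 : Sw b w p0 ≤ -M0 := by
      have h6 := hz2 t ht p0 hp0
      have h7 : M0 ≤ max (max (2 * M + |C|) M0) 0 := (le_max_right _ _).trans (le_max_left _ _)
      linarith
    obtain ⟨i, hi, hYi⟩ := hM0 p0 ho0 hq0
    refine ⟨i, by rw [W197.DP.hw_length]; exact hi, hy i p0, ?_⟩
    intro q hq
    rw [W197.DP.hw_getD _ _ hi, hwmap_getD _ _ hi]
    have hcl : Close w.length (1 / 4) q p0 :=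
      close_mono (min_le_right _ _) ((hz1 s hs).2.1 q (hts q hq) p0 (hts p0 hp0))
    have hoq : Om T w.length q := ((hz1 s hs).2.2 q (hts q hq)).1
    have c1 := hcl.1 i hi.le
    have c2 := hcl.1 (i + 1) hi
    have m1 := hτ.2.2.1 q hoq i hi.le
    have m2 := hτ.2.2.1 q hoq (i + 1) hi
    rw [← hD] at m1 m2
    rw [abs_le] at c1 c2 m1 m2
    constructor
    · apply hy_const
      refine lt_of_lt_of_le ?_ hYi
      rw [abs_lt]
      constructor <;> linarith [c1.1, c1.2, c2.1, c2.2]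
    · show hy i (D q) = hy i p0
      apply hy_const
      refine lt_of_lt_of_le ?_ hYi
      rw [abs_lt]
      constructor <;> linarith [c1.1, c1.2, c2.1, c2.2, m1.1, m1.2, m2.1, m2.2]

theorem lip (T e b0 b1 : ℝ) (w : List Letter) (he : 0 < e) (h0 : e < b0) (h01 : b0 ≤ b1)
    (h1 : e < T - b1) (hG : GoodW T e w) (κ κ' : ℝ) (hκ : κ' < κ)
    (hcr : ∀ b ∈ Icc b0 b1, ∀ ζ, Om T w.length ζ → Crit b w ζ →
      κ ≤ ζ.1 w.length - ζ.1 0) (a : ℝ) (hn : NN b0 T w a) :
    NN b1 T w (a - κ' * (b1 - b0)) := by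
  obtain ⟨h00, hh00, hstep⟩ := lip_step T e b0 b1 w he h0 h01 h1 hG κ κ' hκ hcr
    (a - |κ'| * (b1 - b0))
  obtain ⟨K, hK⟩ := exists_nat_gt ((b1 - b0) / h00)
  have hbb : 0 ≤ b1 - b0 := by linarith
  have hK0 : (0 : ℝ) < K := lt_of_le_of_lt (div_nonneg hbb hh00.le) hK
  set h : ℝ := (b1 - b0) / K with hh
  have hh0 : 0 ≤ h := div_nonneg hbb hK0.le
  have hh1 : h ≤ h00 := by
    rw [hh, div_le_iff₀ hK0]
    rw [div_lt_iff₀ hh00] at hK
    linarith
  have hKh : K * h = b1 - b0 := by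
    rw [hh]
    field_simp
  have key : ∀ j : ℕ, j ≤ K → NN (b0 + j * h) T w (a - κ' * (j * h)) := by
    intro j
    induction j with
    | zero =>
      intro _
      simpa using hn
    | succ j ih =>
      intro hj
      have h2 := ih (by omega)
      have hjK : (j : ℝ) * h ≤ b1 - b0 := by
        rw [← hKh]
        exact mul_le_mul_of_nonneg_right (by exact_mod_cast (by omega : j ≤ K)) hh0
      have hj0 : 0 ≤ (j : ℝ) * h := by positivity
      have h3 := hstep (b0 + j * h) h ⟨by linarith, by linarith⟩ hh0 hh1 (a - κ' * (j * h)) (by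
        have h4 : κ' * (j * h) ≤ |κ'| * (b1 - b0) := by
          calc κ' * (j * h) ≤ |κ'| * (j * h) := mul_le_mul_of_nonneg_right (le_abs_self _) hj0
            _ ≤ |κ'| * (b1 - b0) := mul_le_mul_of_nonneg_left hjK (abs_nonneg _)
        linarith) h2
      have e1 : b0 + j * h + h = b0 + ((j + 1 : ℕ) : ℝ) * h := by push_cast; ring
      have e2 : a - κ' * (j * h) - κ' * h = a - κ' * (((j + 1 : ℕ) : ℝ) * h) := by
        push_cast; ring
      rw [e1, e2] at h3
      exact h3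
  have h5 := key K le_rfl
  rw [hKh] at h5
  have e3 : b0 + (b1 - b0) = b1 := by ring
  rw [e3] at h5
  exact h5

end Pool.Agent.Q175.MW
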