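import Pool.Agent.Q175.MW.Cap
import Pool.Agent.Q175.MW.Eval
import Pool.Agent.Q175.MW.Lip

/-! A product of `m` commutators of area preserving diffeomorphisms which are the identity near
the origin cannot turn by more than `2 m` near infinity -/

set_option autoImplicit false

namespace Pool.Agent.Q175.MW

open Pool.Agent Pool.Agent.W710.DP

theorem turn_le (L : List (Equiv.Perm ℂ × Equiv.Perm ℂ))
    (hL : ∀ p ∈ L, AP p.1 ∧ Id0 p.1 ∧ AP p.2 ∧ Id0 p.2) (θ : ℂ → ℝ)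
    (hθc : ContinuousOn θ {0}ᶜ)
    (hθ : ∀ z : ℂ, z ≠ 0 → (L.map cmm).prod z / z =
      (‖(L.map cmm).prod z / z‖ : ℂ) *
        Complex.exp (((2 * Real.pi * θ z : ℝ) : ℂ) * Complex.I))
    (hθ0 : ∃ r : ℝ, 0 < r ∧ ∀ z : ℂ, z ≠ 0 → ‖z‖ < r → θ z = 0) (κ b0 : ℝ) (hb0 : 0 < b0)
    (hκ : ∀ z, b0 ≤ ar z → κ ≤ θ z) : κ ≤ 2 * L.length := by
  by_contra hcon
  push Not at hcon
  have hn0 : (0 : ℝ) ≤ L.length := Nat.cast_nonneg _
  obtain ⟨hAP, hId⟩ := AP_prod hL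
  obtain ⟨C, hC⟩ := crit_path _ hAP hId θ hθc hθ hθ0 b0 hb0
  set m : ℝ := 2 * L.length with hm
  set κ' : ℝ := (κ + m) / 2 with hκ'
  have hk1 : κ' < κ := by linarith
  have hk2 : m < κ' := by linarith
  have hd : 0 < κ' - m := by linarith
  set b1 : ℝ := b0 + (|C| + 1 + κ' * b0 + m + 1) / (κ' - m) with hb1
  have hnum : 0 < |C| + 1 + κ' * b0 + m + 1 := by
    have h1 : 0 ≤ |C| := abs_nonneg C
    have h2 : 0 < κ' * b0 := mul_pos (by linarith) hb0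
    linarith
  have h01 : b0 ≤ b1 := by
    have := div_pos hnum hd
    linarith
  obtain ⟨T, e, w, he, heb, hbT, hG, hR, hlow⟩ := words L hL b0 b1 hb0 h01
  have hP0 : Par b0 T e := ⟨he, heb, by linarith⟩
  have hcrit0 : ∀ ζ, Crit b0 w ζ → Sw b0 w ζ ≤ C := by
    intro ζ hζ
    obtain ⟨h1, h2⟩ := hC b0 T e (b1 + 1) w hP0 hG (by linarith) hR ζ hζ
    have h3 := h2 (Or.inl le_rfl)
    have h4 : κ ≤ ζ.1 w.length - ζ.1 0 := by
      rw [h1]
      exact hκ _ (by rw [ar_E _ _ hb0.le])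
    have h5 : 0 ≤ b0 * (ζ.1 w.length - ζ.1 0) := mul_nonneg hb0.le (by linarith)
    linarith
  have hNN0 : NN b0 T w (C + 1) := by
    refine a_push b0 T e w hP0 hG (C + 1) _ ?_ (a_base b0 T e w hP0 hG)
    intro ζ _ hcr hh
    have := hcrit0 ζ hcr
    linarith [hh.1]
  have hNN1 := lip T e b0 b1 w he heb h01 (by linarith) hG κ κ' hk1 (by
    intro b hb ζ _ hcr
    have hb' : 0 < b := lt_of_lt_of_le hb0 hb.1
    have hP : Par b T e := ⟨he, lt_of_lt_of_le heb hb.1, by linarith [hb.2]⟩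
    obtain ⟨h1, _⟩ := hC b T e (b1 + 1) w hP hG (by linarith [hb.2]) hR ζ hcr
    rw [h1]
    exact hκ _ (by rw [ar_E _ _ hb'.le]; exact hb.1)) (C + 1) hNN0
  have h6 := hlow _ hNN1
  have h7 : (κ' - m) * (b1 - b0) = |C| + 1 + κ' * b0 + m + 1 := by
    rw [hb1]
    field_simp
    ring
  have h8 : C ≤ |C| := le_abs_self C
  have h9 : m * b0 < κ' * b0 := mul_lt_mul_of_pos_right hk2 hb0
  nlinarith

end Pool.Agent.Q175.MW
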