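import Pool.Agent.W710.DP.Asm
import Pool.Agent.W632.DP.Sub
import Pool.Agent.W103.DP.Sup
import Pool.Agent.W710.DP.TanC
import Pool.Agent.W991.DP.Steps
import Pool.Agent.W853.DP.Lift

/-! Spectral values of words realising products of commutators -/

set_option autoImplicit false

namespace Pool.Agent.Q175.MW

open Pool.Agent Pool.Agent.W710.DP Finsupp

theorem h_sub : S_sub := W632.DP.t_sub a_prod W327.DP.t_path W923.DP.t_stair W153.DP.t_repl a_far
theorem h_sup : S_sup := W103.DP.t_sup a_bdd W153.DP.t_dual W304.DP.t_tri a_far W636.DP.t_loc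
theorem h_germ : S_germ :=
  W817.DP.t_germ a_trans a_lin (W710.DP.TanC.t_tan a_core W699.DP.t_pot a_gf)
theorem h_real : S_real :=
  W481.DP.t_real W991.DP.t_steps (W539.DP.t_letter W853.DP.t_lift a_gen) W925.DP.t_comp

/-- the core inequality for the spectral value -/
theorem core_lam {b T e : ℝ} (hP : Par b T e)
    (Q : List ((List Letter × List Letter) × (List Letter × List Letter)))
    (hQ : ∀ q ∈ Q, ((GoodW T e q.1.1 ∧ q.1.1 ≠ []) ∧ (GoodW T e q.1.2 ∧ q.1.2 ≠ [])) ∧
      ((GoodW T e q.2.1 ∧ q.2.1 ≠ []) ∧ (GoodW T e q.2.2 ∧ q.2.2 ≠ [])) ∧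
      (∀ ζ, Crit b (q.1.1 ++ idL :: q.1.2) ζ → 0 ≤ Sw b (q.1.1 ++ idL :: q.1.2) ζ) ∧
      (∀ ζ, Crit b (q.2.1 ++ idL :: q.2.2) ζ → 0 ≤ Sw b (q.2.1 ++ idL :: q.2.2) ζ)) :
    GoodW T e (joinW (Q.flatMap fun q => [q.2.2, q.1.2, q.2.1, q.1.1])) ∧
    ∀ a, NN b T (joinW (Q.flatMap fun q => [q.2.2, q.1.2, q.2.1, q.1.1])) a →
      -(2 * (Q.length : ℝ) * (b + 1)) ≤ a := by
  set B := Q.flatMap fun q => [q.2.2, q.1.2, q.2.1, q.1.1] with hBdef
  have hB : ∀ w ∈ B, GoodW T e w ∧ w ≠ [] := by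
    intro w hw
    rw [hBdef, List.mem_flatMap] at hw
    obtain ⟨q, hq, hw⟩ := hw
    obtain ⟨⟨h1, h2⟩, ⟨h3, h4⟩, _⟩ := hQ q hq
    simp only [List.mem_cons, List.not_mem_nil, or_false] at hw
    rcases hw with rfl | rfl | rfl | rfl
    · exact h4
    · exact h2
    · exact h3
    · exact h1
  have hsum : -(2 * (Q.length : ℝ) * (b + 1)) ≤ (B.map (lam b T)).sum := by
    rw [hBdef]
    clear hB hBdef B
    induction Q with
    | nil => simp
    | cons q Q ih =>
        have ih' := ih fun q' hq' => hQ q' (List.mem_cons_of_mem _ hq')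
        obtain ⟨⟨h1, h2⟩, ⟨h3, h4⟩, h5, h6⟩ := hQ q (by simp)
        have k1 := lam_inv a_low a_base a_push h_sub hP h1.1 h2.1 h5
        have k2 := lam_inv a_low a_base a_push h_sub hP h3.1 h4.1 h6
        simp only [List.flatMap_cons, List.map_append, List.sum_append, List.map_cons,
          List.map_nil, List.sum_cons, List.sum_nil, List.length_cons, Nat.cast_add,
          Nat.cast_one]
        linarith
  have hgood : GoodW T e (joinW B) := joinW_good hP.1.le B fun w hw => (hB w hw).1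
  exact ⟨hgood, fun a ha => hsum.trans (sum_lam_le a_low h_sup hP B hB _ ha)⟩

/-- words for products of commutators: for every `b` there is a word realising the product near the
disc of area `b`, all of whose nonvanishing levels are bounded below by the number of
commutators -/
theorem words (L : List (Equiv.Perm ℂ × Equiv.Perm ℂ))
    (hL : ∀ p ∈ L, AP p.1 ∧ Id0 p.1 ∧ AP p.2 ∧ Id0 p.2) (b0 b : ℝ) (hb0 : 0 < b0)
    (hbb : b0 ≤ b) :
    ∃ (T e : ℝ) (w : List Letter), 0 < e ∧ e < b0 ∧ b + e < T ∧ GoodW T e w ∧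
      Realises w (L.map cmm).prod (Dc (b + 1)) ∧
      ∀ a, NN b T w a → -(2 * (L.length : ℝ) * (b + 1)) ≤ a := by
  have hb : 0 < b := lt_of_lt_of_le hb0 hbb
  -- radii
  obtain ⟨ρ, hρ, hstay⟩ := rad_list t_rad (b + 1)
    (maps L :: (L.flatMap fun p => [[p.1, p.1⁻¹], [p.2, p.2⁻¹]])) (by
      intro M hM a ha
      rcases List.mem_cons.1 hM with rfl | hM
      · simp only [maps, List.mem_flatMap, List.mem_reverse, List.mem_cons, List.not_mem_nil,
          or_false] at ha
        obtain ⟨p, hp, ha⟩ := ha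
        obtain ⟨h1, _, h3, _⟩ := hL p hp
        rcases ha with rfl | rfl | rfl | rfl
        · exact AP_inv h3
        · exact AP_inv h1
        · exact h3
        · exact h1
      · simp only [List.mem_flatMap, List.mem_cons, List.not_mem_nil, or_false] at hM
        obtain ⟨p, hp, hM⟩ := hM
        obtain ⟨h1, _, h3, _⟩ := hL p hp
        rcases hM with rfl | rfl
        · simp only [List.mem_cons, List.not_mem_nil, or_false] at ha
          rcases ha with rfl | rfl
          · exact h1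
          · exact AP_inv h1
        · simp only [List.mem_cons, List.not_mem_nil, or_false] at ha
          rcases ha with rfl | rfl
          · exact h3
          · exact AP_inv h3)
  -- words
  obtain ⟨T0, e0, he0, hwords⟩ := real_list h_real ρ hρ (maps L) (by
      intro a ha
      simp only [maps, List.mem_flatMap, List.mem_reverse, List.mem_cons, List.not_mem_nil,
          or_false] at ha
      obtain ⟨p, hp, ha⟩ := ha
      obtain ⟨h1, h2, h3, h4⟩ := hL p hp
      rcases ha with rfl | rfl | rfl | rfl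
      · exact ⟨AP_inv h3, Id0_inv h4⟩
      · exact ⟨AP_inv h1, Id0_inv h2⟩
      · exact ⟨h3, h4⟩
      · exact ⟨h1, h2⟩)
  set T : ℝ := max T0 (b + 2) with hT
  set e : ℝ := min e0 (min (b0 / 2) 1) with he
  have hep : 0 < e := lt_min he0 (lt_min (by linarith) one_pos)
  have heb0 : e < b0 :=
    lt_of_le_of_lt ((min_le_right _ _).trans (min_le_left _ _)) (by linarith)
  have heb : e < b := lt_of_lt_of_le heb0 hbb
  have heT : e < T - b := by
    have h1 : e ≤ 1 := (min_le_right _ _).trans (min_le_right _ _)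
    have h2 : b + 2 ≤ T := le_max_right _ _
    linarith
  have hP : Par b T e := ⟨hep, heb, heT⟩
  have hw := hwords T (le_max_left _ _) e hep (min_le_left _ _)
  choose! W hW using hw
  have mem1 : ∀ p ∈ L, p.1 ∈ maps L ∧ p.1⁻¹ ∈ maps L ∧ p.2 ∈ maps L ∧ p.2⁻¹ ∈ maps L := by
    intro p hp
    simp only [maps, List.mem_flatMap, List.mem_reverse, List.mem_cons, List.not_mem_nil,
          or_false]
    exact ⟨⟨p, hp, by simp⟩, ⟨p, hp, by simp⟩, ⟨p, hp, by simp⟩, ⟨p, hp, by simp⟩⟩
  -- pairs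
  have hpair : ∀ a : Equiv.Perm ℂ, a ∈ maps L → a⁻¹ ∈ maps L →
      (∀ z, ar z < b + 1 → Stay ρ [a, a⁻¹] z) →
      ∀ ζ, Crit b (W a ++ idL :: W a⁻¹) ζ → 0 ≤ Sw b (W a ++ idL :: W a⁻¹) ζ := by
    intro a ha ha' hst ζ hζ
    have h1 := Realises_join W925.DP.t_comp ρ [a, a⁻¹] W (by
      intro a'' ha''
      simp only [List.mem_cons, List.not_mem_nil, or_false] at ha''
      rcases ha'' with rfl | rfl
      · exact (hW _ ha).2.2
      · exact (hW _ ha').2.2)
    have h2 : Realises (W a ++ idL :: W a⁻¹) (fun z => z) (Dc (b + 1)) := by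
      refine Realises.mono h1 (fun z hz => hst z hz) fun z _ => ?_
      simp [compL]
    have h3 := a_evid b T e (b + 1) _ hP ((hW _ ha).2.1.mid hep.le (hW _ ha').2.1)
      (by linarith) h2 ζ hζ
    exact h3.ge
  set Q := L.reverse.map (fun p : Equiv.Perm ℂ × Equiv.Perm ℂ =>
    ((W p.1, W p.1⁻¹), (W p.2, W p.2⁻¹))) with hQdef
  have hQB : (Q.flatMap fun q => [q.2.2, q.1.2, q.2.1, q.1.1]) = (maps L).map W := by
    rw [hQdef, maps, List.flatMap_map, List.map_flatMap]
    rfl
  have hcore := core_lam hP Q (by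
    intro q hq
    rw [hQdef, List.mem_map] at hq
    obtain ⟨p, hp, rfl⟩ := hq
    rw [List.mem_reverse] at hp
    obtain ⟨m1, m2, m3, m4⟩ := mem1 p hp
    refine ⟨⟨⟨(hW _ m1).2.1, (hW _ m1).1⟩, ⟨(hW _ m2).2.1, (hW _ m2).1⟩⟩,
      ⟨⟨(hW _ m3).2.1, (hW _ m3).1⟩, ⟨(hW _ m4).2.1, (hW _ m4).1⟩⟩, ?_, ?_⟩
    · refine hpair p.1 m1 m2 (hstay _ ?_)
      refine List.mem_cons_of_mem _ ?_
      rw [List.mem_flatMap]
      exact ⟨p, hp, by simp⟩
    · refine hpair p.2 m3 m4 (hstay _ ?_)
      refine List.mem_cons_of_mem _ ?_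
      rw [List.mem_flatMap]
      exact ⟨p, hp, by simp⟩)
  rw [hQB] at hcore
  have hlen : (Q.length : ℝ) = L.length := by rw [hQdef]; simp
  rw [hlen] at hcore
  refine ⟨T, e, joinW ((maps L).map W), hep, heb0, by linarith, hcore.1, ?_, hcore.2⟩
  refine Realises.mono (Realises_join W925.DP.t_comp ρ (maps L) W fun a ha => (hW a ha).2.2)
    (fun z hz => hstay _ (by simp) z hz) fun z _ => ?_
  rw [compL_maps]

end Pool.Agent.Q175.MW
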