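import Pool.Agent.Q175.MW.StepU

/-! Quantitative descent of far configurations, uniformly in the level -/

set_option autoImplicit false

namespace Pool.Agent.Q175.MW

open Pool.Agent Pool.Agent.W710.DP

/-- total variation of the angles -/
noncomputable def tv (w : List Letter) (ζ : Cfg) : ℝ :=
  ∑ j ∈ Finset.range w.length, |ζ.1 (j + 1) - ζ.1 j|

lemma tv_nonneg (w : List Letter) (ζ : Cfg) : 0 ≤ tv w ζ :=
  Finset.sum_nonneg fun _ _ => abs_nonneg _

lemma disp_le_tv (w : List Letter) (ζ : Cfg) : |ζ.1 w.length - ζ.1 0| ≤ tv w ζ := by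
  unfold tv
  have h : ∀ n : ℕ, |ζ.1 n - ζ.1 0| ≤ ∑ j ∈ Finset.range n, |ζ.1 (j + 1) - ζ.1 j| := by
    intro n
    induction n with
    | zero => simp
    | succ n ih =>
      rw [Finset.sum_range_succ]
      have e : ζ.1 (n + 1) - ζ.1 0 = (ζ.1 n - ζ.1 0) + (ζ.1 (n + 1) - ζ.1 n) := by ring
      rw [e]
      exact (abs_add_le _ _).trans (by linarith)
  exact h _

theorem drop_unif (T e b0 b1 τ B : ℝ) (w : List Letter) (he : 0 < e) (h0 : e < b0)
    (h1 : e < T - b1) (hG : GoodW T e w) (hB0 : 0 ≤ B)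
    (hst : ∀ b ∈ Set.Icc b0 b1, StepOK τ b T w)
    (hBS : ∀ ζ, Om T w.length ζ → ∀ i < w.length,
      |gradS w ζ i - (ζ.1 (i + 1) - ζ.1 i)| ≤ B) :
    ∃ C : ℝ, ∀ b ∈ Set.Icc b0 b1, ∀ ζ, Om T w.length ζ →
      Sw b w (Dst τ b T w ζ) ≤ C - e * tv w (Dst τ b T w ζ) := by
  obtain ⟨Y0, hY0⟩ : ∃ Y0 : ℝ, Y0 = T / τ + B + 1 := ⟨_, rfl⟩
  obtain ⟨c, hc⟩ : ∃ c : ℝ, c = (T + e) * (Y0 + 1 / 2) + 1 / 4 := ⟨_, rfl⟩
  refine ⟨w.length * c, ?_⟩
  intro b hb ζ hζ
  obtain ⟨hτ0, hOm, hx, -, -, -⟩ := hst b hb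
  have hb' : e ≤ b := h0.le.trans hb.1
  have hTb : e ≤ T - b := by linarith [hb.2]
  have hT : 0 < T := by linarith
  have hY0p : 1 ≤ Y0 := by
    have : 0 < T / τ := div_pos hT hτ0
    linarith
  obtain ⟨D, hD⟩ : ∃ D : Cfg, D = Dst τ b T w ζ := ⟨_, rfl⟩
  rw [← hD]
  have hOmD : Om T w.length D := by rw [hD]; exact hOm ζ
  have hxD : ∀ j ≤ w.length, |D.1 j - ζ.1 j| ≤ 1 / 4 := by rw [hD]; exact hx ζ hζ
  have hBSζ := hBS ζ hζ
  have hD2 : ∀ j, D.2 j = max 0 (min T (ζ.2 j - τ * gradS w ζ j)) := by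
    intro j
    rw [hD]
    rfl
  -- the terms
  have hGt : ∀ j < w.length, |(lt w j).G (D.1 j) (D.2 j)| ≤ 1 / 4 := by
    intro j hj
    exact ((hG _ (W616.DP.lt_mem w j hj)).small _ _).1
  have hall : ∀ j < w.length,
      (D.2 j - b) * (D.1 (j + 1) - D.1 j) - (lt w j).G (D.1 j) (D.2 j) ≤
        c - e * |D.1 (j + 1) - D.1 j| := by
    intro j hj
    have h1 := abs_le.mp (hxD j hj.le)
    have h2 := abs_le.mp (hxD (j + 1) hj)
    have h4 := abs_le.mp (hGt j hj)
    have hc0 : 0 ≤ (T + e) * (Y0 + 1 / 2) := by positivity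
    rcases le_total Y0 |ζ.1 (j + 1) - ζ.1 j| with h0 | h0
    · have h3 := abs_le.mp (hBSζ j hj)
      have h5 := hζ j hj
      have h6 : τ * (T / τ) = T := by field_simp
      rcases le_total 0 (ζ.1 (j + 1) - ζ.1 j) with hs | hs
      · rw [abs_of_nonneg hs] at h0
        have h7 : T / τ ≤ gradS w ζ j := by linarith
        have h8 : τ * (T / τ) ≤ τ * gradS w ζ j := mul_le_mul_of_nonneg_left h7 hτ0.le
        have h9 : D.2 j = 0 := by
          rw [hD2 j]
          apply max_eq_left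
          apply (min_le_right _ _).trans
          linarith
        have h11 : 0 ≤ D.1 (j + 1) - D.1 j := by linarith
        rw [abs_of_nonneg h11]
        have h10 : e * (D.1 (j + 1) - D.1 j) ≤ b * (D.1 (j + 1) - D.1 j) :=
          mul_le_mul_of_nonneg_right hb' h11
        have h12 : (D.2 j - b) * (D.1 (j + 1) - D.1 j) = -(b * (D.1 (j + 1) - D.1 j)) := by
          rw [h9]; ring
        rw [h12]
        linarith
      · rw [abs_of_nonpos hs] at h0
        have h7 : gradS w ζ j ≤ -(T / τ) := by linarith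
        have h8 : τ * gradS w ζ j ≤ τ * (-(T / τ)) := mul_le_mul_of_nonneg_left h7 hτ0.le
        have h9 : D.2 j = T := by
          rw [hD2 j, min_eq_left (by linarith), max_eq_right hT.le]
        have h11 : D.1 (j + 1) - D.1 j ≤ 0 := by linarith
        rw [abs_of_nonpos h11]
        have h10 : e * (-(D.1 (j + 1) - D.1 j)) ≤ (T - b) * (-(D.1 (j + 1) - D.1 j)) :=
          mul_le_mul_of_nonneg_right hTb (by linarith)
        have h12 : (D.2 j - b) * (D.1 (j + 1) - D.1 j) =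
            -((T - b) * (-(D.1 (j + 1) - D.1 j))) := by
          rw [h9]; ring
        rw [h12]
        linarith
    · have h5 := abs_le.mp h0
      have h6 : |D.1 (j + 1) - D.1 j| ≤ Y0 + 1 / 2 := by
        rw [abs_le]
        constructor <;> linarith
      have h7 : |D.2 j - b| ≤ T := by
        rw [abs_le]
        have := hOmD j hj
        constructor <;> linarith
      have h8 : (D.2 j - b) * (D.1 (j + 1) - D.1 j) ≤ T * (Y0 + 1 / 2) := by
        calc (D.2 j - b) * (D.1 (j + 1) - D.1 j) ≤ |(D.2 j - b) * (D.1 (j + 1) - D.1 j)| :=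
              le_abs_self _
          _ = |D.2 j - b| * |D.1 (j + 1) - D.1 j| := abs_mul _ _
          _ ≤ T * (Y0 + 1 / 2) := mul_le_mul h7 h6 (abs_nonneg _) hT.le
      have h9 : e * |D.1 (j + 1) - D.1 j| ≤ e * (Y0 + 1 / 2) :=
        mul_le_mul_of_nonneg_left h6 he.le
      have h10 : c = T * (Y0 + 1 / 2) + e * (Y0 + 1 / 2) + 1 / 4 := by rw [hc]; ring
      linarith
  rw [W616.DP.Sw_sum]
  calc _ ≤ ∑ j ∈ Finset.range w.length, (c - e * |D.1 (j + 1) - D.1 j|) :=
        Finset.sum_le_sum fun j hj => hall j (Finset.mem_range.1 hj)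
    _ = w.length * c - e * tv w D := by
        rw [Finset.sum_sub_distrib, Finset.sum_const, Finset.card_range, nsmul_eq_mul,
          ← Finset.mul_sum]
        rfl

end Pool.Agent.Q175.MW
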