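import Pool.Agent.Q175.MW.Main

/-! Existence of lifts -/

set_option autoImplicit false

open Filter Topology unitInterval

namespace Pool.Agent.Q175.MW

open Pool.Agent Pool.Agent.W710.DP Pool.Agent.Helper11.PlaneEuler

/-- rescaled displacement -/
noncomputable def sd (g : ℂ → ℂ) (s : ℝ) (z : ℂ) : ℂ := (s : ℂ) * (g (z / s) - z / s)

lemma continuous_sd (g : ℂ ≃ₜ ℂ) (C : ℝ) (hC : ∀ z, ‖g z - z‖ ≤ C) :
    Continuous fun y : ℝ × ℂ => sd g y.1 y.2 := by
  rw [continuous_iff_continuousAt]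
  rintro ⟨s, z⟩
  have hg := g.continuous
  by_cases hs : s = 0
  · subst hs
    have h0 : sd g 0 z = 0 := by simp [sd]
    unfold ContinuousAt
    simp only
    rw [h0]
    have h1 : Tendsto (fun y : ℝ × ℂ => |y.1| * C) (𝓝 (0, z)) (𝓝 0) := by
      have : Continuous fun y : ℝ × ℂ => |y.1| * C := by fun_prop
      have h2 := this.tendsto (0, z)
      simpa using h2
    refine squeeze_zero_norm (fun y => ?_) h1
    unfold sd
    rw [norm_mul, Complex.norm_real, Real.norm_eq_abs]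
    exact mul_le_mul_of_nonneg_left (hC _) (abs_nonneg _)
  · have hs' : (s : ℂ) ≠ 0 := by exact_mod_cast hs
    have h1 : ContinuousAt (fun y : ℝ × ℂ => y.2 / (y.1 : ℂ)) (s, z) :=
      ContinuousAt.div (by fun_prop) (by fun_prop) hs'
    have h2 : ContinuousAt (fun y : ℝ × ℂ => g (y.2 / (y.1 : ℂ))) (s, z) :=
      ContinuousAt.comp (g := g) hg.continuousAt h1
    have h3 : ContinuousAt (fun y : ℝ × ℂ => (y.1 : ℂ)) (s, z) := by fun_prop
    exact h3.mul (h2.sub h1)

/-- the quotient for the rescaled homeomorphism -/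
noncomputable def rq (g : ℂ → ℂ) (s : ℝ) (x : Conf) : ℂ :=
  1 + (sd g s x.1.2 - sd g s x.1.1) / (x.1.2 - x.1.1)

lemma rq_ne (g : ℂ ≃ₜ ℂ) (s : ℝ) (x : Conf) : rq g s x ≠ 0 := by
  unfold rq
  have hx := sub_ne x
  by_cases hs : s = 0
  · subst hs
    simp [sd]
  · have hs' : (s : ℂ) ≠ 0 := by exact_mod_cast hs
    have h1 : 1 + (sd g s x.1.2 - sd g s x.1.1) / (x.1.2 - x.1.1) =
        (s : ℂ) * (g (x.1.2 / s) - g (x.1.1 / s)) / (x.1.2 - x.1.1) := by
      unfold sd
      field_simp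
      ring
    rw [h1]
    refine div_ne_zero (mul_ne_zero hs' ?_) hx
    rw [sub_ne_zero]
    intro h2
    have h3 := g.injective h2
    have h4 : x.1.2 = x.1.1 := by
      have := congrArg (fun u => (s : ℂ) * u) h3
      rwa [mul_div_cancel₀ _ hs', mul_div_cancel₀ _ hs'] at this
    exact x.2 h4.symm

lemma continuous_rq (g : ℂ ≃ₜ ℂ) (C : ℝ) (hC : ∀ z, ‖g z - z‖ ≤ C) :
    Continuous fun y : ℝ × Conf => rq g y.1 y.2 := by
  have h := continuous_sd g C hC
  unfold rq
  refine continuous_const.add (Continuous.div ?_ (by fun_prop) fun y => sub_ne y.2)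
  exact (h.comp (by fun_prop : Continuous fun y : ℝ × Conf => (y.1, y.2.1.2))).sub
    (h.comp (by fun_prop : Continuous fun y : ℝ × Conf => (y.1, y.2.1.1)))

/-- homeomorphisms with bounded displacement have lifts -/
theorem exists_lift_bdd (g : ℂ ≃ₜ ℂ) (C : ℝ) (hC : ∀ z, ‖g z - z‖ ≤ C) :
    ∃ G : PlaneLift, G.homeo = g := by
  have hcr := continuous_rq g C hC
  let rcc : I × Conf → Circle := fun y => ⟨rq g y.1 y.2 / ‖rq g y.1 y.2‖, by
    apply mem_sphere_zero_iff_norm.mpr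
    rw [norm_div, Complex.norm_real, norm_norm,
      div_self (norm_ne_zero_iff.mpr (rq_ne g y.1 y.2))]⟩
  have hrcc : Continuous rcc := by
    have h1 : Continuous (fun y : I × Conf => rq g y.1 y.2) :=
      hcr.comp (by fun_prop : Continuous (fun y : I × Conf => ((y.1 : ℝ), y.2)))
    refine Continuous.subtype_mk ?_ _
    apply h1.div
    · fun_prop
    · intro y
      have : ‖rq g y.1 y.2‖ ≠ 0 := norm_ne_zero_iff.mpr (rq_ne g _ _)
      exact_mod_cast this
  let Hm : C(I × Conf, Circle) := ⟨rcc, hrcc⟩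
  have H0 : ∀ a : Conf, Hm (0, a) = Circle.exp ((ContinuousMap.const Conf (0 : ℝ)) a) := by
    intro a
    apply Circle.ext
    show rq g 0 a / ‖rq g 0 a‖ = _
    simp [rq, sd]
  let L := Circle.isCoveringMap_exp.liftHomotopy Hm (ContinuousMap.const Conf (0 : ℝ)) H0
  have hL : ∀ t a, Circle.exp (L (t, a)) = rcc (t, a) := fun t a =>
    congrFun (Circle.isCoveringMap_exp.liftHomotopy_lifts Hm _ H0) (t, a)
  refine ⟨⟨g, ⟨fun x => L (1, x), L.continuous.comp (by fun_prop)⟩, ?_⟩, rfl⟩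
  intro x
  have h1 := congrArg (fun z : Circle => (z : ℂ)) (hL 1 x)
  simp only [Circle.coe_exp] at h1
  have h2 : rq g ((1 : I) : ℝ) x = (g x.1.2 - g x.1.1) / (x.1.2 - x.1.1) := by
    have hx := sub_ne x
    unfold rq sd
    simp only [Set.Icc.coe_one, Complex.ofReal_one, div_one, one_mul]
    field_simp
    ring
  have h3 : ((rcc (1, x) : Circle) : ℂ) = rq g ((1 : I) : ℝ) x / ‖rq g ((1 : I) : ℝ) x‖ := rfl
  rw [h3, h2] at h1
  show _ = _ * Complex.exp (((L (1, x) : ℝ) : ℂ) * Complex.I)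
  rw [h1]
  have h4 : ((‖(g x.1.2 - g x.1.1) / (x.1.2 - x.1.1)‖ : ℝ) : ℂ) ≠ 0 := by
    have : ‖(g x.1.2 - g x.1.1) / (x.1.2 - x.1.1)‖ ≠ 0 :=
      norm_ne_zero_iff.mpr (div_ne_zero (sub_ne' g x) (sub_ne x))
    exact_mod_cast this
  rw [mul_div_cancel₀ _ h4]

/-- approximable homeomorphisms have lifts -/
theorem exists_lift_appr (f : ℂ ≃ₜ ℂ) (hf : Appr f) : ∃ F : PlaneLift, F.homeo = f := by
  have hfs := f.symm.continuous
  obtain ⟨g, hg, hge⟩ := hf.graph {p | ‖f.symm p.2 - p.1‖ < 1}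
    (isOpen_lt (by fun_prop) continuous_const) (Filter.Eventually.of_forall fun z => by
      show ‖f.symm (f z) - z‖ < 1
      rw [f.symm_apply_apply, sub_self, norm_zero]
      exact one_pos)
  obtain ⟨F, _, hFg⟩ := exists_alpha g hg
  set u : ℂ ≃ₜ ℂ := F.homeo⁻¹ * f with hu
  have hbd : ∀ᶠ z in cocompact ℂ, ‖u z - z‖ < 1 := by
    filter_upwards [(tendsto_homeo u).eventually (hge.and hFg)] with z hz
    obtain ⟨h1, h2⟩ := hz
    have h3 : F.homeo (u z) = f z := F.homeo.apply_symm_apply (f z)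
    have h4 : ‖f.symm (g (u z)) - u z‖ < 1 := h1
    rw [← h2, h3, f.symm_apply_apply] at h4
    rwa [norm_sub_rev] at h4
  obtain ⟨r, hr, hr2⟩ := ev_iff hbd
  have huc := u.continuous
  obtain ⟨C, hC⟩ := (isCompact_closedBall (0 : ℂ) r).exists_bound_of_continuousOn
    (f := fun z => u z - z) (by fun_prop)
  obtain ⟨U, hU⟩ := exists_lift_bdd u (max C 1) (by
    intro z
    by_cases hz : r < ‖z‖
    · exact (hr2 z hz).le.trans (le_max_right _ _)
    · refine (hC z ?_).trans (le_max_left _ _)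
      rw [mem_closedBall_zero_iff]
      exact not_lt.1 hz)
  refine ⟨F * U, ?_⟩
  rw [mul_homeo, hU, hu]
  group

end Pool.Agent.Q175.MW
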