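import Pool.Agent.Helper11.PlaneEuler.Lift

/-! Powers of the surface relator as products of few commutators -/

set_option autoImplicit false

open scoped commutatorElement

namespace Pool.Agent.Q175.MW

open Pool.Agent.Helper11.PlaneEuler

/-- product of commutators -/
def cl {G : Type} [Group G] (L : List (G × G)) : G := (L.map fun p => ⁅p.1, p.2⁆).prod

lemma cl_append {G : Type} [Group G] (L M : List (G × G)) : cl (L ++ M) = cl L * cl M := by
  simp [cl]

lemma cl_map {G K : Type} [Group G] [Group K] (φ : G →* K) (L : List (G × G)) :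
    φ (cl L) = cl (L.map fun p => (φ p.1, φ p.2)) := by
  unfold cl
  rw [map_list_prod, List.map_map, List.map_map]
  congr 1
  refine List.map_congr_left fun p _ => ?_
  simp [map_commutatorElement]

lemma cl_inv {G : Type} [Group G] (L : List (G × G)) :
    (cl L)⁻¹ = cl (L.reverse.map Prod.swap) := by
  unfold cl
  rw [List.prod_inv_reverse, List.map_map, List.map_map, ← List.map_reverse]
  congr 1
  refine List.map_congr_left fun p _ => ?_
  simp [commutatorElement_inv]

lemma cl_conj {G : Type} [Group G] (x : G) (L : List (G × G)) :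
    x * cl L * x⁻¹ = cl (L.map fun p => (x * p.1 * x⁻¹, x * p.2 * x⁻¹)) := by
  have h := cl_map (MulAut.conj x).toMonoidHom L
  simpa using h

/-- the word: a product of `N k + 1` commutators which becomes the `N`-th power of the relator
wherever the relator (of genus `k + 1`) is central -/
theorem exists_word (k N : ℕ) : ∃ L : List (FreeGroup (Fin (k + 1) ⊕ Fin (k + 1)) ×
    FreeGroup (Fin (k + 1) ⊕ Fin (k + 1))), L.length = N * k + 1 ∧
    ∀ (G : Type) [Group G] (φ : FreeGroup (Fin (k + 1) ⊕ Fin (k + 1)) →* G) (c : G),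
      (∀ x, c * x = x * c) → φ (surfaceRelator (k + 1)) = c → φ (cl L) = c ^ N := by
  set a : FreeGroup (Fin (k + 1) ⊕ Fin (k + 1)) := FreeGroup.of (Sum.inl 0) with ha
  set b : FreeGroup (Fin (k + 1) ⊕ Fin (k + 1)) := FreeGroup.of (Sum.inr 0) with hb
  set LT : List (FreeGroup (Fin (k + 1) ⊕ Fin (k + 1)) ×
    FreeGroup (Fin (k + 1) ⊕ Fin (k + 1))) :=
    List.ofFn fun i : Fin k => (FreeGroup.of (Sum.inl i.succ), FreeGroup.of (Sum.inr i.succ))
    with hLT
  have hR : surfaceRelator (k + 1) = ⁅a, b⁆ * cl LT := by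
    unfold surfaceRelator cl
    rw [List.ofFn_succ, List.prod_cons, hLT, List.map_ofFn]
    rfl
  have hab : ⁅a, b⁆ = surfaceRelator (k + 1) * (cl LT)⁻¹ := by rw [hR]; group
  have key : ∀ j : ℕ, ∃ M : List (FreeGroup (Fin (k + 1) ⊕ Fin (k + 1)) ×
      FreeGroup (Fin (k + 1) ⊕ Fin (k + 1))), M.length = j * k ∧
      ∀ (G : Type) [Group G] (φ : FreeGroup (Fin (k + 1) ⊕ Fin (k + 1)) →* G) (c : G),
      (∀ x, c * x = x * c) → φ (surfaceRelator (k + 1)) = c →
      φ ⁅a ^ j, b⁆ = c ^ j * φ (cl M) := by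
    intro j
    induction j with
    | zero => exact ⟨[], by simp, fun G _ φ c _ _ => by simp [cl]⟩
    | succ j ih =>
      obtain ⟨M, hM, h⟩ := ih
      refine ⟨(M.map fun p => (a * p.1 * a⁻¹, a * p.2 * a⁻¹)) ++ LT.reverse.map Prod.swap, ?_, ?_⟩
      · rw [List.length_append, List.length_map, List.length_map, List.length_reverse, hM, hLT,
          List.length_ofFn]
        ring
      · intro G _ φ c hc hφ
        have h1 := h G φ c hc hφ
        have e1 : ⁅a ^ (j + 1), b⁆ = a * ⁅a ^ j, b⁆ * a⁻¹ * ⁅a, b⁆ := by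
          rw [commutatorElement_def, commutatorElement_def, commutatorElement_def]
          group
        have hc' : ∀ (m : ℕ) (x : G), c ^ m * x = x * c ^ m := fun m x =>
          ((show Commute c x from hc x).pow_left m).eq
        rw [e1, cl_append, ← cl_conj, ← cl_inv, hab]
        simp only [map_mul, map_inv]
        rw [h1, hφ]
        calc φ a * (c ^ j * φ (cl M)) * (φ a)⁻¹ * (c * (φ (cl LT))⁻¹)
            = (φ a * c ^ j) * φ (cl M) * (φ a)⁻¹ * c * (φ (cl LT))⁻¹ := by
              simp only [mul_assoc]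
          _ = (c ^ j * φ a) * φ (cl M) * (φ a)⁻¹ * c * (φ (cl LT))⁻¹ := by rw [hc' j (φ a)]
          _ = c ^ j * ((φ a * φ (cl M) * (φ a)⁻¹) * c) * (φ (cl LT))⁻¹ := by
              simp only [mul_assoc]
          _ = c ^ j * (c * (φ a * φ (cl M) * (φ a)⁻¹)) * (φ (cl LT))⁻¹ := by
              rw [← hc (φ a * φ (cl M) * (φ a)⁻¹)]
          _ = c ^ (j + 1) * (φ a * φ (cl M) * (φ a)⁻¹ * (φ (cl LT))⁻¹) := by
              rw [pow_succ]; simp only [mul_assoc]
  obtain ⟨M, hM, h⟩ := key N
  refine ⟨[(a ^ N, b)] ++ M.reverse.map Prod.swap, ?_, ?_⟩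
  · rw [List.length_append, List.length_map, List.length_reverse, hM]
    simp [add_comm]
  · intro G _ φ c hc hφ
    have h1 := h G φ c hc hφ
    rw [cl_append, ← cl_inv, map_mul, map_inv]
    have e1 : cl [(a ^ N, b)] = ⁅a ^ N, b⁆ := by simp [cl]
    rw [e1, h1]
    group

end Pool.Agent.Q175.MW
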