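import Pool.Agent.Q175.MW.Ang
import Pool.Agent.Q175.MW.Word

/-! Words in homeomorphisms depend continuously, near infinity and in the graph topology, on
their letters -/

set_option autoImplicit false

open Filter Topology

namespace Pool.Agent.Q175.MW

open Pool.Agent.Helper11.PlaneEuler

/-- neighbourhoods of the graph of a composite -/
lemma comp_nbhd (f g : ℂ ≃ₜ ℂ) (O : Set (ℂ × ℂ)) (hO : IsOpen O)
    (h : ∀ᶠ x in cocompact ℂ, (x, g (f x)) ∈ O) :
    ∃ U V : Set (ℂ × ℂ), IsOpen U ∧ IsOpen V ∧ (∀ᶠ x in cocompact ℂ, (x, f x) ∈ U) ∧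
      (∀ᶠ y in cocompact ℂ, (y, g y) ∈ V) ∧
      ∀ x y z : ℂ, (x, y) ∈ U → (y, z) ∈ V → (x, z) ∈ O := by
  by_cases hne : (Oᶜ).Nonempty
  · have hpos : ∀ p ∈ O, 0 < Metric.infDist p Oᶜ := by
      intro p hp
      rw [← hO.isClosed_compl.notMem_iff_infDist_pos hne]
      exact fun hc => hc hp
    have hcont : Continuous fun p : ℂ × ℂ => Metric.infDist p Oᶜ :=
      Metric.continuous_infDist_pt _
    have hf := f.continuous
    have hfs := f.symm.continuous
    have hg := g.continuous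
    refine ⟨{p | ‖g p.2 - g (f p.1)‖ + Metric.infDist (f.symm p.2, g p.2) Oᶜ / 2 <
        Metric.infDist (p.1, g (f p.1)) Oᶜ},
      {p | ‖p.2 - g p.1‖ < Metric.infDist (f.symm p.1, g p.1) Oᶜ / 2}, ?_, ?_, ?_, ?_, ?_⟩
    · refine isOpen_lt ?_ ?_
      · have h1 : Continuous fun p : ℂ × ℂ => Metric.infDist (f.symm p.2, g p.2) Oᶜ :=
          hcont.comp (by fun_prop)
        fun_prop
      · exact hcont.comp (by fun_prop)
    · refine isOpen_lt (by fun_prop) ?_
      have h1 : Continuous fun p : ℂ × ℂ => Metric.infDist (f.symm p.1, g p.1) Oᶜ :=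
        hcont.comp (by fun_prop)
      fun_prop
    · filter_upwards [h] with x hx
      have := hpos _ hx
      show ‖g (f x) - g (f x)‖ + Metric.infDist (f.symm (f x), g (f x)) Oᶜ / 2 <
        Metric.infDist (x, g (f x)) Oᶜ
      rw [sub_self, norm_zero, f.symm_apply_apply]
      linarith
    · filter_upwards [(tendsto_homeo f.symm).eventually h] with y hy
      rw [f.apply_symm_apply] at hy
      have := hpos _ hy
      show ‖g y - g y‖ < Metric.infDist (f.symm y, g y) Oᶜ / 2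
      rw [sub_self, norm_zero]
      linarith
    · intro x y z h1 h2
      by_contra hc
      have h3 := Metric.infDist_le_dist_of_mem (x := (x, g (f x))) (show (x, z) ∈ Oᶜ from hc)
      have h4 : dist (x, g (f x)) (x, z) = ‖z - g (f x)‖ := by
        rw [Prod.dist_eq, dist_self, dist_comm, dist_eq_norm]
        exact max_eq_right (norm_nonneg _)
      have h5 : ‖g y - g (f x)‖ + Metric.infDist (f.symm y, g y) Oᶜ / 2 <
        Metric.infDist (x, g (f x)) Oᶜ := h1
      have h6 : ‖z - g y‖ < Metric.infDist (f.symm y, g y) Oᶜ / 2 := h2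
      have h7 : ‖z - g (f x)‖ ≤ ‖z - g y‖ + ‖g y - g (f x)‖ := by
        have : z - g (f x) = (z - g y) + (g y - g (f x)) := by ring
        rw [this]
        exact norm_add_le _ _
      rw [h4] at h3
      linarith
  · have hO' : O = Set.univ := by
      rw [Set.not_nonempty_iff_eq_empty, Set.compl_empty_iff] at hne
      exact hne
    exact ⟨Set.univ, Set.univ, isOpen_univ, isOpen_univ, by simp, by simp,
      fun x y z _ _ => by rw [hO']; trivial⟩

lemma ev_ne_zero : ∀ᶠ w in cocompact ℂ, w ≠ (0 : ℂ) := by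
  have e1 : ∀ᶠ z in cocompact ℂ, (0 : ℝ) < ‖z‖ :=
    tendsto_norm_cocompact_atTop.eventually_gt_atTop _
  filter_upwards [e1] with z hz h
  rw [h, norm_zero] at hz
  exact lt_irrefl _ hz

lemma open_an (F : PlaneLift) (f : ℂ ≃ₜ ℂ) (δ : ℝ) (hδ : 0 < δ) : ∃ O2 : Set (ℂ × ℂ),
    IsOpen O2 ∧ (∀ᶠ w in cocompact ℂ, (w, f w) ∈ O2) ∧
      ∀ p ∈ O2, |an F 0 p.2 - an F 0 (f p.1)| < δ := by
  have hf := f.continuous
  have ho : IsOpen {p : ℂ × ℂ | p.2 ≠ 0 ∧ f p.1 ≠ 0} :=
    (isOpen_ne_fun continuous_snd continuous_const).inter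
      (isOpen_ne_fun (by fun_prop) continuous_const)
  have hc : ContinuousOn (fun p : ℂ × ℂ => an F 0 p.2 - an F 0 (f p.1))
      {p : ℂ × ℂ | p.2 ≠ 0 ∧ f p.1 ≠ 0} := by
    intro p hp
    have h1 : ContinuousAt (fun p : ℂ × ℂ => an F 0 p.2) p :=
      ContinuousAt.comp (g := fun w => an F 0 w) (f := fun p : ℂ × ℂ => p.2)
        (continuousAt_an_right F hp.1.symm) (by fun_prop)
    have h2 : ContinuousAt (fun p : ℂ × ℂ => an F 0 (f p.1)) p :=
      ContinuousAt.comp (g := fun w => an F 0 w) (f := fun p : ℂ × ℂ => f p.1)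
        (continuousAt_an_right F hp.2.symm) (by fun_prop)
    exact (h1.sub h2).continuousWithinAt
  refine ⟨_, hc.isOpen_inter_preimage ho (isOpen_Ioo (a := -δ) (b := δ)), ?_, ?_⟩
  · filter_upwards [(tendsto_homeo f).eventually ev_ne_zero] with w hw
    refine ⟨⟨hw, hw⟩, ?_⟩
    show an F 0 (f w) - an F 0 (f w) ∈ Set.Ioo (-δ) δ
    rw [sub_self]
    exact ⟨by linarith, hδ⟩
  · intro p hp
    exact abs_lt.2 hp.2

/-- closeness near infinity -/
def CloseL (O : Set (ℂ × ℂ)) (δ : ℝ) (F G : PlaneLift) : Prop :=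
  (∀ᶠ z in cocompact ℂ, (z, G.homeo z) ∈ O) ∧ ∀ᶠ z in cocompact ℂ, |an G 0 z - an F 0 z| < δ

/-- the value of a word depends continuously on the letters -/
def Cl {ι : Type} (A : ι → PlaneLift) (x : FreeGroup ι) : Prop :=
  ∀ (O : Set (ℂ × ℂ)) (δ : ℝ), 0 < δ → IsOpen O →
    (∀ᶠ z in cocompact ℂ, (z, (FreeGroup.lift A x).homeo z) ∈ O) →
    ∃ (t : ι → Set (ℂ × ℂ)) (e : ι → ℝ), (∀ i, IsOpen (t i) ∧ 0 < e i ∧
      ∀ᶠ z in cocompact ℂ, (z, (A i).homeo z) ∈ t i) ∧
      ∀ B : ι → PlaneLift, (∀ i, CloseL (t i) (e i) (A i) (B i)) →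
        CloseL O δ (FreeGroup.lift A x) (FreeGroup.lift B x)

lemma ev_abs {f : ℂ → ℝ} (h : Tendsto f (cocompact ℂ) (𝓝 0)) (δ : ℝ) (hδ : 0 < δ) :
    ∀ᶠ z in cocompact ℂ, |f z| < δ := by
  rw [Metric.tendsto_nhds] at h
  filter_upwards [h δ hδ] with z hz
  rwa [Real.dist_eq, sub_zero] at hz

lemma Cl_mul {ι : Type} (A : ι → PlaneLift) (x y : FreeGroup ι) (hx : Cl A x) (hy : Cl A y) :
    Cl A (x * y) := by
  intro O δ hδ hO hev
  have hδ8 : 0 < δ / 8 := by positivity
  obtain ⟨U, V, hU, hV, hUe, hVe, hUV⟩ := comp_nbhd (FreeGroup.lift A y).homeo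
    (FreeGroup.lift A x).homeo O hO (by
      filter_upwards [hev] with z hz
      rw [map_mul] at hz
      exact hz)
  obtain ⟨O2, hO2, hO2e, hO2a⟩ := open_an (FreeGroup.lift A x) (FreeGroup.lift A y).homeo
    (δ / 8) hδ8
  obtain ⟨t1, e1, h1, k1⟩ := hx V (δ / 8) hδ8 hV hVe
  obtain ⟨t2, e2, h2, k2⟩ := hy (U ∩ O2) (δ / 8) hδ8 (hU.inter hO2) (hUe.and hO2e)
  refine ⟨fun i => t1 i ∩ t2 i, fun i => min (e1 i) (e2 i), fun i =>
    ⟨(h1 i).1.inter (h2 i).1, lt_min (h1 i).2.1 (h2 i).2.1, (h1 i).2.2.and (h2 i).2.2⟩, ?_⟩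
  intro B hB
  obtain ⟨c1, c2⟩ := k1 B fun i => ⟨(hB i).1.mono fun z hz => hz.1,
    (hB i).2.mono fun z hz => lt_of_lt_of_le hz (min_le_left _ _)⟩
  obtain ⟨d1, d2⟩ := k2 B fun i => ⟨(hB i).1.mono fun z hz => hz.2,
    (hB i).2.mono fun z hz => lt_of_lt_of_le hz (min_le_right _ _)⟩
  have hyB := tendsto_homeo (FreeGroup.lift B y).homeo
  refine ⟨?_, ?_⟩
  · filter_upwards [d1, hyB.eventually c1] with z hz1 hz2
    rw [map_mul]
    exact hUV _ _ _ hz1.1 hz2
  · have a1 := ev_abs (an_cocycle (FreeGroup.lift A x) (FreeGroup.lift A y)) (δ / 8) hδ8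
    have a2 := ev_abs (an_cocycle (FreeGroup.lift B x) (FreeGroup.lift B y)) (δ / 8) hδ8
    filter_upwards [a1, a2, d1, d2, hyB.eventually c2] with z z1 z2 z3 z4 z5
    have z6 := hO2a _ z3.2
    rw [map_mul, map_mul]
    simp only at z6
    rw [abs_lt] at z1 z2 z4 z5 z6 ⊢
    constructor <;> linarith [z1.1, z1.2, z2.1, z2.2, z4.1, z4.2, z5.1, z5.2, z6.1, z6.2]

lemma Cl_of {ι : Type} (A : ι → PlaneLift) (i : ι) : Cl A (FreeGroup.of i) := by
  classical
  intro O δ hδ hO hev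
  refine ⟨fun j => if j = i then O else Set.univ, fun _ => δ, fun j => ⟨?_, hδ, ?_⟩, ?_⟩
  · by_cases h : j = i
    · simp [h, hO]
    · simp [h]
  · by_cases h : j = i
    · subst h
      simpa using hev
    · simp [h]
  · intro B hB
    have := hB i
    simpa [CloseL] using this

lemma Cl_inv_of {ι : Type} (A : ι → PlaneLift) (i : ι) : Cl A (FreeGroup.of i)⁻¹ := by
  classical
  intro O δ hδ hO hev
  have hδ8 : 0 < δ / 8 := by positivity
  rw [map_inv, FreeGroup.lift_apply_of] at hev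
  obtain ⟨O2, hO2, hO2e, hO2a⟩ := open_an (A i) (A i).homeo⁻¹ (δ / 8) hδ8
  refine ⟨fun j => if j = i then Prod.swap ⁻¹' (O ∩ O2) else Set.univ, fun _ => δ / 8,
    fun j => ⟨?_, hδ8, ?_⟩, ?_⟩
  · by_cases h : j = i
    · simp only [h, if_true]
      exact (hO.inter hO2).preimage continuous_swap
    · simp [h]
  · by_cases h : j = i
    · subst h
      simp only [if_true]
      filter_upwards [(tendsto_homeo (A j).homeo).eventually (hev.and hO2e)] with z hz
      have e : (A j).homeo⁻¹ ((A j).homeo z) = z := (A j).homeo.symm_apply_apply z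
      have e' : (A j)⁻¹.homeo ((A j).homeo z) = z := (A j).homeo.symm_apply_apply z
      rw [e, e'] at hz
      exact hz
    · simp [h]
  · intro B hB
    obtain ⟨b1, b2⟩ := hB i
    simp only [if_true] at b1
    rw [map_inv, map_inv, FreeGroup.lift_apply_of, FreeGroup.lift_apply_of]
    have hBi := tendsto_homeo (B i).homeo⁻¹
    have hgr : ∀ᶠ w in cocompact ℂ, (w, (B i).homeo⁻¹ w) ∈ O ∩ O2 := by
      filter_upwards [hBi.eventually b1] with w hw
      have e : (B i).homeo ((B i).homeo⁻¹ w) = w := (B i).homeo.apply_symm_apply w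
      rw [e] at hw
      exact hw
    refine ⟨hgr.mono fun w hw => hw.1, ?_⟩
    have a1 := ev_abs (an_inv (A i)) (δ / 8) hδ8
    have a2 := ev_abs (an_inv (B i)) (δ / 8) hδ8
    filter_upwards [a1, a2, hgr, hBi.eventually b2] with z z1 z2 z3 z5
    have z6 := hO2a _ z3.2
    simp only at z6
    rw [abs_lt] at z1 z2 z5 z6 ⊢
    constructor <;> linarith [z1.1, z1.2, z2.1, z2.2, z5.1, z5.2, z6.1, z6.2]

lemma Cl_all {ι : Type} (A : ι → PlaneLift) (x : FreeGroup ι) : Cl A x := by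
  induction x using FreeGroup.induction_on with
  | C1 =>
    intro O δ hδ hO hev
    refine ⟨fun _ => Set.univ, fun _ => 1, fun _ => ⟨isOpen_univ, one_pos, by simp⟩, ?_⟩
    intro B _
    rw [map_one, map_one]
    rw [map_one] at hev
    exact ⟨hev, Filter.Eventually.of_forall fun z => by rw [sub_self, abs_zero]; exact hδ⟩
  | of i => exact Cl_of A i
  | inv_of i _ => exact Cl_inv_of A i
  | mul x y hx hy => exact Cl_mul A x y hx hy

end Pool.Agent.Q175.MW
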