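import Pool.Agent.Q175.MW.Bound
import Pool.Agent.Q175.MW.Near

/-! The Milnor-Wood inequality for limits of area preserving diffeomorphisms -/

set_option autoImplicit false

open Filter Topology
open scoped commutatorElement

namespace Pool.Agent.Q175.MW

open Pool.Agent Pool.Agent.W710.DP Pool.Agent.Helper11.PlaneEuler

/-- forgetting the angle -/
def toPerm : PlaneLift →* Equiv.Perm ℂ where
  toFun F := F.homeo.toEquiv
  map_one' := rfl
  map_mul' _ _ := rfl

lemma toPerm_apply (F : PlaneLift) (z : ℂ) : toPerm F z = F.homeo z := rfl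

/-- lifts of area preserving diffeomorphisms which are trivial near the origin -/
def G0 : Subgroup PlaneLift where
  carrier := {F | AP (toPerm F) ∧ ∃ r : ℝ, 0 < r ∧ (∀ z : ℂ, ‖z‖ < r → F.homeo z = z) ∧
    ∀ c z : ℂ, c ≠ z → ‖c‖ < r → ‖z‖ < r → an F c z = 0}
  one_mem' := ⟨AP_one, 1, one_pos, fun _ _ => rfl, fun c z _ _ _ => an_one c z⟩
  mul_mem' := by
    rintro F G ⟨h1, r, hr, h2, h3⟩ ⟨k1, s, hs, k2, k3⟩
    refine ⟨by rw [map_mul]; exact AP_mul h1 k1, min r s, lt_min hr hs, ?_, ?_⟩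
    · intro z hz
      show F.homeo (G.homeo z) = z
      rw [k2 z (lt_of_lt_of_le hz (min_le_right _ _)), h2 z (lt_of_lt_of_le hz (min_le_left _ _))]
    · intro c z hcz hc hz
      rw [an_mul F G hcz, k2 z (lt_of_lt_of_le hz (min_le_right _ _)),
        k2 c (lt_of_lt_of_le hc (min_le_right _ _)),
        h3 c z hcz (lt_of_lt_of_le hc (min_le_left _ _)) (lt_of_lt_of_le hz (min_le_left _ _)),
        k3 c z hcz (lt_of_lt_of_le hc (min_le_right _ _))
          (lt_of_lt_of_le hz (min_le_right _ _)), add_zero]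
  inv_mem' := by
    rintro F ⟨h1, r, hr, h2, h3⟩
    have h4 : ∀ z : ℂ, ‖z‖ < r → (F⁻¹).homeo z = z := by
      intro z hz
      have h5 := h2 z hz
      have h6 : F.homeo⁻¹ (F.homeo z) = z := F.homeo.symm_apply_apply z
      rw [h5] at h6
      exact h6
    refine ⟨by rw [map_inv]; exact AP_inv h1, r, hr, h4, ?_⟩
    intro c z hcz hc hz
    have h5 := an_mul F F⁻¹ hcz
    rw [mul_inv_cancel, an_one, h4 c hc, h4 z hz, h3 c z hcz hc hz, zero_add] at h5
    exact h5.symm

lemma ev_iff {P : ℂ → Prop} (h : ∀ᶠ z in cocompact ℂ, P z) : ∃ r : ℝ, 0 < r ∧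
    ∀ z : ℂ, r < ‖z‖ → P z := by
  rw [← Metric.cobounded_eq_cocompact,
    (Metric.hasBasis_cobounded_compl_closedBall (0 : ℂ)).eventually_iff] at h
  obtain ⟨r, _, hr⟩ := h
  refine ⟨max r 1, lt_max_of_lt_right one_pos, fun z hz => hr ?_⟩
  simp only [Set.mem_compl_iff, Metric.mem_closedBall, dist_zero_right, not_le]
  exact lt_of_le_of_lt (le_max_left _ _) hz

lemma prod_cmm (L : List (PlaneLift × PlaneLift)) :
    ((L.map fun p => (toPerm p.1, toPerm p.2)).map cmm).prod = toPerm (cl L) := by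
  rw [cl_map]
  unfold cl
  rw [List.map_map, List.map_map]
  congr 1

theorem G0_bound (L : List (PlaneLift × PlaneLift)) (hL : ∀ p ∈ L, p.1 ∈ G0 ∧ p.2 ∈ G0)
    (κ : ℝ) (h : ∀ᶠ z in cocompact ℂ, 2 * Real.pi * κ ≤ an (cl L) 0 z) :
    κ ≤ 2 * L.length := by
  have hpi := Real.pi_pos
  have hmem : cl L ∈ G0 := by
    unfold cl
    refine Subgroup.list_prod_mem _ fun x hx => ?_
    obtain ⟨p, hp, rfl⟩ := List.mem_map.1 hx
    obtain ⟨h1, h2⟩ := hL p hp
    rw [commutatorElement_def]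
    exact G0.mul_mem (G0.mul_mem (G0.mul_mem h1 h2) (G0.inv_mem h1)) (G0.inv_mem h2)
  obtain ⟨_, r, hr, h2, h3⟩ := hmem
  obtain ⟨R, hR0, hR⟩ := ev_iff h
  have hlen : ((L.map fun p => (toPerm p.1, toPerm p.2)).length : ℝ) = L.length := by simp
  rw [← hlen]
  have h0 : (cl L).homeo 0 = 0 := h2 0 (by simpa using hr)
  refine turn_le _ ?_ (fun z => an (cl L) 0 z / (2 * Real.pi)) ?_ ?_ ?_ κ
    (Real.pi * (R + 1) ^ 2) (by positivity) ?_
  · intro q hq
    obtain ⟨p, hp, rfl⟩ := List.mem_map.1 hq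
    obtain ⟨⟨a1, s1, hs1, a2, _⟩, ⟨b1, t1, ht1, b2, _⟩⟩ := hL p hp
    exact ⟨a1, ⟨s1, hs1, a2⟩, b1, ⟨t1, ht1, b2⟩⟩
  · intro z hz
    have hz' : (0 : ℂ) ≠ z := fun e => hz e.symm
    exact ((continuousAt_an_right (cl L) hz').div_const _).continuousWithinAt
  · intro z hz
    have hz' : (0 : ℂ) ≠ z := fun e => hz e.symm
    have h4 := an_spec (cl L) hz'
    rw [h0, sub_zero, sub_zero] at h4
    rw [prod_cmm, toPerm_apply]
    have e1 : 2 * Real.pi * (an (cl L) 0 z / (2 * Real.pi)) = an (cl L) 0 z := by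
      field_simp
    rw [e1]
    exact h4
  · refine ⟨r, hr, fun z hz hzr => ?_⟩
    rw [h3 0 z (fun e => hz e.symm) (by simpa using hr) hzr, zero_div]
  · intro z hz
    have h5 : R < ‖z‖ := by
      have h6 : (R + 1) ^ 2 ≤ ‖z‖ ^ 2 := by
        unfold ar at hz
        exact le_of_mul_le_mul_left hz hpi
      have h7 : R + 1 ≤ ‖z‖ :=
        (pow_le_pow_iff_left₀ (by positivity) (norm_nonneg z) two_ne_zero).1 h6
      linarith
    have h6 := hR z h5
    rw [le_div_iff₀ (by positivity)]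
    linarith

/-- every area preserving diffeomorphism coincides near infinity with one in `G0` -/
theorem exists_alpha (f : Equiv.Perm ℂ) (hf : AP f) : ∃ F ∈ G0,
    ∀ᶠ z in cocompact ℂ, F.homeo z = f z := by
  obtain ⟨n, hn1, ⟨R, hR⟩, r, hr, hn2⟩ := h_germ f hf
  have hα : AP (n⁻¹ * f) := AP_mul (AP_inv hn1) hf
  let α : ℂ ≃ₜ ℂ :=
    { toEquiv := n⁻¹ * f
      continuous_toFun := hα.continuous
      continuous_invFun := hα.continuous_symm }
  have hid : ∀ z : ℂ, ‖z‖ < r → α z = z := by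
    intro z hz
    show n⁻¹ (f z) = z
    rw [← hn2 z hz]
    exact n.symm_apply_apply z
  have hs : HasStrictFDerivAt (α : ℂ → ℂ) (ContinuousLinearMap.id ℝ ℂ) 0 := by
    refine (hasStrictFDerivAt_id (0 : ℂ)).congr_of_eventuallyEq ?_
    filter_upwards [Metric.ball_mem_nhds (0 : ℂ) hr] with z hz
    rw [mem_ball_zero_iff] at hz
    exact (hid z hz).symm
  obtain ⟨F, hF, hFa⟩ := exists_lift α 0 hs
  refine ⟨F, ⟨?_, r, hr, ?_, ?_⟩, ?_⟩
  · show AP F.homeo.toEquiv
    rw [hF]
    exact hα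
  · intro z hz
    rw [hF]
    exact hid z hz
  · intro c z hcz hc hz
    rw [an_eq F hcz]
    refine hFa ⟨(c, z), hcz⟩ (fun _ => 0) continuousOn_const rfl ?_
    intro t ht
    have e1 : rr α 0 t ⟨(c, z), hcz⟩ = 1 := by
      unfold rr
      split_ifs with h0
      · rfl
      · have hsc : ∀ y : ℂ, ‖y‖ < r → α ((0 : ℂ) + t * (y - 0)) = t * y := by
          intro y hy
          rw [sub_zero, zero_add]
          apply hid
          rw [norm_mul, Complex.norm_real, Real.norm_of_nonneg ht.1]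
          have := norm_nonneg y
          nlinarith [ht.2]
        simp only
        rw [hsc c hc, hsc z hz, ← mul_sub]
        have ht' : (t : ℂ) ≠ 0 := by exact_mod_cast h0
        exact div_self (mul_ne_zero ht' (sub_ne_zero.2 fun e => hcz e.symm))
    rw [e1]
    simp
  · have hfh : Tendsto (⇑f) (cocompact ℂ) (cocompact ℂ) := by
      let f' : ℂ ≃ₜ ℂ :=
        { toEquiv := f
          continuous_toFun := hf.continuous
          continuous_invFun := hf.continuous_symm }
      exact tendsto_homeo f'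
    have e1 : ∀ᶠ w in cocompact ℂ, R < ‖w‖ := tendsto_norm_cocompact_atTop.eventually_gt_atTop _
    filter_upwards [hfh.eventually e1] with z hz
    rw [hF]
    show n⁻¹ (f z) = f z
    rw [Equiv.Perm.inv_eq_iff_eq, hR _ hz]

lemma preconnected_out (r : ℝ) (hr : 0 ≤ r) : IsPreconnected {z : ℂ | r < ‖z‖} := by
  have h1 : IsPreconnected (Metric.sphere (0 : ℂ) 1) :=
    isPreconnected_sphere (by rw [Complex.rank_real_complex]; exact Cardinal.one_lt_two) 0 1
  have h2 := (isPreconnected_Ioi (a := r)).prod h1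
  have h3 := h2.image (fun p : ℝ × ℂ => (p.1 : ℂ) * p.2) (by fun_prop)
  have h4 : (fun p : ℝ × ℂ => (p.1 : ℂ) * p.2) '' (Set.Ioi r ×ˢ Metric.sphere (0 : ℂ) 1) =
      {z : ℂ | r < ‖z‖} := by
    ext z
    simp only [Set.mem_image, Set.mem_prod, Set.mem_Ioi, mem_sphere_zero_iff_norm, Prod.exists]
    constructor
    · rintro ⟨t, u, ⟨ht, hu⟩, rfl⟩
      show r < ‖(t : ℂ) * u‖
      rw [norm_mul, hu, mul_one, Complex.norm_real, Real.norm_of_nonneg (hr.trans ht.le)]
      exact ht
    · intro hz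
      have hz' : r < ‖z‖ := hz
      have h0 : ‖z‖ ≠ 0 := (lt_of_le_of_lt hr hz').ne'
      refine ⟨‖z‖, z / ‖z‖, ⟨hz', ?_⟩, ?_⟩
      · rw [norm_div, Complex.norm_real, norm_norm, div_self h0]
      · have : (‖z‖ : ℂ) ≠ 0 := by exact_mod_cast h0
        field_simp
  rw [h4] at h3
  exact h3

/-- a lift of a homeomorphism close to `F` near infinity can be chosen with an angle close to that
of `F` -/
lemma norm_lift (F G : PlaneLift) (h : ∀ᶠ z in cocompact ℂ, ‖G.homeo z - F.homeo z‖ < 1) :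
    ∃ m : ℤ, Tendsto (fun z => an (central m * G) 0 z - an F 0 z) (cocompact ℂ) (𝓝 0) := by
  set ρ : ℂ → ℂ := fun z => (G.homeo z - G.homeo 0) / (F.homeo z - F.homeo 0) with hρ
  have hρ1 : Tendsto ρ (cocompact ℂ) (𝓝 1) := by
    rw [Metric.tendsto_nhds]
    intro ε hε
    have e1 : ∀ᶠ z in cocompact ℂ,
        (1 + ‖G.homeo 0 - F.homeo 0‖) / ε + 1 + ‖F.homeo 0‖ < ‖F.homeo z‖ :=
      (tendsto_norm_cocompact_atTop.comp (tendsto_homeo F.homeo)).eventually_gt_atTop _
    filter_upwards [e1, h] with z h1 h2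
    have h3 := norm_sub_norm_le (F.homeo z) (F.homeo 0)
    have h4 : 0 ≤ (1 + ‖G.homeo 0 - F.homeo 0‖) / ε := by positivity
    have h5 : 0 < ‖F.homeo z - F.homeo 0‖ := by linarith
    have h6 : F.homeo z - F.homeo 0 ≠ 0 := norm_pos_iff.1 h5
    rw [dist_eq_norm, hρ]
    simp only
    rw [div_sub_one h6, norm_div, div_lt_iff₀ h5]
    have h7 : ‖G.homeo z - G.homeo 0 - (F.homeo z - F.homeo 0)‖ ≤
        1 + ‖G.homeo 0 - F.homeo 0‖ := by
      have : G.homeo z - G.homeo 0 - (F.homeo z - F.homeo 0) =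
        (G.homeo z - F.homeo z) - (G.homeo 0 - F.homeo 0) := by ring
      rw [this]
      exact (norm_sub_le _ _).trans (by linarith)
    have h8 : (1 + ‖G.homeo 0 - F.homeo 0‖) / ε < ‖F.homeo z - F.homeo 0‖ := by linarith
    rw [div_lt_iff₀ hε] at h8
    linarith
  have hev : ∀ᶠ z in cocompact ℂ, z ≠ 0 ∧ ‖ρ z - 1‖ < 1 / 2 := by
    rw [Metric.tendsto_nhds] at hρ1
    filter_upwards [ev_ne_zero, hρ1 (1 / 2) (by norm_num)] with z h1 h2
    exact ⟨h1, by rwa [dist_eq_norm] at h2⟩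
  obtain ⟨r, hr, hr2⟩ := ev_iff hev
  have hslit : ∀ z : ℂ, r < ‖z‖ → ρ z ∈ Complex.slitPlane := by
    intro z hz
    left
    have h3 : |(ρ z - 1).re| ≤ ‖ρ z - 1‖ := Complex.abs_re_le_norm _
    rw [Complex.sub_re, Complex.one_re] at h3
    have h4 := (abs_lt.mp (h3.trans_lt (hr2 z hz).2)).1
    linarith
  set f : ℂ → ℝ := fun z => an G 0 z - an F 0 z - Complex.arg (ρ z) with hf
  have hfc : ContinuousOn f {z | r < ‖z‖} := by
    intro z hz
    have hz0 : (0 : ℂ) ≠ z := fun e => (hr2 z hz).1 e.symm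
    have h6 : F.homeo z - F.homeo 0 ≠ 0 := sub_ne_zero.2 fun e => hz0 (F.homeo.injective e).symm
    have h7 : ContinuousAt ρ z := by
      have hG := G.homeo.continuous
      have hF := F.homeo.continuous
      exact ContinuousAt.div (by fun_prop) (by fun_prop) h6
    have h8 : ContinuousAt (fun z => Complex.arg (ρ z)) z :=
      ContinuousAt.comp (g := Complex.arg) (Complex.continuousAt_arg (hslit z hz)) h7
    exact (((continuousAt_an_right G hz0).sub (continuousAt_an_right F hz0)).sub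
      h8).continuousWithinAt
  have hfe : ∀ z : ℂ, r < ‖z‖ → Complex.exp ((f z : ℂ) * Complex.I) = 1 := by
    intro z hz
    have hz0 : (0 : ℂ) ≠ z := fun e => (hr2 z hz).1 e.symm
    have s1 := an_spec G hz0
    have s2 := an_spec F hz0
    set W1 := (G.homeo z - G.homeo 0) / (z - 0) with hW1
    set W2 := (F.homeo z - F.homeo 0) / (z - 0) with hW2
    have n1 : G.homeo z - G.homeo 0 ≠ 0 := sub_ne_zero.2 fun e => hz0 (G.homeo.injective e).symm
    have n2 : F.homeo z - F.homeo 0 ≠ 0 := sub_ne_zero.2 fun e => hz0 (F.homeo.injective e).symm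
    have n3 : z - 0 ≠ 0 := sub_ne_zero.2 fun e => hz0 e.symm
    have m1 : 0 < ‖W1‖ := norm_pos_iff.2 (div_ne_zero n1 n3)
    have m2 : 0 < ‖W2‖ := norm_pos_iff.2 (div_ne_zero n2 n3)
    have hρW : ρ z = W1 / W2 := by
      rw [hρ, hW1, hW2]
      field_simp
    have hW : ρ z = ((‖W1‖ / ‖W2‖ : ℝ) : ℂ) *
        Complex.exp (((an G 0 z - an F 0 z : ℝ) : ℂ) * Complex.I) := by
      have h3 : ((an G 0 z - an F 0 z : ℝ) : ℂ) * Complex.I =
          (an G 0 z : ℂ) * Complex.I - (an F 0 z : ℂ) * Complex.I := by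
        push_cast; ring
      rw [hρW, h3, Complex.exp_sub]
      nth_rewrite 1 [s1]
      nth_rewrite 1 [s2]
      push_cast
      rw [mul_div_mul_comm]
    have hρ0 : 0 < ‖ρ z‖ := by
      rw [hρW, norm_div]
      positivity
    have h5 := exp_eq_of (div_pos m1 m2) hρ0
      (hW.symm.trans (Complex.norm_mul_exp_arg_mul_I (ρ z)).symm)
    have h6 : ((f z : ℝ) : ℂ) * Complex.I = ((an G 0 z - an F 0 z : ℝ) : ℂ) * Complex.I -
        ((Complex.arg (ρ z) : ℝ) : ℂ) * Complex.I := by
      rw [hf]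
      push_cast
      ring
    rw [h6, Complex.exp_sub, h5, div_self (Complex.exp_ne_zero _)]
  have hconst : ∀ z z' : ℂ, r < ‖z‖ → r < ‖z'‖ → f z = f z' := by
    intro z z' hz hz'
    have : PreconnectedSpace {z : ℂ | r < ‖z‖} :=
      Subtype.preconnectedSpace (preconnected_out r hr.le)
    exact Circle.isCoveringMap_exp.const_of_comp (g := fun t : {z : ℂ | r < ‖z‖} => f t)
      (continuousOn_iff_continuous_domRestrict.1 hfc)
      (fun a b => by rw [circle_one_of (hfe _ a.2), circle_one_of (hfe _ b.2)]) ⟨z, hz⟩ ⟨z', hz'⟩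
  set z1 : ℂ := ((r + 1 : ℝ) : ℂ) with hz1
  have hz1r : r < ‖z1‖ := by
    rw [hz1, Complex.norm_real, Real.norm_of_nonneg (by linarith)]
    linarith
  have hk := circle_one_of (hfe z1 hz1r)
  rw [Circle.exp_eq_one] at hk
  obtain ⟨k, hk⟩ := hk
  refine ⟨-k, ?_⟩
  have harg : Tendsto (fun z => Complex.arg (ρ z)) (cocompact ℂ) (𝓝 0) := by
    have h1 : Tendsto Complex.arg (𝓝 1) (𝓝 0) := by
      have := (Complex.continuousAt_arg (x := 1) (by simp)).tendsto
      rwa [Complex.arg_one] at this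
    exact h1.comp hρ1
  refine harg.congr' ?_
  have e1 : ∀ᶠ z in cocompact ℂ, r < ‖z‖ := tendsto_norm_cocompact_atTop.eventually_gt_atTop _
  filter_upwards [e1] with z hz
  have hz0 : (0 : ℂ) ≠ z := fun e => (hr2 z hz).1 e.symm
  rw [an_central_mul _ _ hz0]
  have h2 := hconst z z1 hz hz1r
  rw [hk] at h2
  rw [hf] at h2
  simp only at h2
  push_cast
  linarith

lemma an_central_pow (m : ℤ) (N : ℕ) {z : ℂ} (h : (0 : ℂ) ≠ z) :
    an (central m ^ N) 0 z = 2 * Real.pi * (m * N) := by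
  induction N with
  | zero => rw [pow_zero, an_one]; simp
  | succ N ih =>
    rw [pow_succ', an_central_mul _ _ h, ih]
    push_cast
    ring

lemma an_central_pow_inv (m : ℤ) (N : ℕ) {z : ℂ} (h : (0 : ℂ) ≠ z) :
    an (central m ^ N)⁻¹ 0 z = -(2 * Real.pi * (m * N)) := by
  have hh : ∀ N : ℕ, (central m ^ N).homeo = 1 := by
    intro N
    induction N with
    | zero => rfl
    | succ N ih =>
      rw [pow_succ', mul_homeo, ih]
      rfl
  have h1 := an_mul (central m ^ N) (central m ^ N)⁻¹ h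
  have h2 : ((central m ^ N)⁻¹).homeo = 1 := by
    rw [inv_homeo, hh N, inv_one]
  rw [mul_inv_cancel, an_one, h2] at h1
  have h3 : an (central m ^ N) ((1 : ℂ ≃ₜ ℂ) 0) ((1 : ℂ ≃ₜ ℂ) z) = 2 * Real.pi * (m * N) :=
    an_central_pow m N h
  rw [h3] at h1
  linarith

lemma comm_left' {G : Type} [Group G] (z x y : G) (hz : ∀ w, z * w = w * z) :
    ⁅z * x, y⁆ = ⁅x, y⁆ := by
  rw [commutatorElement_def, commutatorElement_def, mul_inv_rev]
  have h1 : z⁻¹ * y⁻¹ = y⁻¹ * z⁻¹ := by
    rw [← mul_inv_rev, ← mul_inv_rev, hz y]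
  calc z * x * y * (x⁻¹ * z⁻¹) * y⁻¹ = z * (x * y * x⁻¹) * (z⁻¹ * y⁻¹) := by
        simp only [mul_assoc]
    _ = (x * y * x⁻¹) * z * (y⁻¹ * z⁻¹) := by rw [hz (x * y * x⁻¹), h1]
    _ = (x * y * x⁻¹) * (z * (y⁻¹ * z⁻¹)) := by rw [mul_assoc]
    _ = (x * y * x⁻¹) * y⁻¹ := by rw [hz (y⁻¹ * z⁻¹), inv_mul_cancel_right]

lemma comm_right' {G : Type} [Group G] (z x y : G) (hz : ∀ w, z * w = w * z) :
    ⁅x, z * y⁆ = ⁅x, y⁆ := by
  have h := congrArg (fun w => w⁻¹) (comm_left' z y x hz)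
  simpa only [commutatorElement_inv] using h

lemma comm_central' (k l : ℤ) (F G : PlaneLift) : ⁅central k * F, central l * G⁆ = ⁅F, G⁆ := by
  rw [comm_left' _ _ _ (central_comm k), comm_right' _ _ _ (central_comm l)]

lemma central_mul (k l : ℤ) : central k * central l = central (k + l) := by
  refine PlaneLift.ext' (one_mul _) fun x => ?_
  rw [mul_angle]
  show 2 * Real.pi * (k : ℝ) + 2 * Real.pi * (l : ℝ) = 2 * Real.pi * ((k + l : ℤ) : ℝ)
  push_cast
  ring

lemma central_zero : central 0 = 1 := by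
  refine PlaneLift.ext' rfl fun x => ?_
  show 2 * Real.pi * ((0 : ℤ) : ℝ) = 0
  simp

lemma central_inv (k : ℤ) : (central k)⁻¹ = central (-k) := by
  rw [inv_eq_iff_mul_eq_one, central_mul, add_neg_cancel, central_zero]

/-- changing the letters by central elements changes words by central elements -/
lemma lift_central {ι : Type} (m : ι → ℤ) (F : ι → PlaneLift) (x : FreeGroup ι) :
    ∃ k : ℤ, FreeGroup.lift (fun i => central (m i) * F i) x = central k * FreeGroup.lift F x := by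
  induction x using FreeGroup.induction_on with
  | C1 => exact ⟨0, by rw [map_one, map_one, central_zero, mul_one]⟩
  | of i => exact ⟨m i, by rw [FreeGroup.lift_apply_of, FreeGroup.lift_apply_of]⟩
  | inv_of i _ =>
    refine ⟨-m i, ?_⟩
    rw [map_inv, map_inv, FreeGroup.lift_apply_of, FreeGroup.lift_apply_of, mul_inv_rev,
      central_inv, central_comm]
  | mul x y hx hy =>
    obtain ⟨k, hk⟩ := hx
    obtain ⟨l, hl⟩ := hy
    refine ⟨k + l, ?_⟩
    rw [map_mul, map_mul, hk, hl, ← central_mul]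
    calc central k * FreeGroup.lift F x * (central l * FreeGroup.lift F y)
        = central k * (FreeGroup.lift F x * central l) * FreeGroup.lift F y := by
          simp only [mul_assoc]
      _ = central k * (central l * FreeGroup.lift F x) * FreeGroup.lift F y := by
          rw [central_comm l (FreeGroup.lift F x)]
      _ = central k * central l * (FreeGroup.lift F x * FreeGroup.lift F y) := by
          simp only [mul_assoc]

lemma lift_mem {ι : Type} (H : Subgroup PlaneLift) (F : ι → PlaneLift) (hF : ∀ i, F i ∈ H)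
    (x : FreeGroup ι) : FreeGroup.lift F x ∈ H := by
  induction x using FreeGroup.induction_on with
  | C1 => rw [map_one]; exact H.one_mem
  | of i => rw [FreeGroup.lift_apply_of]; exact hF i
  | inv_of i _ => rw [map_inv, FreeGroup.lift_apply_of]; exact H.inv_mem (hF i)
  | mul x y hx hy => rw [map_mul]; exact H.mul_mem hx hy

/-- near infinity, the homeomorphism `f` is a limit, in the fine `C^0` topology, of area
preserving diffeomorphisms of the plane -/
def Appr (f : ℂ → ℂ) : Prop :=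
  ∀ η : ℂ → ℝ, Continuous η → (∀ z, 0 < η z) →
    ∃ h : Equiv.Perm ℂ, AP h ∧ ∀ᶠ z in cocompact ℂ, ‖h z - f z‖ < η z

/-- graph version -/
lemma Appr.graph {f : ℂ ≃ₜ ℂ} (hf : Appr f) (O : Set (ℂ × ℂ)) (hO : IsOpen O)
    (h : ∀ᶠ z in cocompact ℂ, (z, f z) ∈ O) :
    ∃ g : Equiv.Perm ℂ, AP g ∧ ∀ᶠ z in cocompact ℂ, (z, g z) ∈ O := by
  obtain ⟨r, hr, hr2⟩ := ev_iff h
  set O' : Set (ℂ × ℂ) := O ∪ {p | ‖p.1‖ < r + 1} with hO'
  have hO'o : IsOpen O' := hO.union (isOpen_lt (by fun_prop) continuous_const)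
  have hO'g : ∀ z : ℂ, (z, f z) ∈ O' := by
    intro z
    by_cases hz : r < ‖z‖
    · exact Or.inl (hr2 z hz)
    · refine Or.inr ?_
      show ‖z‖ < r + 1
      linarith [not_lt.1 hz]
  have hfc := f.continuous
  by_cases hne : (O'ᶜ).Nonempty
  · obtain ⟨g, hg, hge⟩ := hf (fun z => Metric.infDist (z, f z) O'ᶜ)
      ((Metric.continuous_infDist_pt _).comp (by fun_prop)) (fun z => by
        rw [← hO'o.isClosed_compl.notMem_iff_infDist_pos hne]
        exact fun hc => hc (hO'g z))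
    refine ⟨g, hg, ?_⟩
    have e1 : ∀ᶠ z in cocompact ℂ, r + 1 < ‖z‖ :=
      tendsto_norm_cocompact_atTop.eventually_gt_atTop _
    filter_upwards [hge, e1] with z h1 h2
    have h3 : (z, g z) ∈ O' := by
      by_contra hc
      have h3 := Metric.infDist_le_dist_of_mem (x := (z, f z)) (show (z, g z) ∈ O'ᶜ from hc)
      have h4 : dist (z, f z) (z, g z) = ‖g z - f z‖ := by
        rw [Prod.dist_eq, dist_self, dist_comm, dist_eq_norm]
        exact max_eq_right (norm_nonneg _)
      rw [h4] at h3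
      linarith
    rcases h3 with h3 | h3
    · exact h3
    · exfalso
      have h4 : ‖z‖ < r + 1 := h3
      linarith
  · obtain ⟨g, hg, _⟩ := hf (fun _ => 1) continuous_const (fun _ => one_pos)
    refine ⟨g, hg, ?_⟩
    rw [Set.not_nonempty_iff_eq_empty, Set.compl_empty_iff] at hne
    have e1 : ∀ᶠ z in cocompact ℂ, r + 1 < ‖z‖ :=
      tendsto_norm_cocompact_atTop.eventually_gt_atTop _
    filter_upwards [e1] with z h2
    have h3 : (z, g z) ∈ O' := by rw [hne]; trivial
    rcases h3 with h3 | h3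
    · exact h3
    · exfalso
      have h4 : ‖z‖ < r + 1 := h3
      linarith

/-- products of `m` commutators of words turn by at most `2 m + 1 / 2` -/
theorem turn_word {ι : Type} (A : ι → PlaneLift) (hA : ∀ i, Appr (A i).homeo)
    (L : List (FreeGroup ι × FreeGroup ι)) (M : ℝ)
    (hM : ∀ᶠ z in cocompact ℂ, an (FreeGroup.lift A (cl L)) 0 z = 2 * Real.pi * M) :
    M - 1 / 2 ≤ 2 * L.length := by
  have hpi := Real.pi_pos
  obtain ⟨t, e, h1, h2⟩ := Cl_all A (cl L) Set.univ Real.pi hpi isOpen_univ (by simp)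
  -- approximation of the letters
  have hex : ∀ i, ∃ F ∈ G0, ∃ m : ℤ, CloseL (t i) (e i) (A i) (central m * F) := by
    intro i
    obtain ⟨hto, he, hte⟩ := h1 i
    have hfc := (A i).homeo.continuous
    obtain ⟨g, hg, hge⟩ := (hA i).graph (t i ∩ {p | ‖p.2 - (A i).homeo p.1‖ < 1})
      (hto.inter (isOpen_lt (by fun_prop) continuous_const)) (by
        filter_upwards [hte] with z hz
        refine ⟨hz, ?_⟩
        show ‖(A i).homeo z - (A i).homeo z‖ < 1
        rw [sub_self, norm_zero]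
        exact one_pos)
    obtain ⟨F, hF, hFg⟩ := exists_alpha g hg
    have hF1 : ∀ᶠ z in cocompact ℂ, (z, F.homeo z) ∈ t i ∧ ‖F.homeo z - (A i).homeo z‖ < 1 := by
      filter_upwards [hge, hFg] with z hz1 hz2
      rw [hz2]
      exact hz1
    obtain ⟨m, hm⟩ := norm_lift (A i) F (hF1.mono fun z hz => hz.2)
    refine ⟨F, hF, m, ?_, ev_abs hm (e i) he⟩
    filter_upwards [hF1] with z hz
    exact hz.1
  choose F hF m hm using hex
  obtain ⟨_, h3⟩ := h2 (fun i => central (m i) * F i) hm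
  -- remove the central elements
  set LF : List (PlaneLift × PlaneLift) :=
    L.map fun p => (FreeGroup.lift F p.1, FreeGroup.lift F p.2) with hLF
  have h4 : FreeGroup.lift (fun i => central (m i) * F i) (cl L) = cl LF := by
    rw [cl_map, hLF]
    unfold cl
    rw [List.map_map, List.map_map]
    congr 1
    refine List.map_congr_left fun p _ => ?_
    obtain ⟨k, hk⟩ := lift_central m F p.1
    obtain ⟨l, hl⟩ := lift_central m F p.2
    simp only [Function.comp]
    rw [hk, hl, comm_central']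
  rw [h4] at h3
  have h5 := G0_bound LF (by
    intro q hq
    obtain ⟨p, _, rfl⟩ := List.mem_map.1 hq
    exact ⟨lift_mem G0 F hF p.1, lift_mem G0 F hF p.2⟩) (M - 1 / 2) (by
    filter_upwards [h3, hM] with z h6 h7
    rw [h7, abs_lt] at h6
    linarith [h6.1])
  have h6 : (LF.length : ℝ) = L.length := by rw [hLF]; simp
  rw [h6] at h5
  exact h5

/-- the Milnor-Wood inequality -/
theorem milnor_wood (k : ℕ) (A : Fin (k + 1) ⊕ Fin (k + 1) → PlaneLift)
    (hA : ∀ i, Appr (A i).homeo) (n : ℤ)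
    (hn : FreeGroup.lift A (surfaceRelator (k + 1)) = central n) : |n| ≤ 2 * k := by
  obtain ⟨L, hL, hw⟩ := exists_word k 3
  have h1 := hw PlaneLift (FreeGroup.lift A) (central n) (central_comm n) hn
  have h2 := turn_word A hA L (n * (3 : ℕ)) (by
    filter_upwards [ev_ne_zero] with z hz
    rw [h1, an_central_pow n 3 hz.symm])
  have h3 := turn_word A hA (L.reverse.map Prod.swap) (-(n * (3 : ℕ))) (by
    filter_upwards [ev_ne_zero] with z hz
    rw [← cl_inv, map_inv, h1, an_central_pow_inv n 3 hz.symm]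
    ring)
  rw [List.length_map, List.length_reverse] at h3
  rw [hL] at h2 h3
  push_cast at h2 h3
  have h4 : (n : ℝ) < 2 * k + 1 := by linarith
  have h5 : -(2 * (k : ℝ) + 1) < n := by linarith
  have h6 : n < 2 * k + 1 := by exact_mod_cast h4
  have h7 : -(2 * (k : ℤ) + 1) < n := by exact_mod_cast h5
  rw [abs_le]
  constructor <;> omega

end Pool.Agent.Q175.MW
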