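import Pool.Agent.Q175.MW.TanS
import Pool.Agent.Q175.MW.Main

/-! Germs of area preserving diffeomorphisms with controlled supports -/

set_option autoImplicit false

open Filter Topology

namespace Pool.Agent.Q175.MW

open Pool.Agent Pool.Agent.W710.DP Pool.Agent.W710.DP.TanC Pool.Agent.Helper11.PlaneEuler

lemma lin_small (A : ℂ →ₗ[ℝ] ℂ) (hA : LinearMap.det A = 1) :
    ∃ n, Germ n (fun z => A z) ∧ ∀ z : ℂ, 1 < ‖z‖ → n z = z := by
  obtain ⟨n, hn, ⟨r, hr⟩, r1, hr1, hg⟩ := a_lin A hA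
  set ρ : ℝ := 1 / (|r| + 1) with hρ
  have hρ0 : 0 < ρ := by positivity
  have hρi : ρ⁻¹ = |r| + 1 := by rw [hρ]; simp
  refine ⟨resc n ρ hρ0.ne', ⟨resc_AP n ρ _ hn, resc_CS n ρ _ hρ0 ⟨r, hr⟩, ρ * r1,
    by positivity, fun z hz => ?_⟩, fun z hz => ?_⟩
  · show ρ • n (ρ⁻¹ • z) = A z
    rw [hg]
    · simp only
      rw [map_smul, smul_smul, mul_inv_cancel₀ hρ0.ne', one_smul]
    · rw [norm_smul, Real.norm_eq_abs, abs_of_pos (inv_pos.2 hρ0), inv_mul_lt_iff₀ hρ0]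
      exact hz
  · show ρ • n (ρ⁻¹ • z) = z
    rw [hr]
    · rw [smul_smul, mul_inv_cancel₀ hρ0.ne', one_smul]
    · rw [norm_smul, Real.norm_eq_abs, abs_of_pos (inv_pos.2 hρ0), hρi]
      have := le_abs_self r
      have h2 := abs_nonneg r
      nlinarith

theorem germ_small (p : ℂ) : ∃ R : ℝ, 1 ≤ R ∧ ∀ a : Equiv.Perm ℂ, AP a → a 0 = p →
    ∃ n, Germ n a ∧ ∀ z : ℂ, R < ‖z‖ → n z = z := by
  obtain ⟨n1, hn1, ⟨R1, hR1⟩, r1, hr1, hg1⟩ := a_trans p
  refine ⟨max R1 1, le_max_right _ _, ?_⟩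
  intro a ha hap
  subst hap
  obtain ⟨n2, ⟨hn2, hc2, r2, hr2, hg2⟩, hs2⟩ :=
    lin_small ((fderiv ℝ (⇑a) 0 : ℂ →L[ℝ] ℂ) : ℂ →ₗ[ℝ] ℂ) (ha.2.2 0)
  have hn20 : n2 0 = 0 := by
    rw [hg2 0 (by simpa using hr2)]
    simp
  set a' : Equiv.Perm ℂ := n2⁻¹ * (Equiv.addRight (-(a 0))) * a with ha'
  have hAP : AP a' := AP_mul (AP_mul (AP_inv hn2) (W817.DP.AP_add _)) ha
  have hval : ∀ z, n2 (a' z) = a z - a 0 := by
    intro z
    have e0 : a' z = n2.symm (a z + -(a 0)) := rfl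
    rw [e0, Equiv.apply_symm_apply, sub_eq_add_neg]
  have ha0 : a' 0 = 0 := by
    apply n2.injective
    rw [hval, hn20, sub_self]
  have hfd2 : fderiv ℝ (⇑n2) 0 = fderiv ℝ (⇑a) 0 := by
    have : (⇑n2) =ᶠ[nhds (0 : ℂ)] ⇑(fderiv ℝ (⇑a) 0) := by
      filter_upwards [Metric.ball_mem_nhds (0 : ℂ) hr2] with z hz
      exact hg2 z (by simpa using hz)
    rw [this.fderiv_eq, ContinuousLinearMap.fderiv]
  have hfd : fderiv ℝ (⇑a') 0 = ContinuousLinearMap.id ℝ ℂ := by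
    have e1 : fderiv ℝ (fun z => n2 (a' z)) 0 =
        (fderiv ℝ n2 (a' 0)).comp (fderiv ℝ a' 0) :=
      fderiv_comp 0 (hn2.differentiable _) (hAP.differentiable _)
    have e2 : (fun z => n2 (a' z)) = fun z => a z - a 0 := funext hval
    rw [e2, fderiv_sub_const, ha0, hfd2] at e1
    have hdet := ha.2.2 0
    have hinj : Function.Injective (fderiv ℝ (⇑a) 0) := by
      have hu : IsUnit (LinearMap.det ((fderiv ℝ (⇑a) 0 : ℂ →L[ℝ] ℂ) : ℂ →ₗ[ℝ] ℂ)) := by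
        rw [hdet]; exact isUnit_one
      have := (LinearMap.isUnit_iff_isUnit_det _).2 hu
      have hb := (Module.End.isUnit_iff _).1 this
      exact hb.injective
    ext1 w
    apply hinj
    have := congrArg (fun L : ℂ →L[ℝ] ℂ => L w) e1
    simpa using this.symm
  obtain ⟨n3, ⟨hn3, hc3, r3, hr3, hg3⟩, hs3⟩ :=
    tan_small a_core W699.DP.t_pot a_gf a' hAP ha0 hfd
  refine ⟨n1 * (n2 * n3), ⟨AP_mul hn1 (AP_mul hn2 hn3),
    CS_mul ⟨R1, hR1⟩ (CS_mul hc2 hc3), ?_⟩, ?_⟩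
  · obtain ⟨ε, hε, hcl⟩ :=
      Metric.continuousAt_iff.1 (ha.continuous.continuousAt (x := 0)) r1 hr1
    refine ⟨min ε r3, lt_min hε hr3, fun z hz => ?_⟩
    rw [Equiv.Perm.mul_apply, Equiv.Perm.mul_apply,
      hg3 z (lt_of_lt_of_le hz (min_le_right _ _)), hval,
      hg1 _ ?_]
    · show a z - a 0 + a 0 = a z
      ring
    have := hcl (x := z) (by simpa using lt_of_lt_of_le hz (min_le_left _ _))
    rwa [dist_eq_norm] at this
  · intro z hz
    rw [Equiv.Perm.mul_apply, Equiv.Perm.mul_apply,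
      hs3 z (lt_of_le_of_lt (le_max_right _ _) hz), hs2 z (lt_of_le_of_lt (le_max_right _ _) hz),
      hR1 z (lt_of_le_of_lt (le_max_left _ _) hz)]

/-- every area preserving diffeomorphism coincides outside a disc, whose size depends only on the
image of the origin, with one in `G0` -/
theorem alpha_small (p : ℂ) : ∃ R : ℝ, 1 ≤ R ∧ ∀ f : Equiv.Perm ℂ, AP f → f 0 = p →
    ∃ F ∈ G0, (∀ z : ℂ, R < ‖f z‖ → F.homeo z = f z) ∧
      ∀ z : ℂ, ‖F.homeo z‖ ≤ max R ‖f z‖ := by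
  obtain ⟨R, hR1, hR⟩ := germ_small p
  refine ⟨R, hR1, ?_⟩
  intro f hf hfp
  obtain ⟨n, ⟨hn1, _, r, hr, hn2⟩, hns⟩ := hR f hf hfp
  have hα : AP (n⁻¹ * f) := AP_mul (AP_inv hn1) hf
  let α : ℂ ≃ₜ ℂ :=
    { toEquiv := n⁻¹ * f
      continuous_toFun := hα.continuous
      continuous_invFun := hα.continuous_symm }
  have hid : ∀ z : ℂ, ‖z‖ < r → α z = z := by
    intro z hz
    show n⁻¹ (f z) = z
    rw [← hn2 z hz]
    exact n.symm_apply_apply z
  have hs : HasStrictFDerivAt (α : ℂ → ℂ) (ContinuousLinearMap.id ℝ ℂ) 0 := by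
    refine (hasStrictFDerivAt_id (0 : ℂ)).congr_of_eventuallyEq ?_
    filter_upwards [Metric.ball_mem_nhds (0 : ℂ) hr] with z hz
    rw [mem_ball_zero_iff] at hz
    exact (hid z hz).symm
  obtain ⟨F, hF, hFa⟩ := exists_lift α 0 hs
  refine ⟨F, ⟨?_, r, hr, ?_, ?_⟩, ?_, ?_⟩
  · show AP F.homeo.toEquiv
    rw [hF]
    exact hα
  · intro z hz
    rw [hF]
    exact hid z hz
  · intro c z hcz hc hz
    rw [an_eq F hcz]
    refine hFa ⟨(c, z), hcz⟩ (fun _ => 0) continuousOn_const rfl ?_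
    intro t ht
    have e1 : rr α 0 t ⟨(c, z), hcz⟩ = 1 := by
      unfold rr
      split_ifs with h0
      · rfl
      · have hsc : ∀ y : ℂ, ‖y‖ < r → α ((0 : ℂ) + t * (y - 0)) = t * y := by
          intro y hy
          rw [sub_zero, zero_add]
          apply hid
          rw [norm_mul, Complex.norm_real, Real.norm_of_nonneg ht.1]
          have := norm_nonneg y
          nlinarith [ht.2]
        simp only
        rw [hsc c hc, hsc z hz, ← mul_sub]
        have ht' : (t : ℂ) ≠ 0 := by exact_mod_cast h0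
        exact div_self (mul_ne_zero ht' (sub_ne_zero.2 fun e => hcz e.symm))
    rw [e1]
    simp
  · intro z hz
    rw [hF]
    show n⁻¹ (f z) = f z
    rw [Equiv.Perm.inv_eq_iff_eq, hns _ hz]
  · intro z
    rw [hF]
    show ‖n⁻¹ (f z)‖ ≤ max R ‖f z‖
    by_cases h : R < ‖n⁻¹ (f z)‖
    · have h1 := hns _ h
      have h2 : n (n⁻¹ (f z)) = f z := n.apply_symm_apply (f z)
      rw [h1] at h2
      rw [h2]
      exact le_max_right _ _
    · exact (not_lt.1 h).trans (le_max_left _ _)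

end Pool.Agent.Q175.MW
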