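import Pool.Agent.Q175.MW.Lim
import Pool.Agent.Q175.MW.Exist

/-! Locally uniform limits of area preserving diffeomorphisms have lifts -/

set_option autoImplicit false

open Filter Topology unitInterval

namespace Pool.Agent.Q175.MW

open Pool.Agent Pool.Agent.W710.DP Pool.Agent.Helper11.PlaneEuler

/-- the pair `(p, p + exp u)` -/
noncomputable def pc (y : ℂ × ℂ) : Conf :=
  ⟨(y.1, y.1 + Complex.exp y.2), fun h => by simp at h⟩

lemma continuous_pc : Continuous pc := by
  unfold pc
  refine Continuous.subtype_mk ?_ _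
  exact continuous_fst.prodMk (continuous_fst.add (Complex.continuous_exp.comp continuous_snd))

/-- the quotient -/
noncomputable def qf (f : ℂ ≃ₜ ℂ) (x : Conf) : ℂ := (f x.1.2 - f x.1.1) / (x.1.2 - x.1.1)

lemma qf_ne (f : ℂ ≃ₜ ℂ) (x : Conf) : qf f x ≠ 0 := div_ne_zero (sub_ne' f x) (sub_ne x)

lemma continuous_qf (f : ℂ ≃ₜ ℂ) : Continuous (qf f) := by
  have hf := f.continuous
  unfold qf
  exact Continuous.div (by fun_prop) (by fun_prop) fun x => sub_ne x

/-- a continuous argument of the quotient on the covering space -/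
lemma exists_L (f : ℂ ≃ₜ ℂ) : ∃ L : C(ℂ × ℂ, ℝ), ∀ y, qf f (pc y) =
    ‖qf f (pc y)‖ * Complex.exp (L y * Complex.I) := by
  let ci : ℂ × ℂ → Circle := fun y => ⟨qf f (pc y) / ‖qf f (pc y)‖, by
    apply mem_sphere_zero_iff_norm.mpr
    rw [norm_div, Complex.norm_real, norm_norm, div_self (norm_ne_zero_iff.mpr (qf_ne f _))]⟩
  have hci : Continuous ci := by
    have h1 : Continuous (fun y : ℂ × ℂ => qf f (pc y)) := (continuous_qf f).comp continuous_pc
    refine Continuous.subtype_mk ?_ _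
    apply h1.div
    · fun_prop
    · intro y
      have : ‖qf f (pc y)‖ ≠ 0 := norm_ne_zero_iff.mpr (qf_ne f _)
      exact_mod_cast this
  let Hm : C(I × (ℂ × ℂ), Circle) := ⟨fun y => ci (((y.1 : ℝ) : ℂ) * y.2.1, ((y.1 : ℝ) : ℂ) * y.2.2),
    hci.comp (by fun_prop)⟩
  obtain ⟨a0, ha0⟩ : ∃ a0 : ℝ, Circle.exp a0 = ci (0, 0) :=
    ⟨Complex.arg (ci (0, 0)), Circle.exp_arg _⟩
  have H0 : ∀ a : ℂ × ℂ, Hm (0, a) = Circle.exp ((ContinuousMap.const (ℂ × ℂ) a0) a) := by
    intro a
    show ci ((((0 : I) : ℝ) : ℂ) * a.1, (((0 : I) : ℝ) : ℂ) * a.2) = Circle.exp a0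
    rw [ha0]
    simp
  let L := Circle.isCoveringMap_exp.liftHomotopy Hm (ContinuousMap.const (ℂ × ℂ) a0) H0
  have hL : ∀ t a, Circle.exp (L (t, a)) = Hm (t, a) := fun t a =>
    congrFun (Circle.isCoveringMap_exp.liftHomotopy_lifts Hm _ H0) (t, a)
  refine ⟨⟨fun y => L (1, y), L.continuous.comp (by fun_prop)⟩, fun y => ?_⟩
  have h1 := congrArg (fun z : Circle => (z : ℂ)) (hL 1 y)
  simp only [Circle.coe_exp] at h1
  have h2 : Hm (1, y) = ci y := by
    show ci ((((1 : I) : ℝ) : ℂ) * y.1, (((1 : I) : ℝ) : ℂ) * y.2) = ci y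
    simp
  have h3 : ((ci y : Circle) : ℂ) = qf f (pc y) / ‖qf f (pc y)‖ := rfl
  rw [h2, h3] at h1
  show _ = _ * Complex.exp (((L (1, y) : ℝ) : ℂ) * Complex.I)
  rw [h1]
  have h4 : ((‖qf f (pc y)‖ : ℝ) : ℂ) ≠ 0 := by
    have : ‖qf f (pc y)‖ ≠ 0 := norm_ne_zero_iff.mpr (qf_ne f _)
    exact_mod_cast this
  rw [mul_div_cancel₀ _ h4]

lemma pc_add (p u : ℂ) (k : ℤ) : pc (p, u + k * (2 * Real.pi * Complex.I)) = pc (p, u) := by
  apply Subtype.ext
  unfold pc
  simp only [Prod.mk.injEq, true_and]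
  rw [Complex.exp_add]
  have : Complex.exp ((k : ℂ) * (2 * Real.pi * Complex.I)) = 1 := by
    rw [Complex.exp_eq_one_iff]
    exact ⟨k, rfl⟩
  rw [this, mul_one]

/-- if the argument on the covering space is periodic, the homeomorphism has a lift -/
lemma lift_of_periodic (f : ℂ ≃ₜ ℂ) (L : C(ℂ × ℂ, ℝ)) (hL : ∀ y, qf f (pc y) =
    ‖qf f (pc y)‖ * Complex.exp (L y * Complex.I))
    (hper : ∀ p u : ℂ, L (p, u + 2 * Real.pi * Complex.I) = L (p, u)) :
    ∃ F : PlaneLift, F.homeo = f := by
  have hperk : ∀ (k : ℕ) (p u : ℂ), L (p, u + k * (2 * Real.pi * Complex.I)) = L (p, u) := by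
    intro k
    induction k with
    | zero => intro p u; simp
    | succ k ih =>
      intro p u
      have e : u + ((k + 1 : ℕ) : ℂ) * (2 * Real.pi * Complex.I) =
        (u + k * (2 * Real.pi * Complex.I)) + 2 * Real.pi * Complex.I := by push_cast; ring
      rw [e, hper, ih]
  have hperz : ∀ (k : ℤ) (p u : ℂ), L (p, u + k * (2 * Real.pi * Complex.I)) = L (p, u) := by
    intro k p u
    rcases Int.le_total 0 k with hk | hk
    · obtain ⟨n, rfl⟩ := Int.eq_ofNat_of_zero_le hk
      exact_mod_cast hperk n p u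
    · obtain ⟨n, hn⟩ := Int.eq_ofNat_of_zero_le (Int.neg_nonneg_of_nonpos hk)
      have h1 := hperk n p (u + k * (2 * Real.pi * Complex.I))
      have e : u + (k : ℂ) * (2 * Real.pi * Complex.I) + (n : ℂ) * (2 * Real.pi * Complex.I) =
          u := by
        have : ((n : ℤ) : ℂ) = -(k : ℂ) := by rw [← hn]; push_cast; ring
        have h2 : (n : ℂ) = -(k : ℂ) := by exact_mod_cast this
        rw [h2]
        ring
      rw [e] at h1
      exact h1.symm
  have hex : ∀ (p u v : ℂ), Complex.exp u = Complex.exp v → L (p, u) = L (p, v) := by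
    intro p u v h
    rw [Complex.exp_eq_exp_iff_exists_int] at h
    obtain ⟨k, hk⟩ := h
    rw [hk]
    exact hperz k p v
  set ang : Conf → ℝ := fun x => L (x.1.1, Complex.log (x.1.2 - x.1.1)) with hang
  have hangc : Continuous ang := by
    rw [continuous_iff_continuousAt]
    intro x
    have hx := sub_ne x
    have hd : ContinuousAt (fun x : Conf => x.1.2 - x.1.1) x := by fun_prop
    by_cases hs : x.1.2 - x.1.1 ∈ Complex.slitPlane
    · have h1 : ContinuousAt (fun x : Conf => Complex.log (x.1.2 - x.1.1)) x :=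
        ContinuousAt.comp (g := Complex.log) (f := fun x : Conf => x.1.2 - x.1.1)
          (continuousAt_clog hs) hd
      have h2 : ContinuousAt (fun x : Conf => (x.1.1, Complex.log (x.1.2 - x.1.1))) x :=
        ContinuousAt.prodMk (by fun_prop) h1
      exact ContinuousAt.comp (g := fun y : ℂ × ℂ => L y) L.continuous.continuousAt h2
    · have hs' : -(x.1.2 - x.1.1) ∈ Complex.slitPlane := by
        rw [Complex.mem_slitPlane_iff] at hs ⊢
        push Not at hs
        left
        rw [Complex.neg_re]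
        have h3 : (x.1.2 - x.1.1).re ≠ 0 := by
          intro h4
          exact hx (Complex.ext h4 hs.2)
        rcases lt_or_gt_of_ne h3 with h5 | h5
        · linarith
        · linarith [hs.1]
      have h1 : ContinuousAt (fun x : Conf => Complex.log (-(x.1.2 - x.1.1)) +
          Real.pi * Complex.I) x :=
        (ContinuousAt.comp (g := Complex.log) (f := fun x : Conf => -(x.1.2 - x.1.1))
          (continuousAt_clog hs') hd.neg).add continuousAt_const
      have h2 : ContinuousAt (fun x : Conf => (x.1.1, Complex.log (-(x.1.2 - x.1.1)) +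
          Real.pi * Complex.I)) x := ContinuousAt.prodMk (by fun_prop) h1
      have h3 : ContinuousAt (fun x : Conf => L (x.1.1, Complex.log (-(x.1.2 - x.1.1)) +
          Real.pi * Complex.I)) x :=
        ContinuousAt.comp (g := fun y : ℂ × ℂ => L y) L.continuous.continuousAt h2
      have h4 : ang = fun x : Conf => L (x.1.1, Complex.log (-(x.1.2 - x.1.1)) +
          Real.pi * Complex.I) := by
        funext x
        refine hex _ _ _ ?_
        rw [Complex.exp_log (sub_ne x), Complex.exp_add,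
          Complex.exp_log (neg_ne_zero.2 (sub_ne x)), Complex.exp_pi_mul_I]
        ring
      rw [h4]
      exact h3
  refine ⟨⟨f, ⟨ang, hangc⟩, fun x => ?_⟩, rfl⟩
  have h1 := hL (x.1.1, Complex.log (x.1.2 - x.1.1))
  have h2 : pc (x.1.1, Complex.log (x.1.2 - x.1.1)) = x := by
    apply Subtype.ext
    unfold pc
    simp only
    rw [Complex.exp_log (sub_ne x)]
    simp
  rw [h2] at h1
  exact h1

/-- locally uniform limits of area preserving diffeomorphisms have lifts -/
theorem exists_lift_apprK (f : ℂ ≃ₜ ℂ) (hf : ApprK f) : ∃ F : PlaneLift, F.homeo = f := by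
  obtain ⟨L, hL⟩ := exists_L f
  have hfc := f.continuous
  -- the size of `f` on the unit circle
  obtain ⟨z0, hz0, hmin⟩ := (isCompact_sphere (0 : ℂ) 1).exists_isMinOn
    (f := fun z => ‖f z - f 0‖) ⟨1, by simp⟩ (by fun_prop)
  set μ : ℝ := ‖f z0 - f 0‖ with hμ
  have hμ0 : 0 < μ := by
    rw [hμ, norm_pos_iff, sub_ne_zero]
    intro h
    have := f.injective h
    rw [this] at hz0
    simp at hz0
  obtain ⟨h, hh, hhc⟩ := hf 1 (μ / 16) (by positivity)
  let hh' : ℂ ≃ₜ ℂ :=
    { toEquiv := h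
      continuous_toFun := hh.continuous
      continuous_invFun := hh.continuous_symm }
  obtain ⟨H, hH⟩ := exists_lift_appr hh' (by
    intro η _ hη
    refine ⟨h, hh, Filter.Eventually.of_forall fun z => ?_⟩
    show ‖h z - h z‖ < η z
    rw [sub_self, norm_zero]
    exact hη z)
  have hHz : ∀ z, H.homeo z = h z := fun z => by rw [hH]; rfl
  -- the periodicity
  have hjump : ∀ y y' : ℂ × ℂ, L (y.1, y.2 + 2 * Real.pi * Complex.I) - L y =
      L (y'.1, y'.2 + 2 * Real.pi * Complex.I) - L y' := by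
    have hc : Continuous fun y : ℂ × ℂ => L (y.1, y.2 + 2 * Real.pi * Complex.I) - L y := by
      have := L.continuous
      fun_prop
    have h1 : ∀ y : ℂ × ℂ,
        Circle.exp (L (y.1, y.2 + 2 * Real.pi * Complex.I) - L y) = 1 := by
      intro y
      apply circle_one_of
      have e1 := hL y
      have e2 := hL (y.1, y.2 + 2 * Real.pi * Complex.I)
      have e3 : pc (y.1, y.2 + 2 * Real.pi * Complex.I) = pc y := by
        have := pc_add y.1 y.2 1
        simpa using this
      rw [e3] at e2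
      have hn : 0 < ‖qf f (pc y)‖ := norm_pos_iff.2 (qf_ne f _)
      have e4 := exp_eq_of hn hn (e2.symm.trans e1)
      have e5 : ((L (y.1, y.2 + 2 * Real.pi * Complex.I) - L y : ℝ) : ℂ) * Complex.I =
          (L (y.1, y.2 + 2 * Real.pi * Complex.I) : ℂ) * Complex.I - (L y : ℂ) * Complex.I := by
        push_cast; ring
      rw [e5, Complex.exp_sub, e4, div_self (Complex.exp_ne_zero _)]
    intro y y'
    exact Circle.isCoveringMap_exp.const_of_comp
      (g := fun y : ℂ × ℂ => L (y.1, y.2 + 2 * Real.pi * Complex.I) - L y) hc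
      (fun a b => by rw [h1, h1]) y y'
  -- comparison with `H` on the unit circle
  set g : ℝ → ℝ := fun t => L (0, t * (2 * Real.pi * Complex.I)) -
    H.angle (pc (0, t * (2 * Real.pi * Complex.I))) with hg
  have hgc : Continuous g := by
    have h1 := L.continuous
    have h2 := H.angle.continuous.comp continuous_pc
    exact (h1.comp (by fun_prop)).sub (h2.comp
      (g := fun y : ℂ × ℂ => H.angle (pc y)) (by fun_prop))
  have hge : ∀ t : ℝ, ‖Complex.exp (g t * Complex.I) - 1‖ ≤ 1 / 2 := by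
    intro t
    set x : Conf := pc (0, t * (2 * Real.pi * Complex.I)) with hx
    have s1 := hL (0, t * (2 * Real.pi * Complex.I))
    rw [← hx] at s1
    have s2 := H.spec x
    have hx1 : x.1.1 = 0 := rfl
    have hx2 : ‖x.1.2‖ = 1 := by
      have : x.1.2 = Complex.exp (((t * (2 * Real.pi) : ℝ) : ℂ) * Complex.I) := by
        rw [hx]
        unfold pc
        simp only [zero_add]
        congr 1
        push_cast
        ring
      rw [this, Complex.norm_exp_ofReal_mul_I]
    rw [hHz, hHz] at s2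
    set W1 := qf f x with hW1
    set W2 := (h x.1.2 - h x.1.1) / (x.1.2 - x.1.1) with hW2
    have n1 : f x.1.2 - f x.1.1 ≠ 0 := sub_ne' f x
    have n2 : h x.1.2 - h x.1.1 ≠ 0 := sub_ne_zero.2 fun e => x.2 (h.injective e).symm
    have n3 := sub_ne x
    have m1 : 0 < ‖W1‖ := norm_pos_iff.2 (qf_ne f x)
    have m2 : 0 < ‖W2‖ := norm_pos_iff.2 (div_ne_zero n2 n3)
    have hW : W1 / W2 = ‖W1 / W2‖ * Complex.exp (g t * Complex.I) := by
      have h3 : ((g t : ℝ) : ℂ) * Complex.I =
          (L (0, t * (2 * Real.pi * Complex.I)) : ℂ) * Complex.I - (H.angle x : ℂ) * Complex.I := by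
        rw [hg]; push_cast; ring
      rw [h3, Complex.exp_sub, norm_div]
      nth_rewrite 1 [s1]
      nth_rewrite 1 [s2]
      push_cast
      rw [mul_div_mul_comm]
    have hun : ‖Complex.exp (g t * Complex.I)‖ = 1 := Complex.norm_exp_ofReal_mul_I _
    refine (unit_close hun hW).trans ?_
    have h5 : W1 / W2 - 1 = ((f x.1.2 - h x.1.2) - (f x.1.1 - h x.1.1)) /
        (h x.1.2 - h x.1.1) := by
      rw [hW1, hW2]
      unfold qf
      field_simp
      ring
    rw [h5, norm_div]
    have h6 : ‖h x.1.2 - f x.1.2‖ < μ / 16 := hhc _ hx2.le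
    have h7 : ‖h x.1.1 - f x.1.1‖ < μ / 16 := hhc _ (by rw [hx1, norm_zero]; norm_num)
    have h8 : μ ≤ ‖f x.1.2 - f x.1.1‖ := by
      rw [hx1]
      exact hmin (by rw [mem_sphere_zero_iff_norm]; exact hx2)
    rw [norm_sub_rev] at h6 h7
    have h9 : ‖(f x.1.2 - h x.1.2) - (f x.1.1 - h x.1.1)‖ ≤ μ / 8 :=
      (norm_sub_le _ _).trans (by linarith)
    have h10 : 7 / 8 * μ ≤ ‖h x.1.2 - h x.1.1‖ := by
      have e : f x.1.2 - f x.1.1 = (h x.1.2 - h x.1.1) +
        ((f x.1.2 - h x.1.2) - (f x.1.1 - h x.1.1)) := by ring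
      have h11 : ‖f x.1.2 - f x.1.1‖ ≤ ‖h x.1.2 - h x.1.1‖ +
          ‖(f x.1.2 - h x.1.2) - (f x.1.1 - h x.1.1)‖ := by
        nth_rewrite 1 [e]
        exact norm_add_le _ _
      linarith
    have h12 : 0 < ‖h x.1.2 - h x.1.1‖ := norm_pos_iff.2 n2
    rw [← mul_div_assoc, div_le_iff₀ h12]
    nlinarith
  -- normalise
  have hcos : ∀ t : ℝ, 0 < Real.cos (g t) := fun t =>
    cos_pos_of_exp (lt_of_le_of_lt (hge t) (by norm_num))
  obtain ⟨k, hk⟩ : ∃ k : ℤ, |g 0 - k * (2 * Real.pi)| < Real.pi / 2 := by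
    have hpi := Real.pi_pos
    refine ⟨round (g 0 / (2 * Real.pi)), ?_⟩
    set k : ℤ := round (g 0 / (2 * Real.pi)) with hk
    have h1 := abs_sub_round (g 0 / (2 * Real.pi))
    rw [← hk] at h1
    have h2 : |g 0 - k * (2 * Real.pi)| ≤ Real.pi := by
      have e : g 0 - k * (2 * Real.pi) = (g 0 / (2 * Real.pi) - k) * (2 * Real.pi) := by
        field_simp
      rw [e, abs_mul, abs_of_pos (by positivity : 0 < 2 * Real.pi)]
      nlinarith
    by_contra hc
    rw [not_lt] at hc
    have h3 := hcos 0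
    rw [← Real.cos_sub_int_mul_two_pi (g 0) k, ← Real.cos_abs] at h3
    have h4 := Real.cos_nonpos_of_pi_div_two_le_of_le hc (by linarith)
    linarith
  have h1 : |g 1 - k * (2 * Real.pi)| < Real.pi / 2 := by
    refine small_of_cos (f := fun t => g t - k * (2 * Real.pi))
      (hgc.sub continuous_const).continuousOn hk fun t _ => ?_
    rw [Real.cos_sub_int_mul_two_pi]
    exact hcos t
  have hjump0 : L ((0 : ℂ), (0 : ℂ) + 2 * Real.pi * Complex.I) - L (0, 0) = 0 := by
    have e1 : g 1 - g 0 = L ((0 : ℂ), (0 : ℂ) + 2 * Real.pi * Complex.I) - L (0, 0) := by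
      rw [hg]
      have e2 : pc (0, ((1 : ℝ) : ℂ) * (2 * Real.pi * Complex.I)) =
          pc (0, ((0 : ℝ) : ℂ) * (2 * Real.pi * Complex.I)) := by
        have := pc_add 0 0 1
        simpa using this
      simp only
      rw [e2]
      simp
    have e3 : |L ((0 : ℂ), (0 : ℂ) + 2 * Real.pi * Complex.I) - L (0, 0)| < Real.pi := by
      rw [← e1]
      rw [abs_lt] at hk h1 ⊢
      constructor <;> linarith [hk.1, hk.2, h1.1, h1.2]
    -- it is a multiple of `2 π`
    have e4 := hL (0, 0)
    have e5 := hL (0, 0 + 2 * Real.pi * Complex.I)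
    have e6 : pc (0, 0 + 2 * Real.pi * Complex.I) = pc (0, 0) := by
      have := pc_add 0 0 1
      simpa using this
    rw [e6] at e5
    have hn : 0 < ‖qf f (pc (0, 0))‖ := norm_pos_iff.2 (qf_ne f _)
    have e7 := exp_eq_of hn hn (e5.symm.trans e4)
    have e8 : ((L ((0 : ℂ), (0 : ℂ) + 2 * Real.pi * Complex.I) - L (0, 0) : ℝ) : ℂ) *
        Complex.I = (L ((0 : ℂ), (0 : ℂ) + 2 * Real.pi * Complex.I) : ℂ) * Complex.I -
        (L (0, 0) : ℂ) * Complex.I := by
      push_cast; ring
    have e9 : Circle.exp (L ((0 : ℂ), (0 : ℂ) + 2 * Real.pi * Complex.I) - L (0, 0)) = 1 := by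
      apply circle_one_of
      rw [e8, Complex.exp_sub, e7, div_self (Complex.exp_ne_zero _)]
    rw [Circle.exp_eq_one] at e9
    obtain ⟨n, hn⟩ := e9
    have hpi := Real.pi_pos
    rw [hn, abs_mul, abs_of_pos (by positivity : 0 < 2 * Real.pi)] at e3
    have e10 : |(n : ℝ)| < 1 := by nlinarith [abs_nonneg (n : ℝ)]
    have e11 : n = 0 := by
      have : |n| < 1 := by exact_mod_cast e10
      exact Int.abs_lt_one_iff.1 this
    rw [hn, e11]
    simp
  refine lift_of_periodic f L hL fun p u => ?_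
  have h2 := hjump (p, u) (0, 0)
  simp only at h2
  rw [hjump0] at h2
  linarith

end Pool.Agent.Q175.MW
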