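import Pool.Agent.Q175.MW.Cap
import Pool.Agent.Q175.MW.Eval
import Pool.Agent.Q175.MW.Lip

/-! Spectral values at two levels -/

set_option autoImplicit false

namespace Pool.Agent.Q175.MW

open Pool.Agent Pool.Agent.W710.DP Finsupp

lemma joinW_NN {b T e : ℝ} (hP : Par b T e) (B : List (List Letter))
    (hB : ∀ w ∈ B, GoodW T e w) (δ : ℝ) (hδ : 0 < δ) :
    NN b T (joinW B) ((B.map (lam b T)).sum + B.length * (b + 1) + B.length * δ) := by
  have hb : 0 < b := hP.1.trans hP.2.1
  induction B with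
  | nil =>
      have h := a_base b T e [] hP (by intro l hl; simp at hl)
      simpa [joinW] using h
  | cons w B ih =>
      have hw := hB w (by simp)
      have h1 := NN_of_lam_lt a_base hP hw (a := lam b T w + δ) (by linarith)
      cases B with
      | nil =>
          rw [joinW]
          refine NN.mono h1 ?_
          simp only [List.map_cons, List.map_nil, List.sum_cons, List.sum_nil, List.length_cons,
            List.length_nil]
          push_cast
          linarith
      | cons v B =>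
          have h2 := ih fun u hu => hB u (List.mem_cons_of_mem _ hu)
          have h3 := h_sub b T e w (joinW (v :: B)) hP hw
            (joinW_good hP.1.le _ fun u hu => hB u (List.mem_cons_of_mem _ hu)) _ _ h1 h2
          rw [joinW]
          refine NN.mono h3 ?_
          simp only [List.map_cons, List.sum_cons, List.length_cons]
          push_cast
          linarith

lemma lam_pair_le {b T e : ℝ} (hP : Par b T e) {v w : List Letter} (hv : GoodW T e v)
    (hw : GoodW T e w) (hv0 : v ≠ []) (hw0 : w ≠ [])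
    (hc : ∀ ζ, Crit b (v ++ idL :: w) ζ → Sw b (v ++ idL :: w) ζ ≤ 0) :
    lam b T v + lam b T w ≤ 0 := by
  by_contra hlt
  rw [not_le] at hlt
  set s := lam b T v + lam b T w with hs
  have hg : GoodW T e (v ++ idL :: w) := hv.mid hP.1.le hw
  have h1 : NN b T (v ++ idL :: w) (s / 4) := by
    refine a_push b T e _ hP hg (s / 4) _ ?_ (a_base b T e _ hP hg)
    intro ζ _ hcr hh
    have := hc ζ hcr
    linarith [hh.1]
  rcases h_sup b T e v w hP hv hw hv0 hw0 (s / 4) (lam b T v - s / 4) (lam b T w - s / 4)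
    (by linarith) h1 with h | h
  · have := lam_le a_low hP hv h
    linarith
  · have := lam_le a_low hP hw h
    linarith

lemma sum_maps_le (L : List (Equiv.Perm ℂ × Equiv.Perm ℂ)) (φ : Equiv.Perm ℂ → ℝ)
    (h : ∀ p ∈ L, φ p.1 + φ p.1⁻¹ ≤ 0 ∧ φ p.2 + φ p.2⁻¹ ≤ 0) : ((maps L).map φ).sum ≤ 0 := by
  have key : ∀ M : List (Equiv.Perm ℂ × Equiv.Perm ℂ), (∀ p ∈ M, p ∈ L) →
      ((M.flatMap fun p => [p.2⁻¹, p.1⁻¹, p.2, p.1]).map φ).sum ≤ 0 := by
    intro M
    induction M with
    | nil => intro _; simp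
    | cons p M ih =>
      intro hM
      have h1 := ih fun q hq => hM q (List.mem_cons_of_mem _ hq)
      obtain ⟨h2, h3⟩ := h p (hM p (by simp))
      simp only [List.flatMap_cons, List.map_append, List.sum_append, List.map_cons,
        List.map_nil, List.sum_cons, List.sum_nil]
      linarith
  exact key L.reverse fun p hp => List.mem_reverse.1 hp

lemma maps_length (L : List (Equiv.Perm ℂ × Equiv.Perm ℂ)) :
    (maps L).length = 4 * L.length := by
  have key : ∀ M : List (Equiv.Perm ℂ × Equiv.Perm ℂ),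
      (M.flatMap fun p => [p.2⁻¹, p.1⁻¹, p.2, p.1]).length = 4 * M.length := by
    intro M
    induction M with
    | nil => simp
    | cons p M ih =>
      rw [List.flatMap_cons, List.length_append, ih]
      simp only [List.length_cons, List.length_nil]
      omega
  unfold maps
  rw [key, List.length_reverse]

/-- words for products of commutators, with bounds at two levels -/
theorem words2 (L : List (Equiv.Perm ℂ × Equiv.Perm ℂ))
    (hL : ∀ p ∈ L, AP p.1 ∧ Id0 p.1 ∧ AP p.2 ∧ Id0 p.2) (b0 b : ℝ) (hb0 : 0 < b0)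
    (hbb : b0 ≤ b) :
    ∃ (T e : ℝ) (w : List Letter), 0 < e ∧ e < b0 ∧ b + e < T ∧ GoodW T e w ∧
      Realises w (L.map cmm).prod (Dc (b + 1)) ∧
      (∀ a, NN b T w a → -(2 * (L.length : ℝ) * (b + 1)) ≤ a) ∧
      NN b0 T w (4 * (L.length : ℝ) * (b0 + 1) + 1) := by
  have hb : 0 < b := lt_of_lt_of_le hb0 hbb
  -- radii
  obtain ⟨ρ, hρ, hstay⟩ := rad_list t_rad (b + 1)
    (maps L :: (L.flatMap fun p => [[p.1, p.1⁻¹], [p.2, p.2⁻¹]])) (by
      intro M hM a ha
      rcases List.mem_cons.1 hM with rfl | hM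
      · simp only [maps, List.mem_flatMap, List.mem_reverse, List.mem_cons, List.not_mem_nil,
          or_false] at ha
        obtain ⟨p, hp, ha⟩ := ha
        obtain ⟨h1, _, h3, _⟩ := hL p hp
        rcases ha with rfl | rfl | rfl | rfl
        · exact AP_inv h3
        · exact AP_inv h1
        · exact h3
        · exact h1
      · simp only [List.mem_flatMap, List.mem_cons, List.not_mem_nil, or_false] at hM
        obtain ⟨p, hp, hM⟩ := hM
        obtain ⟨h1, _, h3, _⟩ := hL p hp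
        rcases hM with rfl | rfl
        · simp only [List.mem_cons, List.not_mem_nil, or_false] at ha
          rcases ha with rfl | rfl
          · exact h1
          · exact AP_inv h1
        · simp only [List.mem_cons, List.not_mem_nil, or_false] at ha
          rcases ha with rfl | rfl
          · exact h3
          · exact AP_inv h3)
  -- words
  obtain ⟨T0, e0, he0, hwords⟩ := real_list h_real ρ hρ (maps L) (by
      intro a ha
      simp only [maps, List.mem_flatMap, List.mem_reverse, List.mem_cons, List.not_mem_nil,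
          or_false] at ha
      obtain ⟨p, hp, ha⟩ := ha
      obtain ⟨h1, h2, h3, h4⟩ := hL p hp
      rcases ha with rfl | rfl | rfl | rfl
      · exact ⟨AP_inv h3, Id0_inv h4⟩
      · exact ⟨AP_inv h1, Id0_inv h2⟩
      · exact ⟨h3, h4⟩
      · exact ⟨h1, h2⟩)
  set T : ℝ := max T0 (b + 2) with hT
  set e : ℝ := min e0 (min (b0 / 2) 1) with he
  have hep : 0 < e := lt_min he0 (lt_min (by linarith) one_pos)
  have heb0 : e < b0 :=
    lt_of_le_of_lt ((min_le_right _ _).trans (min_le_left _ _)) (by linarith)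
  have heb : e < b := lt_of_lt_of_le heb0 hbb
  have heT : e < T - b := by
    have h1 : e ≤ 1 := (min_le_right _ _).trans (min_le_right _ _)
    have h2 : b + 2 ≤ T := le_max_right _ _
    linarith
  have hP : Par b T e := ⟨hep, heb, heT⟩
  have hw := hwords T (le_max_left _ _) e hep (min_le_left _ _)
  choose! W hW using hw
  have mem1 : ∀ p ∈ L, p.1 ∈ maps L ∧ p.1⁻¹ ∈ maps L ∧ p.2 ∈ maps L ∧ p.2⁻¹ ∈ maps L := by
    intro p hp
    simp only [maps, List.mem_flatMap, List.mem_reverse, List.mem_cons, List.not_mem_nil,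
          or_false]
    exact ⟨⟨p, hp, by simp⟩, ⟨p, hp, by simp⟩, ⟨p, hp, by simp⟩, ⟨p, hp, by simp⟩⟩
  have hP0 : Par b0 T e := ⟨hep, heb0, by linarith⟩
  -- pairs
  have hpair0 : ∀ c : ℝ, Par c T e → c ≤ b → ∀ a : Equiv.Perm ℂ, a ∈ maps L → a⁻¹ ∈ maps L →
      (∀ z, ar z < b + 1 → Stay ρ [a, a⁻¹] z) →
      ∀ ζ, Crit c (W a ++ idL :: W a⁻¹) ζ → Sw c (W a ++ idL :: W a⁻¹) ζ = 0 := by
    intro c hPc hcb a ha ha' hst ζ hζ
    have h1 := Realises_join W925.DP.t_comp ρ [a, a⁻¹] W (by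
      intro a'' ha''
      simp only [List.mem_cons, List.not_mem_nil, or_false] at ha''
      rcases ha'' with rfl | rfl
      · exact (hW _ ha).2.2
      · exact (hW _ ha').2.2)
    have h2 : Realises (W a ++ idL :: W a⁻¹) (fun z => z) (Dc (b + 1)) := by
      refine Realises.mono h1 (fun z hz => hst z hz) fun z _ => ?_
      simp [compL]
    exact a_evid c T e (b + 1) _ hPc ((hW _ ha).2.1.mid hep.le (hW _ ha').2.1)
      (by linarith) h2 ζ hζ
  have hpair : ∀ a : Equiv.Perm ℂ, a ∈ maps L → a⁻¹ ∈ maps L →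
      (∀ z, ar z < b + 1 → Stay ρ [a, a⁻¹] z) →
      ∀ ζ, Crit b (W a ++ idL :: W a⁻¹) ζ → 0 ≤ Sw b (W a ++ idL :: W a⁻¹) ζ :=
    fun a ha ha' hst ζ hζ => (hpair0 b hP le_rfl a ha ha' hst ζ hζ).ge
  set Q := L.reverse.map (fun p : Equiv.Perm ℂ × Equiv.Perm ℂ =>
    ((W p.1, W p.1⁻¹), (W p.2, W p.2⁻¹))) with hQdef
  have hQB : (Q.flatMap fun q => [q.2.2, q.1.2, q.2.1, q.1.1]) = (maps L).map W := by
    rw [hQdef, maps, List.flatMap_map, List.map_flatMap]
    rfl
  have hcore := core_lam hP Q (by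
    intro q hq
    rw [hQdef, List.mem_map] at hq
    obtain ⟨p, hp, rfl⟩ := hq
    rw [List.mem_reverse] at hp
    obtain ⟨m1, m2, m3, m4⟩ := mem1 p hp
    refine ⟨⟨⟨(hW _ m1).2.1, (hW _ m1).1⟩, ⟨(hW _ m2).2.1, (hW _ m2).1⟩⟩,
      ⟨⟨(hW _ m3).2.1, (hW _ m3).1⟩, ⟨(hW _ m4).2.1, (hW _ m4).1⟩⟩, ?_, ?_⟩
    · refine hpair p.1 m1 m2 (hstay _ ?_)
      refine List.mem_cons_of_mem _ ?_
      rw [List.mem_flatMap]
      exact ⟨p, hp, by simp⟩
    · refine hpair p.2 m3 m4 (hstay _ ?_)
      refine List.mem_cons_of_mem _ ?_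
      rw [List.mem_flatMap]
      exact ⟨p, hp, by simp⟩)
  rw [hQB] at hcore
  have hlen : (Q.length : ℝ) = L.length := by rw [hQdef]; simp
  rw [hlen] at hcore
  refine ⟨T, e, joinW ((maps L).map W), hep, heb0, by linarith, hcore.1, ?_, hcore.2, ?_⟩
  swap
  · have hsum : (((maps L).map W).map (lam b0 T)).sum ≤ 0 := by
      have h1 : ((maps L).map W).map (lam b0 T) = (maps L).map fun a => lam b0 T (W a) := by
        rw [List.map_map]
        rfl
      rw [h1]
      refine sum_maps_le L _ fun p hp => ?_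
      obtain ⟨m1, m2, m3, m4⟩ := mem1 p hp
      constructor
      · refine lam_pair_le hP0 (hW _ m1).2.1 (hW _ m2).2.1 (hW _ m1).1 (hW _ m2).1
          fun ζ hζ => (hpair0 b0 hP0 hbb p.1 m1 m2 (hstay _ ?_) ζ hζ).le
        refine List.mem_cons_of_mem _ ?_
        rw [List.mem_flatMap]
        exact ⟨p, hp, by simp⟩
      · refine lam_pair_le hP0 (hW _ m3).2.1 (hW _ m4).2.1 (hW _ m3).1 (hW _ m4).1
          fun ζ hζ => (hpair0 b0 hP0 hbb p.2 m3 m4 (hstay _ ?_) ζ hζ).le
        refine List.mem_cons_of_mem _ ?_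
        rw [List.mem_flatMap]
        exact ⟨p, hp, by simp⟩
    have hlen4 : (((maps L).map W).length : ℝ) = 4 * L.length := by
      rw [List.length_map, maps_length]
      push_cast
      ring
    have h2 := joinW_NN hP0 ((maps L).map W) (by
      intro w hw'
      rw [List.mem_map] at hw'
      obtain ⟨a, ha, rfl⟩ := hw'
      exact (hW a ha).2.1) (1 / (4 * (L.length : ℝ) + 1)) (by positivity)
    rw [hlen4] at h2
    refine NN.mono h2 ?_
    have h3 : 4 * (L.length : ℝ) * (1 / (4 * (L.length : ℝ) + 1)) ≤ 1 := by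
      rw [mul_one_div, div_le_one (by positivity)]
      linarith
    linarith
  refine Realises.mono (Realises_join W925.DP.t_comp ρ (maps L) W fun a ha => (hW a ha).2.2)
    (fun z hz => hstay _ (by simp) z hz) fun z _ => ?_
  rw [compL_maps]


/-- the two-level bound -/
theorem turn_le2 (L : List (Equiv.Perm ℂ × Equiv.Perm ℂ))
    (hL : ∀ p ∈ L, AP p.1 ∧ Id0 p.1 ∧ AP p.2 ∧ Id0 p.2) (θ : ℂ → ℝ)
    (hθc : ContinuousOn θ {0}ᶜ)
    (hθ : ∀ z : ℂ, z ≠ 0 → (L.map cmm).prod z / z =
      (‖(L.map cmm).prod z / z‖ : ℂ) *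
        Complex.exp (((2 * Real.pi * θ z : ℝ) : ℂ) * Complex.I))
    (hθ0 : ∃ r : ℝ, 0 < r ∧ ∀ z : ℂ, z ≠ 0 → ‖z‖ < r → θ z = 0) (κ κ' b0 b1 : ℝ)
    (hb0 : 0 < b0) (h01 : b0 ≤ b1) (hk : κ' < κ)
    (hκ : ∀ z, b0 ≤ ar z → ar z ≤ b1 → κ ≤ θ z) :
    κ' * (b1 - b0) ≤ 2 * L.length * (b1 + 1) + 4 * L.length * (b0 + 1) + 1 := by
  obtain ⟨hAP, hId⟩ := AP_prod hL
  obtain ⟨C, hC⟩ := crit_path _ hAP hId θ hθc hθ hθ0 1 one_pos
  obtain ⟨T, e, w, he, heb, hbT, hG, hR, hlow, hup⟩ := words2 L hL b0 b1 hb0 h01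
  have hNN1 := lip T e b0 b1 w he heb h01 (by linarith) hG κ κ' hk (by
    intro b hb ζ _ hcr
    have hb' : 0 < b := lt_of_lt_of_le hb0 hb.1
    have hP : Par b T e := ⟨he, lt_of_lt_of_le heb hb.1, by linarith [hb.2]⟩
    obtain ⟨h1, _⟩ := hC b T e (b1 + 1) w hP hG (by linarith [hb.2]) hR ζ hcr
    rw [h1]
    refine hκ _ ?_ ?_
    · rw [ar_E _ _ hb'.le]; exact hb.1
    · rw [ar_E _ _ hb'.le]; exact hb.2) _ hup
  have h6 := hlow _ hNN1
  linarith

end Pool.Agent.Q175.MW
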