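import Pool.Agent.Q175.MW.Seq
import Pool.Agent.Q175.MW.GermS
import Pool.Agent.Q175.MW.Two

/-! The Milnor-Wood inequality for locally uniform limits of area preserving diffeomorphisms -/

set_option autoImplicit false

open Filter Topology
open scoped commutatorElement

namespace Pool.Agent.Q175.MW

open Pool.Agent Pool.Agent.W710.DP Pool.Agent.Helper11.PlaneEuler

lemma preconnected_ann (r r1 : ℝ) (hr : 0 ≤ r) : IsPreconnected {z : ℂ | r < ‖z‖ ∧ ‖z‖ < r1} := by
  have h1 : IsPreconnected (Metric.sphere (0 : ℂ) 1) :=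
    isPreconnected_sphere (by rw [Complex.rank_real_complex]; exact Cardinal.one_lt_two) 0 1
  have h2 := (isPreconnected_Ioo (a := r) (b := r1)).prod h1
  have h3 := h2.image (fun p : ℝ × ℂ => (p.1 : ℂ) * p.2) (by fun_prop)
  have h4 : (fun p : ℝ × ℂ => (p.1 : ℂ) * p.2) '' (Set.Ioo r r1 ×ˢ Metric.sphere (0 : ℂ) 1) =
      {z : ℂ | r < ‖z‖ ∧ ‖z‖ < r1} := by
    ext z
    simp only [Set.mem_image, Set.mem_prod, Set.mem_Ioo, mem_sphere_zero_iff_norm, Prod.exists]
    constructor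
    · rintro ⟨t, u, ⟨ht, hu⟩, rfl⟩
      show r < ‖(t : ℂ) * u‖ ∧ ‖(t : ℂ) * u‖ < r1
      rw [norm_mul, hu, mul_one, Complex.norm_real, Real.norm_of_nonneg (hr.trans ht.1.le)]
      exact ht
    · intro hz
      have hz' : r < ‖z‖ ∧ ‖z‖ < r1 := hz
      have h0 : ‖z‖ ≠ 0 := (lt_of_le_of_lt hr hz'.1).ne'
      refine ⟨‖z‖, z / ‖z‖, ⟨hz', ?_⟩, ?_⟩
      · rw [norm_div, Complex.norm_real, norm_norm, div_self h0]
      · have : (‖z‖ : ℂ) ≠ 0 := by exact_mod_cast h0
        field_simp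
  rw [h4] at h3
  exact h3

/-- the ratio of two homeomorphisms, as seen from the origin -/
noncomputable def rat (F G : PlaneLift) (z : ℂ) : ℂ :=
  (G.homeo z - G.homeo 0) / (F.homeo z - F.homeo 0)

/-- normalisation of lifts on an annulus -/
lemma norm_lift_ann (F G : PlaneLift) (r r1 : ℝ) (hr : 0 ≤ r)
    (h : ∀ z : ℂ, r < ‖z‖ → ‖z‖ < r1 → ‖rat F G z - 1‖ < 1 / 2) :
    ∃ m : ℤ, ∀ z : ℂ, r < ‖z‖ → ‖z‖ < r1 →
      an (central m * G) 0 z - an F 0 z = Complex.arg (rat F G z) := by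
  by_cases hne : ∃ z1 : ℂ, r < ‖z1‖ ∧ ‖z1‖ < r1
  swap
  · exact ⟨0, fun z h1 h2 => absurd ⟨z, h1, h2⟩ hne⟩
  obtain ⟨z1, hz1⟩ := hne
  have hslit : ∀ z : ℂ, r < ‖z‖ → ‖z‖ < r1 → rat F G z ∈ Complex.slitPlane := by
    intro z hz hz'
    left
    have h3 : |(rat F G z - 1).re| ≤ ‖rat F G z - 1‖ := Complex.abs_re_le_norm _
    rw [Complex.sub_re, Complex.one_re] at h3
    have h4 := (abs_lt.mp (h3.trans_lt (h z hz hz'))).1
    linarith
  have hz00 : ∀ z : ℂ, r < ‖z‖ → (0 : ℂ) ≠ z := by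
    intro z hz e
    rw [← e, norm_zero] at hz
    linarith
  set f : ℂ → ℝ := fun z => an G 0 z - an F 0 z - Complex.arg (rat F G z) with hf
  have hfc : ContinuousOn f {z | r < ‖z‖ ∧ ‖z‖ < r1} := by
    intro z hz
    have hz0 := hz00 z hz.1
    have h6 : F.homeo z - F.homeo 0 ≠ 0 := sub_ne_zero.2 fun e => hz0 (F.homeo.injective e).symm
    have h7 : ContinuousAt (rat F G) z := by
      have hG := G.homeo.continuous
      have hF := F.homeo.continuous
      unfold rat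
      exact ContinuousAt.div (by fun_prop) (by fun_prop) h6
    have h8 : ContinuousAt (fun z => Complex.arg (rat F G z)) z :=
      ContinuousAt.comp (g := Complex.arg) (Complex.continuousAt_arg (hslit z hz.1 hz.2)) h7
    exact (((continuousAt_an_right G hz0).sub (continuousAt_an_right F hz0)).sub
      h8).continuousWithinAt
  have hfe : ∀ z : ℂ, r < ‖z‖ → Complex.exp ((f z : ℂ) * Complex.I) = 1 := by
    intro z hz
    have hz0 := hz00 z hz
    have s1 := an_spec G hz0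
    have s2 := an_spec F hz0
    set W1 := (G.homeo z - G.homeo 0) / (z - 0) with hW1
    set W2 := (F.homeo z - F.homeo 0) / (z - 0) with hW2
    have n1 : G.homeo z - G.homeo 0 ≠ 0 := sub_ne_zero.2 fun e => hz0 (G.homeo.injective e).symm
    have n2 : F.homeo z - F.homeo 0 ≠ 0 := sub_ne_zero.2 fun e => hz0 (F.homeo.injective e).symm
    have n3 : z - 0 ≠ 0 := sub_ne_zero.2 fun e => hz0 e.symm
    have m1 : 0 < ‖W1‖ := norm_pos_iff.2 (div_ne_zero n1 n3)
    have m2 : 0 < ‖W2‖ := norm_pos_iff.2 (div_ne_zero n2 n3)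
    have hρW : rat F G z = W1 / W2 := by
      unfold rat
      rw [hW1, hW2]
      field_simp
    have hW : rat F G z = ((‖W1‖ / ‖W2‖ : ℝ) : ℂ) *
        Complex.exp (((an G 0 z - an F 0 z : ℝ) : ℂ) * Complex.I) := by
      have h3 : ((an G 0 z - an F 0 z : ℝ) : ℂ) * Complex.I =
          (an G 0 z : ℂ) * Complex.I - (an F 0 z : ℂ) * Complex.I := by
        push_cast; ring
      rw [hρW, h3, Complex.exp_sub]
      nth_rewrite 1 [s1]
      nth_rewrite 1 [s2]
      push_cast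
      rw [mul_div_mul_comm]
    have hρ0 : 0 < ‖rat F G z‖ := by
      rw [hρW, norm_div]
      positivity
    have h5 := exp_eq_of (div_pos m1 m2) hρ0
      (hW.symm.trans (Complex.norm_mul_exp_arg_mul_I (rat F G z)).symm)
    have h6 : ((f z : ℝ) : ℂ) * Complex.I = ((an G 0 z - an F 0 z : ℝ) : ℂ) * Complex.I -
        ((Complex.arg (rat F G z) : ℝ) : ℂ) * Complex.I := by
      rw [hf]
      push_cast
      ring
    rw [h6, Complex.exp_sub, h5, div_self (Complex.exp_ne_zero _)]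
  have hconst : ∀ z : ℂ, r < ‖z‖ ∧ ‖z‖ < r1 → f z = f z1 := by
    intro z hz
    have : PreconnectedSpace {z : ℂ | r < ‖z‖ ∧ ‖z‖ < r1} :=
      Subtype.preconnectedSpace (preconnected_ann r r1 hr)
    exact Circle.isCoveringMap_exp.const_of_comp
      (g := fun t : {z : ℂ | r < ‖z‖ ∧ ‖z‖ < r1} => f t)
      (continuousOn_iff_continuous_domRestrict.1 hfc)
      (fun a b => by rw [circle_one_of (hfe _ a.2.1), circle_one_of (hfe _ b.2.1)])
      ⟨z, hz⟩ ⟨z1, hz1⟩
  have hk := circle_one_of (hfe z1 hz1.1)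
  rw [Circle.exp_eq_one] at hk
  obtain ⟨k, hk⟩ := hk
  refine ⟨-k, fun z hz1' hz2' => ?_⟩
  rw [an_central_mul _ _ (hz00 z hz1')]
  have h2 := hconst z ⟨hz1', hz2'⟩
  rw [hk] at h2
  rw [hf] at h2
  simp only at h2
  push_cast
  linarith

/-- limits, uniform on compact sets, of area preserving diffeomorphisms -/
def ApprK (f : ℂ → ℂ) : Prop :=
  ∀ (r ε : ℝ), 0 < ε → ∃ h : Equiv.Perm ℂ, AP h ∧ ∀ z : ℂ, ‖z‖ ≤ r → ‖h z - f z‖ < ε

/-- the approximations can be chosen with a prescribed value at the origin -/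
lemma ApprK.zero {f : ℂ → ℂ} (hf : ApprK f) (r ε : ℝ) (hr : 0 ≤ r) (hε : 0 < ε) :
    ∃ h : Equiv.Perm ℂ, AP h ∧ h 0 = f 0 ∧ ∀ z : ℂ, ‖z‖ ≤ r → ‖h z - f z‖ < ε := by
  obtain ⟨h, hh, hc⟩ := hf r (ε / 2) (by positivity)
  refine ⟨Equiv.addRight (f 0 - h 0) * h, AP_mul (W817.DP.AP_add _) hh, ?_, ?_⟩
  · show h 0 + (f 0 - h 0) = f 0
    ring
  · intro z hz
    have h0 := hc 0 (by simpa using hr)
    have h1 := hc z hz
    show ‖h z + (f 0 - h 0) - f z‖ < ε
    have e : h z + (f 0 - h 0) - f z = (h z - f z) - (h 0 - f 0) := by ring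
    rw [e]
    exact lt_of_le_of_lt (norm_sub_le _ _) (by linarith)

/-- approximation of a lift by lifts which are, up to the centre, in `G0` -/
theorem exists_CF (A : PlaneLift) (hA : ApprK A.homeo) :
    ∃ (F : ℕ → PlaneLift) (m : ℕ → ℤ), (∀ j, F j ∈ G0) ∧
      CF A (fun j => central (m j) * F j) := by
  obtain ⟨R, hR1, hR⟩ := alpha_small (A.homeo 0)
  have hAc := A.homeo.continuous
  -- the approximations
  have hex : ∀ j : ℕ, ∃ F ∈ G0, (∀ z : ℂ, ‖z‖ ≤ j → R + 1 < ‖A.homeo z‖ →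
      ‖F.homeo z - A.homeo z‖ < 1 / ((j : ℝ) + 1)) ∧
      ∀ z : ℂ, ‖z‖ ≤ j → ‖F.homeo z‖ ≤ max R (‖A.homeo z‖ + 1) := by
    intro j
    have hj1 : (1 : ℝ) / ((j : ℝ) + 1) ≤ 1 := by
      rw [div_le_one (by positivity)]
      have : (0 : ℝ) ≤ j := Nat.cast_nonneg j
      linarith
    obtain ⟨h, hh, hh0, hhc⟩ := hA.zero j (1 / ((j : ℝ) + 1)) (Nat.cast_nonneg j)
      (by positivity)
    obtain ⟨F, hF, hF1, hF2⟩ := hR h hh hh0
    refine ⟨F, hF, fun z hz hAz => ?_, fun z hz => ?_⟩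
    · have h1 := hhc z hz
      have h2 := norm_sub_norm_le (A.homeo z) (h z)
      rw [norm_sub_rev] at h2
      rw [hF1 z (by linarith)]
      exact h1
    · have h1 := hhc z hz
      have h2 := norm_sub_norm_le (h z) (A.homeo z)
      refine (hF2 z).trans (max_le_max le_rfl ?_)
      linarith
  choose F hF hF1 hF2 using hex
  have hF0 : ∀ j, (F j).homeo 0 = 0 := by
    intro j
    obtain ⟨_, r, hr, h2, _⟩ := hF j
    exact h2 0 (by simpa using hr)
  -- the ratio
  have hrat : ∀ ε : ℝ, 0 < ε → ∃ r0 : ℝ, 0 ≤ r0 ∧ ∀ (j : ℕ) (z : ℂ), r0 < ‖z‖ → ‖z‖ ≤ j →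
      ‖rat A (F j) z - 1‖ < ε := by
    intro ε hε
    have e1 : ∀ᶠ z in cocompact ℂ,
        (1 + ‖A.homeo 0‖) / ε + 1 + ‖A.homeo 0‖ + R < ‖A.homeo z‖ :=
      (tendsto_norm_cocompact_atTop.comp (tendsto_homeo A.homeo)).eventually_gt_atTop _
    obtain ⟨r0, hr0, hr⟩ := ev_iff e1
    refine ⟨r0, hr0.le, fun j z hz hzj => ?_⟩
    have h1 := hr z hz
    have h0A := norm_nonneg (A.homeo 0)
    have h4 : 0 ≤ (1 + ‖A.homeo 0‖) / ε := by positivity
    have hj1 : (1 : ℝ) / ((j : ℝ) + 1) ≤ 1 := by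
      rw [div_le_one (by positivity)]
      have : (0 : ℝ) ≤ j := Nat.cast_nonneg j
      linarith
    have h2 := hF1 j z hzj (by linarith)
    have h3 := norm_sub_norm_le (A.homeo z) (A.homeo 0)
    have h5 : 0 < ‖A.homeo z - A.homeo 0‖ := by linarith
    have h6 : A.homeo z - A.homeo 0 ≠ 0 := norm_pos_iff.1 h5
    unfold rat
    rw [hF0 j, div_sub_one h6, norm_div, div_lt_iff₀ h5]
    have h7 : ‖(F j).homeo z - 0 - (A.homeo z - A.homeo 0)‖ ≤ 1 + ‖A.homeo 0‖ := by
      have : (F j).homeo z - 0 - (A.homeo z - A.homeo 0) =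
        ((F j).homeo z - A.homeo z) + A.homeo 0 := by ring
      rw [this]
      exact (norm_add_le _ _).trans (by linarith)
    have h8 : (1 + ‖A.homeo 0‖) / ε < ‖A.homeo z - A.homeo 0‖ := by linarith
    rw [div_lt_iff₀ hε] at h8
    linarith
  obtain ⟨r0, hr0, hr0h⟩ := hrat (1 / 2) (by norm_num)
  have hm : ∀ j : ℕ, ∃ m : ℤ, ∀ z : ℂ, r0 < ‖z‖ → ‖z‖ < j →
      an (central m * F j) 0 z - an A 0 z = Complex.arg (rat A (F j) z) := fun j =>
    norm_lift_ann A (F j) r0 j hr0 fun z h1 h2 => hr0h j z h1 h2.le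
  choose m hm using hm
  have hhomeo : ∀ (j : ℕ) (z : ℂ), (central (m j) * F j).homeo z = (F j).homeo z :=
    fun j z => rfl
  refine ⟨F, m, hF, ?_, ?_, ?_⟩
  · -- graphs
    intro O hO hev
    obtain ⟨ra, _, ha⟩ := ev_iff hev
    have e1 : ∀ᶠ z in cocompact ℂ, R + 1 < ‖A.homeo z‖ :=
      (tendsto_norm_cocompact_atTop.comp (tendsto_homeo A.homeo)).eventually_gt_atTop _
    obtain ⟨rb, _, hb⟩ := ev_iff e1
    refine ⟨max ra rb + 1, fun r1 => ?_⟩
    -- a Lebesgue number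
    have hK : IsCompact ((fun z : ℂ => (z, A.homeo z)) ''
        (Metric.closedBall (0 : ℂ) r1 ∩ {z : ℂ | max ra rb + 1 ≤ ‖z‖})) :=
      ((isCompact_closedBall (0 : ℂ) r1).inter_right
        (isClosed_le continuous_const continuous_norm)).image (by fun_prop)
    have hKO : ((fun z : ℂ => (z, A.homeo z)) ''
        (Metric.closedBall (0 : ℂ) r1 ∩ {z : ℂ | max ra rb + 1 ≤ ‖z‖})) ⊆ O := by
      rintro _ ⟨z, ⟨_, hz⟩, rfl⟩
      refine ha z ?_
      have : max ra rb + 1 ≤ ‖z‖ := hz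
      linarith [le_max_left ra rb]
    obtain ⟨ε, hε, hεO⟩ := hK.exists_thickening_subset_open hO hKO
    obtain ⟨j1, hj1⟩ := exists_nat_gt (1 / ε)
    obtain ⟨j2, hj2⟩ := exists_nat_gt r1
    refine ⟨max j1 j2, fun j hj z hz1 hz2 => ?_⟩
    show (z, (F j).homeo z) ∈ O
    have hjj1 : (j1 : ℝ) ≤ j := by exact_mod_cast (le_max_left _ _).trans hj
    have hjj2 : (j2 : ℝ) ≤ j := by exact_mod_cast (le_max_right _ _).trans hj
    have h1 := hF1 j z (by linarith) (hb z (by linarith [le_max_right ra rb]))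
    refine hεO ?_
    rw [Metric.mem_thickening_iff]
    refine ⟨(z, A.homeo z), ⟨z, ⟨by rwa [mem_closedBall_zero_iff], hz1⟩, rfl⟩, ?_⟩
    rw [Prod.dist_eq, dist_self, dist_eq_norm]
    refine max_lt hε (h1.trans ?_)
    rw [one_div_lt (by positivity) hε]
    linarith
  · -- angles
    intro δ hδ
    have harg : ContinuousAt Complex.arg 1 := Complex.continuousAt_arg (by simp)
    rw [Metric.continuousAt_iff] at harg
    obtain ⟨η, hη, harg⟩ := harg δ hδ
    obtain ⟨ra, hra, hrah⟩ := hrat η hη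
    refine ⟨max ra r0 + 1, fun r1 => ?_⟩
    obtain ⟨j2, hj2⟩ := exists_nat_gt r1
    refine ⟨j2, fun j hj z hz1 hz2 => ?_⟩
    have hjj2 : (j2 : ℝ) ≤ j := by exact_mod_cast hj
    show |an (central (m j) * F j) 0 z - an A 0 z| < δ
    rw [hm j z (by linarith [le_max_right ra r0]) (by linarith)]
    have h1 := hrah j z (by linarith [le_max_left ra r0]) (by linarith)
    have h2 := harg (x := rat A (F j) z) (by rwa [dist_eq_norm])
    rwa [Complex.arg_one, Real.dist_eq, sub_zero] at h2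
  · -- bounds
    intro c
    obtain ⟨M, hM⟩ := ball_bound A.homeo c
    refine ⟨max R (M + 1), ?_⟩
    obtain ⟨j2, hj2⟩ := exists_nat_gt c
    filter_upwards [eventually_ge_atTop j2] with j hj z hz
    have hjj2 : (j2 : ℝ) ≤ j := by exact_mod_cast hj
    show ‖(F j).homeo z‖ ≤ _
    refine (hF2 j z (by linarith)).trans (max_le_max le_rfl ?_)
    linarith [hM z hz]

/-- two-level bound in `G0` -/
theorem G0_bound2 (L : List (PlaneLift × PlaneLift)) (hL : ∀ p ∈ L, p.1 ∈ G0 ∧ p.2 ∈ G0)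
    (κ κ' b0 b1 : ℝ) (hb0 : 0 < b0) (h01 : b0 ≤ b1) (hk : κ' < κ)
    (h : ∀ z, b0 ≤ ar z → ar z ≤ b1 → 2 * Real.pi * κ ≤ an (cl L) 0 z) :
    κ' * (b1 - b0) ≤ 2 * L.length * (b1 + 1) + 4 * L.length * (b0 + 1) + 1 := by
  have hpi := Real.pi_pos
  have hmem : cl L ∈ G0 := by
    unfold cl
    refine Subgroup.list_prod_mem _ fun x hx => ?_
    obtain ⟨p, hp, rfl⟩ := List.mem_map.1 hx
    obtain ⟨h1, h2⟩ := hL p hp
    rw [commutatorElement_def]
    exact G0.mul_mem (G0.mul_mem (G0.mul_mem h1 h2) (G0.inv_mem h1)) (G0.inv_mem h2)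
  obtain ⟨_, r, hr, h2, h3⟩ := hmem
  have hlen : ((L.map fun p => (toPerm p.1, toPerm p.2)).length : ℝ) = L.length := by simp
  rw [← hlen]
  have h0 : (cl L).homeo 0 = 0 := h2 0 (by simpa using hr)
  refine turn_le2 _ ?_ (fun z => an (cl L) 0 z / (2 * Real.pi)) ?_ ?_ ?_ κ κ' b0 b1 hb0 h01 hk ?_
  · intro q hq
    obtain ⟨p, hp, rfl⟩ := List.mem_map.1 hq
    obtain ⟨⟨a1, s1, hs1, a2, _⟩, ⟨b1, t1, ht1, b2, _⟩⟩ := hL p hp
    exact ⟨a1, ⟨s1, hs1, a2⟩, b1, ⟨t1, ht1, b2⟩⟩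
  · intro z hz
    have hz' : (0 : ℂ) ≠ z := fun e => hz e.symm
    exact ((continuousAt_an_right (cl L) hz').div_const _).continuousWithinAt
  · intro z hz
    have hz' : (0 : ℂ) ≠ z := fun e => hz e.symm
    have h4 := an_spec (cl L) hz'
    rw [h0, sub_zero, sub_zero] at h4
    rw [prod_cmm, toPerm_apply]
    have e1 : 2 * Real.pi * (an (cl L) 0 z / (2 * Real.pi)) = an (cl L) 0 z := by
      field_simp
    rw [e1]
    exact h4
  · refine ⟨r, hr, fun z hz hzr => ?_⟩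
    rw [h3 0 z (fun e => hz e.symm) (by simpa using hr) hzr, zero_div]
  · intro z hz hz'
    have h6 := h z hz hz'
    rw [le_div_iff₀ (by positivity)]
    linarith

/-- products of `m` commutators of words turn by at most `2 m + 1` -/
theorem turn_wordK {ι : Type} (A : ι → PlaneLift) (hA : ∀ i, ApprK (A i).homeo)
    (L : List (FreeGroup ι × FreeGroup ι)) (M : ℝ)
    (hM : ∀ᶠ z in cocompact ℂ, an (FreeGroup.lift A (cl L)) 0 z = 2 * Real.pi * M) :
    M - 1 ≤ 2 * L.length := by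
  have hpi := Real.pi_pos
  choose F m hF hCF using fun i => exists_CF (A i) (hA i)
  have hw := CF.word A (fun j i => central (m i j) * F i j) hCF (cl L)
  obtain ⟨r0, hr0⟩ := FF_iff.1 ((hw.ang Real.pi hpi).and (snd_FF.eventually hM))
  -- the elements of G0
  have h4 : ∀ j, FreeGroup.lift (fun i => central (m i j) * F i j) (cl L) =
      cl (L.map fun p => (FreeGroup.lift (fun i => F i j) p.1,
        FreeGroup.lift (fun i => F i j) p.2)) := by
    intro j
    rw [cl_map]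
    unfold cl
    rw [List.map_map, List.map_map]
    congr 1
    refine List.map_congr_left fun p _ => ?_
    obtain ⟨k, hk⟩ := lift_central (fun i => m i j) (fun i => F i j) p.1
    obtain ⟨l, hl⟩ := lift_central (fun i => m i j) (fun i => F i j) p.2
    simp only [Function.comp]
    rw [hk, hl, comm_central']
  set b0 : ℝ := Real.pi * (|r0| + 1) ^ 2 with hb0
  have hb0p : 0 < b0 := by positivity
  by_contra hcon
  push Not at hcon
  set κ : ℝ := M - 1 / 2 with hκ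
  set κ' : ℝ := M - 1 with hκ'
  have hl0 : (0 : ℝ) ≤ L.length := Nat.cast_nonneg _
  set d : ℝ := κ' - 2 * L.length with hd
  have hd0 : 0 < d := by linarith
  set b1 : ℝ := b0 + (2 * L.length * (b0 + 1) + 4 * L.length * (b0 + 1) + 2) / d with hb1
  have hq : 0 < 2 * L.length * (b0 + 1) + 4 * L.length * (b0 + 1) + 2 := by positivity
  have h01 : b0 ≤ b1 := by
    have := div_pos hq hd0
    linarith
  obtain ⟨j0, hj0⟩ := hr0 (b1 / Real.pi + 1)
  have h5 := hj0 j0 le_rfl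
  have h6 := G0_bound2 (L.map fun p => (FreeGroup.lift (fun i => F i j0) p.1,
    FreeGroup.lift (fun i => F i j0) p.2)) (by
    intro q hq
    obtain ⟨p, _, rfl⟩ := List.mem_map.1 hq
    exact ⟨lift_mem G0 _ (fun i => hF i j0) p.1, lift_mem G0 _ (fun i => hF i j0) p.2⟩)
    κ κ' b0 b1 hb0p h01 (by linarith) (by
    intro z hz1 hz2
    have e1 : |r0| + 1 ≤ ‖z‖ := by
      have h6 : (|r0| + 1) ^ 2 ≤ ‖z‖ ^ 2 := by
        unfold ar at hz1
        exact le_of_mul_le_mul_left hz1 hpi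
      exact (pow_le_pow_iff_left₀ (by positivity) (norm_nonneg z) two_ne_zero).1 h6
    have e2 : ‖z‖ ≤ b1 / Real.pi + 1 := by
      have h6 : ‖z‖ ^ 2 ≤ b1 / Real.pi := by
        rw [le_div_iff₀ hpi, mul_comm]
        exact hz2
      nlinarith [norm_nonneg z, sq_nonneg (‖z‖ - 1)]
    have e3 := h5 z (by linarith [le_abs_self r0]) e2
    obtain ⟨e4, e5⟩ := e3
    simp only at e4 e5
    rw [h4, e5, abs_lt] at e4
    rw [hκ]
    linarith [e4.1])
  rw [List.length_map] at h6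
  have h7 : d * (b1 - b0) = 2 * L.length * (b0 + 1) + 4 * L.length * (b0 + 1) + 2 := by
    rw [hb1]
    field_simp
    ring
  have h8 : κ' * (b1 - b0) = d * (b1 - b0) + 2 * L.length * (b1 - b0) := by
    rw [hd]; ring
  rw [h8, h7] at h6
  linarith

/-- the Milnor-Wood inequality, for locally uniform limits -/
theorem milnor_woodK (k : ℕ) (A : Fin (k + 1) ⊕ Fin (k + 1) → PlaneLift)
    (hA : ∀ i, ApprK (A i).homeo) (n : ℤ)
    (hn : FreeGroup.lift A (surfaceRelator (k + 1)) = central n) : |n| ≤ 2 * k := by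
  obtain ⟨L, hL, hw⟩ := exists_word k 4
  have h1 := hw PlaneLift (FreeGroup.lift A) (central n) (central_comm n) hn
  have h2 := turn_wordK A hA L (n * (4 : ℕ)) (by
    filter_upwards [ev_ne_zero] with z hz
    rw [h1, an_central_pow n 4 hz.symm])
  have h3 := turn_wordK A hA (L.reverse.map Prod.swap) (-(n * (4 : ℕ))) (by
    filter_upwards [ev_ne_zero] with z hz
    rw [← cl_inv, map_inv, h1, an_central_pow_inv n 4 hz.symm]
    ring)
  rw [List.length_map, List.length_reverse] at h3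
  rw [hL] at h2 h3
  push_cast at h2 h3
  have h4 : (n : ℝ) < 2 * k + 1 := by linarith
  have h5 : -(2 * (k : ℝ) + 1) < n := by linarith
  have h6 : n < 2 * k + 1 := by exact_mod_cast h4
  have h7 : -(2 * (k : ℤ) + 1) < n := by exact_mod_cast h5
  rw [abs_le]
  constructor <;> omega

end Pool.Agent.Q175.MW
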