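import Pool.Agent.Q175.MW.Main

/-! Locally uniform limits of lifts, away from a fixed disc: stability of words -/

set_option autoImplicit false

open Filter Topology

namespace Pool.Agent.Q175.MW

open Pool.Agent.Helper11.PlaneEuler

/-- quantitative version of `an_near` -/
lemma an_near_q (ε : ℝ) (hε : 0 < ε) (M c0 : ℝ) (hM0 : 0 ≤ M) (_hc0 : 0 ≤ c0) :
    ∃ K : ℝ, ∀ (F : PlaneLift) (c w : ℂ), ‖c‖ ≤ c0 →
      (∀ t ∈ Set.Icc (0 : ℝ) 1, ‖F.homeo (t * c)‖ ≤ M) → K < ‖w‖ → K < ‖F.homeo w‖ →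
      |an F c w - an F 0 w| < ε := by
  obtain ⟨δ, hδ, hsm⟩ := small_of_exp ε hε
  set η := min (δ / 8) (1 / 16) with hη
  have hη0 : 0 < η := by positivity
  refine ⟨max (2 * c0 / η + 2 * c0 + 1) (4 * M / η + 2 * M + 1), ?_⟩
  intro F c w hcc hM' hw1' hw2'
  have hw1 : 2 * ‖c‖ / η + 2 * ‖c‖ + 1 < ‖w‖ := by
    refine lt_of_le_of_lt ?_ (lt_of_le_of_lt (le_max_left _ _) hw1')
    have : 2 * ‖c‖ / η ≤ 2 * c0 / η := by gcongr
    linarith
  have hw2 : 4 * M / η + 2 * M + 1 < ‖F.homeo w‖ := lt_of_le_of_lt (le_max_right _ _) hw2'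
  have hwne : ∀ t ∈ Set.Icc (0 : ℝ) 1, (t : ℂ) * c ≠ w := by
    intro t ht he
    have h1 : ‖(t : ℂ) * c‖ ≤ ‖c‖ := by
      rw [norm_mul, Complex.norm_real, Real.norm_of_nonneg ht.1]
      nlinarith [ht.2, norm_nonneg c]
    rw [he] at h1
    have : 0 ≤ 2 * ‖c‖ / η := by positivity
    have := norm_nonneg c
    linarith
  set f : ℝ → ℝ := fun t => an F (t * c) w - an F 0 w with hf
  have hf0 : f 0 = 0 := by simp [hf]
  have hfc : ContinuousOn f (Set.Icc 0 1) := by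
    intro t ht
    have h1 : ContinuousAt (fun s : ℝ => an F (s * c) w) t :=
      ContinuousAt.comp (g := fun u => an F u w) (f := fun s : ℝ => (s : ℂ) * c)
        (continuousAt_an_left F (hwne t ht)) (by fun_prop)
    exact (h1.sub continuousAt_const).continuousWithinAt
  have h0w : (0 : ℂ) ≠ w := by
    have := hwne 0 (by simp)
    simpa using this
  -- quotient estimate
  have hq : ∀ t ∈ Set.Icc (0 : ℝ) 1,
      ‖Complex.exp (f t * Complex.I) - 1‖ ≤ 2 * (3 * η) := by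
    intro t ht
    have s1 := an_spec F (hwne t ht)
    have s2 := an_spec F h0w
    set W1 := (F.homeo w - F.homeo (t * c)) / (w - t * c) with hW1
    set W2 := (F.homeo w - F.homeo 0) / (w - 0) with hW2
    have n1 : F.homeo w - F.homeo (t * c) ≠ 0 :=
      sub_ne_zero.2 fun e => hwne t ht (F.homeo.injective e).symm
    have n2 : F.homeo w - F.homeo 0 ≠ 0 := sub_ne_zero.2 fun e => h0w (F.homeo.injective e).symm
    have n3 : w - (t : ℂ) * c ≠ 0 := sub_ne_zero.2 fun e => hwne t ht e.symm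
    have n4 : w - 0 ≠ 0 := sub_ne_zero.2 fun e => h0w e.symm
    have m1 : 0 < ‖W1‖ := norm_pos_iff.2 (div_ne_zero n1 n3)
    have m2 : 0 < ‖W2‖ := norm_pos_iff.2 (div_ne_zero n2 n4)
    have hW : W1 / W2 = ‖W1 / W2‖ * Complex.exp (f t * Complex.I) := by
      have h3 : ((f t : ℝ) : ℂ) * Complex.I =
          (an F (t * c) w : ℂ) * Complex.I - (an F 0 w : ℂ) * Complex.I := by
        rw [hf]; push_cast; ring
      rw [h3, Complex.exp_sub, norm_div]
      nth_rewrite 1 [s1]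
      nth_rewrite 1 [s2]
      push_cast
      rw [mul_div_mul_comm]
    have hun : ‖Complex.exp (f t * Complex.I)‖ = 1 := Complex.norm_exp_ofReal_mul_I _
    refine (unit_close hun hW).trans (mul_le_mul_of_nonneg_left ?_ zero_le_two)
    rw [hW1, hW2, div_close n2 n3 n4]
    have h0M := hM' 0 (by simp)
    simp only [Complex.ofReal_zero, zero_mul] at h0M
    -- first factor
    have a1 : ‖(F.homeo w - F.homeo (t * c)) / (F.homeo w - F.homeo 0) - 1‖ ≤ η := by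
      rw [div_sub_one n2, norm_div, div_le_iff₀ (norm_pos_iff.2 n2)]
      have h1 : ‖F.homeo w - F.homeo (t * c) - (F.homeo w - F.homeo 0)‖ ≤ 2 * M := by
        have : F.homeo w - F.homeo (t * c) - (F.homeo w - F.homeo 0) =
          F.homeo 0 - F.homeo (t * c) := by ring
        rw [this]
        have h2 := hM' t ht
        exact (norm_sub_le _ _).trans (by linarith)
      have h2 : 4 * M / η < ‖F.homeo w - F.homeo 0‖ := by
        have h4 := norm_sub_norm_le (F.homeo w) (F.homeo 0)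
        linarith
      rw [div_lt_iff₀ hη0] at h2
      linarith
    have hc0' := norm_nonneg c
    have a2 : ‖(w - 0) / (w - t * c) - 1‖ ≤ η := by
      rw [div_sub_one n3, norm_div, div_le_iff₀ (norm_pos_iff.2 n3)]
      have h1 : ‖w - 0 - (w - (t : ℂ) * c)‖ ≤ ‖c‖ := by
        have : w - 0 - (w - (t : ℂ) * c) = (t : ℂ) * c := by ring
        rw [this, norm_mul, Complex.norm_real, Real.norm_of_nonneg ht.1]
        nlinarith [ht.2]
      have h2 : 2 * ‖c‖ / η < ‖w - t * c‖ := by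
        have h4 := norm_sub_norm_le w ((t : ℂ) * c)
        have h5 : ‖(t : ℂ) * c‖ ≤ ‖c‖ := by
          rw [norm_mul, Complex.norm_real, Real.norm_of_nonneg ht.1]
          nlinarith [ht.2]
        linarith
      rw [div_lt_iff₀ hη0] at h2
      linarith
    have a3 : ‖(w - 0) / (w - t * c)‖ ≤ 2 := by
      have h1 := norm_sub_norm_le ((w - 0) / (w - t * c)) 1
      rw [norm_one] at h1
      have : η ≤ 1 / 16 := min_le_right _ _
      linarith
    calc _ ≤ ‖(F.homeo w - F.homeo (t * c)) / (F.homeo w - F.homeo 0) - 1‖ *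
          ‖(w - 0) / (w - t * c)‖ + ‖(w - 0) / (w - t * c) - 1‖ := by
            refine (norm_add_le _ _).trans ?_
            rw [norm_mul]
      _ ≤ η * 2 + η := by
          refine add_le_add (mul_le_mul a1 a3 (norm_nonneg _) hη0.le) a2
      _ = 3 * η := by ring
  have hη1 : η ≤ 1 / 16 := min_le_right _ _
  have hη2 : η ≤ δ / 8 := min_le_left _ _
  have h1 : |f 1| < Real.pi / 2 := by
    refine small_of_cos hfc (by rw [hf0, abs_zero]; positivity) fun t ht => ?_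
    exact cos_pos_of_exp (lt_of_le_of_lt (hq t ht) (by linarith))
  have h2 := hsm (f 1) h1 (lt_of_le_of_lt (hq 1 (by simp)) (by linarith))
  simpa [hf] using h2

/-- pairs `(j, z)` with `z` large, and `j` large depending on `z` -/
def FF : Filter (ℕ × ℂ) where
  sets := {S | ∃ r0 : ℝ, ∀ r1 : ℝ, ∃ j0 : ℕ, ∀ j ≥ j0, ∀ z : ℂ, r0 ≤ ‖z‖ → ‖z‖ ≤ r1 →
    (j, z) ∈ S}
  univ_sets := ⟨0, fun _ => ⟨0, fun _ _ _ _ _ => trivial⟩⟩
  sets_of_superset := by
    rintro S T ⟨r0, h⟩ hST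
    exact ⟨r0, fun r1 => (h r1).imp fun j0 h j hj z h1 h2 => hST (h j hj z h1 h2)⟩
  inter_sets := by
    rintro S T ⟨r0, h⟩ ⟨r0', h'⟩
    refine ⟨max r0 r0', fun r1 => ?_⟩
    obtain ⟨j0, h1⟩ := h r1
    obtain ⟨j0', h1'⟩ := h' r1
    exact ⟨max j0 j0', fun j hj z h2 h3 =>
      ⟨h1 j ((le_max_left _ _).trans hj) z ((le_max_left _ _).trans h2) h3,
        h1' j ((le_max_right _ _).trans hj) z ((le_max_right _ _).trans h2) h3⟩⟩

lemma FF_iff {P : ℕ × ℂ → Prop} : (∀ᶠ y in FF, P y) ↔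
    ∃ r0 : ℝ, ∀ r1 : ℝ, ∃ j0 : ℕ, ∀ j ≥ j0, ∀ z : ℂ, r0 ≤ ‖z‖ → ‖z‖ ≤ r1 → P (j, z) :=
  Iff.rfl

lemma snd_FF : Tendsto Prod.snd FF (cocompact ℂ) := by
  intro S hS
  obtain ⟨r, _, hr⟩ := ev_iff (P := fun z => z ∈ S) hS
  exact ⟨r + 1, fun _ => ⟨0, fun j _ z hz _ => hr z (by linarith)⟩⟩

lemma fst_FF : Tendsto Prod.fst FF atTop := by
  intro S hS
  obtain ⟨j0, hj0⟩ := mem_atTop_sets.1 hS
  exact ⟨0, fun _ => ⟨j0, fun j hj z _ _ => hj0 j hj⟩⟩

/-- `G j` tends to `F` locally uniformly away from a disc -/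
structure CF (F : PlaneLift) (G : ℕ → PlaneLift) : Prop where
  gr : ∀ O : Set (ℂ × ℂ), IsOpen O → (∀ᶠ z in cocompact ℂ, (z, F.homeo z) ∈ O) →
    ∀ᶠ y in FF, (y.2, (G y.1).homeo y.2) ∈ O
  ang : ∀ δ > 0, ∀ᶠ y in FF, |an (G y.1) 0 y.2 - an F 0 y.2| < δ
  bd : ∀ c : ℝ, ∃ M : ℝ, ∀ᶠ j in atTop, ∀ z : ℂ, ‖z‖ ≤ c → ‖(G j).homeo z‖ ≤ M

lemma CF.close {F : PlaneLift} {G : ℕ → PlaneLift} (h : CF F G) :
    ∀ᶠ y in FF, ‖(G y.1).homeo y.2 - F.homeo y.2‖ < 1 := by
  have hF := F.homeo.continuous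
  refine h.gr {p | ‖p.2 - F.homeo p.1‖ < 1} (isOpen_lt (by fun_prop) continuous_const)
    (Filter.Eventually.of_forall fun z => ?_)
  show ‖F.homeo z - F.homeo z‖ < 1
  rw [sub_self, norm_zero]
  exact one_pos

lemma ball_bound (f : ℂ ≃ₜ ℂ) (r : ℝ) : ∃ M : ℝ, ∀ z : ℂ, ‖z‖ ≤ r → ‖f z‖ ≤ M := by
  obtain ⟨M, hM⟩ := (isCompact_closedBall (0 : ℂ) r).exists_bound_of_continuousOn
    (f := fun z => f z) f.continuous.continuousOn
  exact ⟨M, fun z hz => hM z (by rwa [mem_closedBall_zero_iff])⟩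

lemma CF.tend {F : PlaneLift} {G : ℕ → PlaneLift} (h : CF F G) :
    Tendsto (fun y : ℕ × ℂ => (y.1, (G y.1).homeo y.2)) FF FF := by
  rintro S ⟨r0', hS⟩
  obtain ⟨ra, ha⟩ := h.close
  have e : ∀ᶠ z in cocompact ℂ, r0' + 1 < ‖F.homeo z‖ :=
    (tendsto_norm_cocompact_atTop.comp (tendsto_homeo F.homeo)).eventually_gt_atTop _
  obtain ⟨rb, _, hb⟩ := ev_iff e
  refine ⟨max ra (rb + 1), fun r1 => ?_⟩
  obtain ⟨M1, hM1⟩ := ball_bound F.homeo r1
  obtain ⟨j1, h1⟩ := ha r1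
  obtain ⟨j2, h2⟩ := hS (M1 + 1)
  refine ⟨max j1 j2, fun j hj z hz1 hz2 => ?_⟩
  have c1 : ‖(G j).homeo z - F.homeo z‖ < 1 :=
    h1 j ((le_max_left _ _).trans hj) z ((le_max_left _ _).trans hz1) hz2
  have c2 := hb z (by linarith [(le_max_right ra (rb + 1)).trans hz1])
  have c3 := norm_sub_norm_le (F.homeo z) ((G j).homeo z)
  have c4 := norm_sub_norm_le ((G j).homeo z) (F.homeo z)
  have c5 := hM1 z hz2
  rw [norm_sub_rev] at c3
  exact h2 j ((le_max_right _ _).trans hj) _ (by linarith) (by linarith)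

lemma CF.bd_inv {F : PlaneLift} {G : ℕ → PlaneLift} (h : CF F G) (c : ℝ) :
    ∃ M : ℝ, ∀ᶠ j in atTop, ∀ w : ℂ, ‖w‖ ≤ c → ‖(G j).homeo⁻¹ w‖ ≤ M := by
  obtain ⟨M0, hM0⟩ := h.bd 0
  set c' : ℝ := max c M0 with hc'
  obtain ⟨ra, ha⟩ := h.close
  have e : ∀ᶠ z in cocompact ℂ, c' + 1 < ‖F.homeo z‖ :=
    (tendsto_norm_cocompact_atTop.comp (tendsto_homeo F.homeo)).eventually_gt_atTop _
  obtain ⟨rb, hrb, hb⟩ := ev_iff e
  set ρ : ℝ := max ra (rb + 1) with hρ
  obtain ⟨j1, h1⟩ := ha ρ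
  refine ⟨ρ, ?_⟩
  filter_upwards [hM0, eventually_ge_atTop j1] with j hj1 hj2
  have hρ0 : 0 < ρ := by
    have := le_max_right ra (rb + 1)
    linarith
  have hcirc : ∀ z : ℂ, ‖z‖ = ρ → c' < ‖(G j).homeo z‖ := by
    intro z hz
    have c1 : ‖(G j).homeo z - F.homeo z‖ < 1 :=
      h1 j hj2 z (by rw [hz]; exact le_max_left _ _) hz.le
    have c2 := hb z (by rw [hz]; linarith [le_max_right ra (rb + 1)])
    have c3 := norm_sub_norm_le (F.homeo z) ((G j).homeo z)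
    rw [norm_sub_rev] at c3
    linarith
  intro w hw
  by_contra hcon
  rw [not_le] at hcon
  have hpre : IsPreconnected (Metric.closedBall (0 : ℂ) c') :=
    (convex_closedBall (0 : ℂ) c').isPreconnected
  have hw0 : (G j).homeo 0 ∈ Metric.closedBall (0 : ℂ) c' := by
    rw [mem_closedBall_zero_iff]
    exact (hj1 0 (by simp)).trans (le_max_right _ _)
  have hw1 : w ∈ Metric.closedBall (0 : ℂ) c' := by
    rw [mem_closedBall_zero_iff]
    exact hw.trans (le_max_left _ _)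
  have hcont : ContinuousOn (fun w : ℂ => ‖(G j).homeo⁻¹ w‖) (Metric.closedBall (0 : ℂ) c') := by
    have := (G j).homeo⁻¹.continuous
    exact this.norm.continuousOn
  have h0 : ‖(G j).homeo⁻¹ ((G j).homeo 0)‖ = 0 := by
    have e1 : (G j).homeo⁻¹ ((G j).homeo 0) = 0 := (G j).homeo.symm_apply_apply 0
    rw [e1, norm_zero]
  obtain ⟨w', hw', he⟩ := hpre.intermediate_value hw0 hw1 hcont
    (show ρ ∈ Set.Icc ‖(G j).homeo⁻¹ ((G j).homeo 0)‖ ‖(G j).homeo⁻¹ w‖ from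
      ⟨by rw [h0]; exact hρ0.le, hcon.le⟩)
  have h2 := hcirc _ he
  have e2 : (G j).homeo ((G j).homeo⁻¹ w') = w' := (G j).homeo.apply_symm_apply w'
  rw [e2] at h2
  rw [mem_closedBall_zero_iff] at hw'
  linarith

lemma CF.tend_inv {F : PlaneLift} {G : ℕ → PlaneLift} (h : CF F G) :
    Tendsto (fun y : ℕ × ℂ => (y.1, (G y.1).homeo⁻¹ y.2)) FF FF := by
  rintro S ⟨r0', hS⟩
  obtain ⟨M, hM⟩ := h.bd r0'
  refine ⟨M + 1, fun r1 => ?_⟩
  obtain ⟨M1, hM1⟩ := h.bd_inv r1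
  obtain ⟨j2, h2⟩ := hS M1
  obtain ⟨j1, hj1⟩ := (hM.and hM1).exists_forall_of_atTop
  refine ⟨max j1 j2, fun j hj w hw1 hw2 => ?_⟩
  obtain ⟨k1, k2⟩ := hj1 j ((le_max_left _ _).trans hj)
  refine h2 j ((le_max_right _ _).trans hj) _ ?_ (k2 w hw2)
  by_contra hcon
  rw [not_le] at hcon
  have k3 := k1 _ hcon.le
  have e2 : (G j).homeo ((G j).homeo⁻¹ w) = w := (G j).homeo.apply_symm_apply w
  rw [e2] at k3
  linarith

/-- the angle around a bounded point, along the sequence -/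
lemma CF.near {F : PlaneLift} {G : ℕ → PlaneLift} (h : CF F G) (p : ℕ → ℂ) (c0 : ℝ)
    (hp : ∀ᶠ j in atTop, ‖p j‖ ≤ c0) (δ : ℝ) (hδ : 0 < δ) :
    ∀ᶠ y in FF, |an (G y.1) (p y.1) y.2 - an (G y.1) 0 y.2| < δ := by
  obtain ⟨M, hM⟩ := h.bd c0
  obtain ⟨K, hK⟩ := an_near_q δ hδ (max M 0) (max c0 0) (le_max_right _ _) (le_max_right _ _)
  have e1 : ∀ᶠ y in FF, K < ‖y.2‖ := snd_FF.eventually
    (tendsto_norm_cocompact_atTop.eventually_gt_atTop K)
  have e2 : ∀ᶠ y in FF, K < ‖(G y.1).homeo y.2‖ := h.tend.eventually e1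
  filter_upwards [e1, e2, fst_FF.eventually hM, fst_FF.eventually hp] with y h1 h2 h3 h4
  refine hK _ _ _ (h4.trans (le_max_left _ _)) (fun t ht => (h3 _ ?_).trans (le_max_left _ _))
    h1 h2
  rw [norm_mul, Complex.norm_real, Real.norm_of_nonneg ht.1]
  nlinarith [ht.2, norm_nonneg (p y.1)]

lemma CF.mul {F1 F2 : PlaneLift} {G1 G2 : ℕ → PlaneLift} (h1 : CF F1 G1) (h2 : CF F2 G2) :
    CF (F1 * F2) (fun j => G1 j * G2 j) where
  gr := by
    intro O hO hev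
    obtain ⟨U, V, hU, hV, hUe, hVe, hUV⟩ := comp_nbhd F2.homeo F1.homeo O hO hev
    filter_upwards [h2.gr U hU hUe, h2.tend.eventually (h1.gr V hV hVe)] with y k1 k2
    exact hUV _ _ _ k1 k2
  ang := by
    intro δ hδ
    have hδ8 : 0 < δ / 8 := by positivity
    obtain ⟨O2, hO2, hO2e, hO2a⟩ := open_an F1 F2.homeo (δ / 8) hδ8
    obtain ⟨c0, hc0⟩ := h2.bd 0
    have e1 := h2.tend.eventually (h1.near (fun j => (G2 j).homeo 0) c0
      (hc0.mono fun j hj => hj 0 (by simp)) (δ / 8) hδ8)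
    have e2 := h2.tend.eventually (h1.ang (δ / 8) hδ8)
    have e3 := h2.gr O2 hO2 hO2e
    have e4 := h2.ang (δ / 8) hδ8
    have e5 := snd_FF.eventually (ev_abs (an_cocycle F1 F2) (δ / 8) hδ8)
    have e6 := snd_FF.eventually ev_ne_zero
    filter_upwards [e1, e2, e3, e4, e5, e6] with y k1 k2 k3 k4 k5 k6
    have k7 := hO2a _ k3
    rw [an_mul (G1 y.1) (G2 y.1) k6.symm]
    simp only at k7 k1 k2
    rw [abs_lt] at k1 k2 k4 k5 k7 ⊢
    constructor <;> linarith [k1.1, k1.2, k2.1, k2.2, k4.1, k4.2, k5.1, k5.2, k7.1, k7.2]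
  bd := by
    intro c
    obtain ⟨M2, hM2⟩ := h2.bd c
    obtain ⟨M1, hM1⟩ := h1.bd M2
    refine ⟨M1, ?_⟩
    filter_upwards [hM1, hM2] with j k1 k2 z hz
    exact k1 _ (k2 z hz)

lemma CF.inv {F : PlaneLift} {G : ℕ → PlaneLift} (h : CF F G) :
    CF F⁻¹ (fun j => (G j)⁻¹) where
  gr := by
    intro O hO hev
    have e1 : ∀ᶠ z in cocompact ℂ, (z, F.homeo z) ∈ Prod.swap ⁻¹' O := by
      filter_upwards [(tendsto_homeo F.homeo).eventually hev] with z hz
      have e : (F⁻¹).homeo (F.homeo z) = z := F.homeo.symm_apply_apply z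
      rw [e] at hz
      exact hz
    have e2 := h.gr _ (hO.preimage continuous_swap) e1
    filter_upwards [h.tend_inv.eventually e2] with y hy
    have e : (G y.1).homeo ((G y.1).homeo⁻¹ y.2) = y.2 := (G y.1).homeo.apply_symm_apply y.2
    rw [e] at hy
    exact hy
  ang := by
    intro δ hδ
    have hδ8 : 0 < δ / 8 := by positivity
    obtain ⟨O2, hO2, hO2e, hO2a⟩ := open_an F F.homeo⁻¹ (δ / 8) hδ8
    have e3 : ∀ᶠ y in FF, (y.2, (G y.1).homeo⁻¹ y.2) ∈ O2 := by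
      have e1 : ∀ᶠ z in cocompact ℂ, (z, F.homeo z) ∈ Prod.swap ⁻¹' O2 := by
        filter_upwards [(tendsto_homeo F.homeo).eventually hO2e] with z hz
        have e : F.homeo⁻¹ (F.homeo z) = z := F.homeo.symm_apply_apply z
        rw [e] at hz
        exact hz
      have e2 := h.gr _ (hO2.preimage continuous_swap) e1
      filter_upwards [h.tend_inv.eventually e2] with y hy
      have e : (G y.1).homeo ((G y.1).homeo⁻¹ y.2) = y.2 := (G y.1).homeo.apply_symm_apply y.2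
      rw [e] at hy
      exact hy
    obtain ⟨c0, hc0⟩ := h.bd_inv 0
    have e1 := h.tend_inv.eventually (h.near (fun j => (G j).homeo⁻¹ 0) c0
      (hc0.mono fun j hj => hj 0 (by simp)) (δ / 8) hδ8)
    have e2 := h.tend_inv.eventually (h.ang (δ / 8) hδ8)
    have e5 := snd_FF.eventually (ev_abs (an_inv F) (δ / 8) hδ8)
    have e6 := snd_FF.eventually ev_ne_zero
    filter_upwards [e1, e2, e3, e5, e6] with y k1 k2 k3 k5 k6
    have k7 := hO2a _ k3
    have k8 := an_mul (G y.1) (G y.1)⁻¹ k6.symm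
    rw [mul_inv_cancel, an_one, inv_homeo] at k8
    simp only at k7 k1 k2
    rw [abs_lt] at k1 k2 k5 k7 ⊢
    constructor <;> linarith [k1.1, k1.2, k2.1, k2.2, k5.1, k5.2, k7.1, k7.2]
  bd := fun c => h.bd_inv c

lemma CF.one : CF 1 (fun _ => 1) where
  gr := fun O _ hev => snd_FF.eventually hev
  ang := fun δ hδ => Filter.Eventually.of_forall fun y => by rw [sub_self, abs_zero]; exact hδ
  bd := fun c => ⟨c, Filter.Eventually.of_forall fun _ z hz => hz⟩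

lemma CF.word {ι : Type} (A : ι → PlaneLift) (B : ℕ → ι → PlaneLift)
    (h : ∀ i, CF (A i) (fun j => B j i)) (x : FreeGroup ι) :
    CF (FreeGroup.lift A x) (fun j => FreeGroup.lift (B j) x) := by
  induction x using FreeGroup.induction_on with
  | C1 => simpa using CF.one
  | of i => simpa using h i
  | inv_of i _ => simpa using (h i).inv
  | mul x y hx hy => simpa using hx.mul hy

end Pool.Agent.Q175.MW
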