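import Pool.Agent.W710.DP.Asm

/-! Descent steps with constants uniform in the level `b` -/

set_option autoImplicit false

namespace Pool.Agent.Q175.MW

open Pool.Agent Pool.Agent.W710.DP

lemma Sw_shift (b c : ℝ) (w : List Letter) (ζ : Cfg) :
    Sw c w ζ = Sw b w ζ - (c - b) * (ζ.1 w.length - ζ.1 0) := by
  induction w generalizing ζ with
  | nil => simp [Sw]
  | cons l w ih =>
    rw [Sw_cons, Sw_cons, ih, shc_fst, shc_fst, List.length_cons]
    ring

lemma gradX_shift (b c : ℝ) (w : List Letter) (ζ : Cfg) (i : ℕ) :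
    gradX c w ζ i = gradX b w ζ i + (c - b) * ((if i = 0 then 1 else 0) -
      (if i < w.length then 0 else 1)) := by
  unfold gradX sm
  split_ifs <;> ring

/-- the descent steps of all levels in an interval can be taken with the same step size -/
theorem step_unif (T e b0 b1 : ℝ) (w : List Letter) (he : 0 < e) (h0 : e < b0) (h01 : b0 ≤ b1)
    (h1 : e < T - b1) (hG : GoodW T e w) :
    ∃ τ B : ℝ, 0 < τ ∧ 0 ≤ B ∧ (∀ b ∈ Set.Icc b0 b1, StepOK τ b T w) ∧
      ∀ ζ, Om T w.length ζ → ∀ i < w.length, |gradS w ζ i - (ζ.1 (i + 1) - ζ.1 i)| ≤ B := by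
  have hP0 : Par b0 T e := ⟨he, h0, by linarith⟩
  obtain ⟨C, hC, hdesc0⟩ := W407.DP.t_desc b0 T e w hP0 hG
  obtain ⟨⟨L', hL', hlip0⟩, B0, hB0, hbd0⟩ := W409.DP.t_glip b0 T e w hP0 hG
  have hT : 0 < T := by linarith
  set B : ℝ := B0 + (b1 - b0) * 2 with hBdef
  have hB : 0 ≤ B := by
    have : 0 ≤ (b1 - b0) * 2 := by linarith
    linarith
  set τ : ℝ := min (1 / (2 * C)) (1 / (4 * (B + 1))) with hτ
  have hτ0 : 0 < τ := lt_min (by positivity) (by positivity)
  have hτC : C ≤ 1 / (2 * τ) := by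
    rw [le_div_iff₀ (by positivity)]
    have h : τ ≤ 1 / (2 * C) := min_le_left _ _
    rw [le_div_iff₀ (by positivity)] at h
    linarith
  have hτB : τ * B ≤ 1 / 4 := by
    have h : τ ≤ 1 / (4 * (B + 1)) := min_le_right _ _
    rw [le_div_iff₀ (by positivity)] at h
    nlinarith
  refine ⟨τ, B, hτ0, hB, ?_, ?_⟩
  swap
  · intro ζ hζ i hi
    have := (hbd0 ζ hζ).2 i hi
    have h2 : 0 ≤ (b1 - b0) * 2 := by linarith
    linarith
  intro b hb
  have hbb : 0 ≤ b - b0 := by linarith [hb.1]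
  -- transfer of the estimates to the level `b`
  have hdesc : ∀ ζ η : Cfg, Sw b w η ≤ Sw b w ζ +
      ∑ i ∈ Finset.range (w.length + 1), gradX b w ζ i * (η.1 i - ζ.1 i) +
      ∑ i ∈ Finset.range w.length, gradS w ζ i * (η.2 i - ζ.2 i) +
      C * (∑ i ∈ Finset.range (w.length + 1), (η.1 i - ζ.1 i) ^ 2 +
        ∑ i ∈ Finset.range w.length, (η.2 i - ζ.2 i) ^ 2) := by
    intro ζ η
    have h2 := hdesc0 ζ η
    have e1 : ∑ i ∈ Finset.range (w.length + 1), gradX b w ζ i * (η.1 i - ζ.1 i) =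
        ∑ i ∈ Finset.range (w.length + 1), gradX b0 w ζ i * (η.1 i - ζ.1 i) +
        (b - b0) * ((η.1 0 - ζ.1 0) - (η.1 w.length - ζ.1 w.length)) := by
      have e2 : ∀ i ∈ Finset.range (w.length + 1), gradX b w ζ i * (η.1 i - ζ.1 i) =
          gradX b0 w ζ i * (η.1 i - ζ.1 i) + ((if i = 0 then (b - b0) * (η.1 i - ζ.1 i) else 0) -
            (if i < w.length then 0 else (b - b0) * (η.1 i - ζ.1 i))) := by
        intro i _
        rw [gradX_shift b0 b]
        split_ifs <;> ring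
      rw [Finset.sum_congr rfl e2, Finset.sum_add_distrib, Finset.sum_sub_distrib]
      have e3 : ∑ i ∈ Finset.range (w.length + 1),
          (if i = 0 then (b - b0) * (η.1 i - ζ.1 i) else 0) = (b - b0) * (η.1 0 - ζ.1 0) := by
        rw [Finset.sum_ite_eq' (Finset.range (w.length + 1)) 0
          (fun i => (b - b0) * (η.1 i - ζ.1 i))]
        simp
      have e4 : ∑ i ∈ Finset.range (w.length + 1),
          (if i < w.length then 0 else (b - b0) * (η.1 i - ζ.1 i)) =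
          (b - b0) * (η.1 w.length - ζ.1 w.length) := by
        rw [Finset.sum_range_succ, if_neg (lt_irrefl _)]
        have : ∑ i ∈ Finset.range w.length,
            (if i < w.length then 0 else (b - b0) * (η.1 i - ζ.1 i)) = 0 :=
          Finset.sum_eq_zero fun i hi => if_pos (Finset.mem_range.1 hi)
        rw [this, zero_add]
      rw [e3, e4]
      ring
    rw [Sw_shift b0 b w η, Sw_shift b0 b w ζ, e1]
    linarith
  have hlip : ∀ (ζ η : Cfg) (ε : ℝ), 0 ≤ ε → Close w.length ε ζ η →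
      (∀ i ≤ w.length, |gradX b w ζ i - gradX b w η i| ≤ L' * ε) ∧
      ∀ i < w.length, |gradS w ζ i - gradS w η i| ≤ L' * ε := by
    intro ζ η ε hε hc
    obtain ⟨k1, k2⟩ := hlip0 ζ η ε hε hc
    refine ⟨fun i hi => ?_, k2⟩
    have := k1 i hi
    rw [gradX_shift b0 b w ζ, gradX_shift b0 b w η]
    rw [add_sub_add_right_eq_sub]
    exact this
  have hbd : ∀ ζ, Om T w.length ζ → ∀ i ≤ w.length, |gradX b w ζ i| ≤ B := by
    intro ζ hζ i hi
    have h2 := (hbd0 ζ hζ).1 i hi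
    rw [gradX_shift b0 b w ζ]
    refine (abs_add_le _ _).trans ?_
    rw [hBdef]
    refine add_le_add h2 ?_
    rw [abs_mul, abs_of_nonneg hbb]
    refine mul_le_mul (by linarith [hb.2]) ?_ (abs_nonneg _) (by linarith)
    split_ifs <;> norm_num
  have hmain : ∀ ζ, Om T w.length ζ → Sw b w (Dst τ b T w ζ) +
      (∑ i ∈ Finset.range (w.length + 1), ((Dst τ b T w ζ).1 i - ζ.1 i) ^ 2 +
        ∑ i ∈ Finset.range w.length, ((Dst τ b T w ζ).2 i - ζ.2 i) ^ 2) / (2 * τ) ≤ Sw b w ζ := by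
    intro ζ hO
    have hd := hdesc ζ (Dst τ b T w ζ)
    set Q1 := ∑ i ∈ Finset.range (w.length + 1), ((Dst τ b T w ζ).1 i - ζ.1 i) ^ 2 with hQ1
    set Q2 := ∑ i ∈ Finset.range w.length, ((Dst τ b T w ζ).2 i - ζ.2 i) ^ 2 with hQ2
    have hQ10 : 0 ≤ Q1 := Finset.sum_nonneg fun _ _ => sq_nonneg _
    have hQ20 : 0 ≤ Q2 := Finset.sum_nonneg fun _ _ => sq_nonneg _
    have e1 : ∑ i ∈ Finset.range (w.length + 1), gradX b w ζ i * ((Dst τ b T w ζ).1 i - ζ.1 i) =
        -(Q1 / τ) := by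
      rw [hQ1, Finset.sum_div, ← Finset.sum_neg_distrib]
      refine Finset.sum_congr rfl fun i _ => ?_
      simp only [Dst]
      field_simp
      ring
    have e2 : ∑ i ∈ Finset.range w.length, gradS w ζ i * ((Dst τ b T w ζ).2 i - ζ.2 i) ≤
        -(Q2 / τ) := by
      rw [hQ2, Finset.sum_div, ← Finset.sum_neg_distrib]
      refine Finset.sum_le_sum fun i hi => ?_
      obtain ⟨h3, h4⟩ := hO i (Finset.mem_range.1 hi)
      exact W395.DP.clamp_proj h3 h4 hτ0
    have e3 : C * (Q1 + Q2) ≤ 1 / (2 * τ) * (Q1 + Q2) :=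
      mul_le_mul_of_nonneg_right hτC (by positivity)
    have e4 : 1 / (2 * τ) * (Q1 + Q2) = (Q1 + Q2) / (2 * τ) := by ring
    have e5 : Q1 / τ + Q2 / τ = 2 * ((Q1 + Q2) / (2 * τ)) := by field_simp
    rw [e1] at hd
    linarith
  refine ⟨hτ0, ?_, ?_, ?_, ?_, ?_⟩
  · intro ζ i _
    exact W395.DP.clamp_mem hT _
  · intro ζ hO i hi
    have h := hbd ζ hO i hi
    have e : (Dst τ b T w ζ).1 i - ζ.1 i = -(τ * gradX b w ζ i) := by simp only [Dst]; ring
    rw [e, abs_neg, abs_mul, abs_of_pos hτ0]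
    calc τ * |gradX b w ζ i| ≤ τ * B := by gcongr
      _ ≤ 1 / 4 := hτB
  · intro ζ hO i hi
    have h := hmain ζ hO
    have h3 : ((Dst τ b T w ζ).1 i - ζ.1 i) ^ 2 ≤
        ∑ i ∈ Finset.range (w.length + 1), ((Dst τ b T w ζ).1 i - ζ.1 i) ^ 2 :=
      Finset.single_le_sum (f := fun i => ((Dst τ b T w ζ).1 i - ζ.1 i) ^ 2)
        (fun _ _ => sq_nonneg _) (Finset.mem_range.2 (Nat.lt_succ_of_le hi))
    have h4 : 0 ≤ ∑ i ∈ Finset.range w.length, ((Dst τ b T w ζ).2 i - ζ.2 i) ^ 2 :=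
      Finset.sum_nonneg fun _ _ => sq_nonneg _
    have h5 : ((Dst τ b T w ζ).1 i - ζ.1 i) ^ 2 / (2 * τ) ≤
      (∑ i ∈ Finset.range (w.length + 1), ((Dst τ b T w ζ).1 i - ζ.1 i) ^ 2 +
        ∑ i ∈ Finset.range w.length, ((Dst τ b T w ζ).2 i - ζ.2 i) ^ 2) / (2 * τ) := by
      apply div_le_div_of_nonneg_right _ (by positivity)
      linarith
    linarith
  · intro ζ hO i hi
    have h := hmain ζ hO
    have h3 : ((Dst τ b T w ζ).2 i - ζ.2 i) ^ 2 ≤
        ∑ i ∈ Finset.range w.length, ((Dst τ b T w ζ).2 i - ζ.2 i) ^ 2 :=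
      Finset.single_le_sum (f := fun i => ((Dst τ b T w ζ).2 i - ζ.2 i) ^ 2)
        (fun _ _ => sq_nonneg _) (Finset.mem_range.2 hi)
    have h4 : 0 ≤ ∑ i ∈ Finset.range (w.length + 1), ((Dst τ b T w ζ).1 i - ζ.1 i) ^ 2 :=
      Finset.sum_nonneg fun _ _ => sq_nonneg _
    have h5 : ((Dst τ b T w ζ).2 i - ζ.2 i) ^ 2 / (2 * τ) ≤
      (∑ i ∈ Finset.range (w.length + 1), ((Dst τ b T w ζ).1 i - ζ.1 i) ^ 2 +
        ∑ i ∈ Finset.range w.length, ((Dst τ b T w ζ).2 i - ζ.2 i) ^ 2) / (2 * τ) := by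
      apply div_le_div_of_nonneg_right _ (by positivity)
      linarith
    linarith
  · refine ⟨1 + τ * L', by nlinarith [mul_nonneg hτ0.le hL'], fun ζ η ε hε hc => ?_⟩
    obtain ⟨hg1, hg2⟩ := hlip ζ η ε hε hc
    constructor
    · intro i hi
      have h3 := hc.1 i hi
      have h4 := hg1 i hi
      have e : (Dst τ b T w ζ).1 i - (Dst τ b T w η).1 i =
          (ζ.1 i - η.1 i) - τ * (gradX b w ζ i - gradX b w η i) := by simp only [Dst]; ring
      rw [e]
      calc |(ζ.1 i - η.1 i) - τ * (gradX b w ζ i - gradX b w η i)|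
          ≤ |ζ.1 i - η.1 i| + |τ * (gradX b w ζ i - gradX b w η i)| := abs_sub _ _
        _ ≤ ε + τ * (L' * ε) := by
          rw [abs_mul, abs_of_pos hτ0]
          gcongr
        _ = (1 + τ * L') * ε := by ring
    · intro i hi
      have h3 := hc.2 i hi
      have h4 := hg2 i hi
      simp only [Dst]
      refine (W395.DP.clamp_lip T _ _).trans ?_
      have e : (ζ.2 i - τ * gradS w ζ i) - (η.2 i - τ * gradS w η i) =
          (ζ.2 i - η.2 i) - τ * (gradS w ζ i - gradS w η i) := by ring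
      rw [e]
      calc |(ζ.2 i - η.2 i) - τ * (gradS w ζ i - gradS w η i)|
          ≤ |ζ.2 i - η.2 i| + |τ * (gradS w ζ i - gradS w η i)| := abs_sub _ _
        _ ≤ ε + τ * (L' * ε) := by
          rw [abs_mul, abs_of_pos hτ0]
          gcongr
        _ = (1 + τ * L') * ε := by ring

end Pool.Agent.Q175.MW
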