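import Pool.Agent.W710.DP.TanC

/-! Area preserving maps tangent to the identity agree near `0` with one supported in the unit
disc (a variant, with control of the support, of `t_tan` of `W710.DP.TanC`) -/

set_option autoImplicit false

namespace Pool.Agent.Q175.MW

open Pool.Agent.W710.DP Pool.Agent.W710.DP.TanC

lemma Hf_small' (a : ℂ → ℂ) (ha : ContDiff ℝ ((⊤ : ℕ∞) : WithTop ℕ∞) a) (h0 : a 0 = 0)
    (hd : fderiv ℝ a 0 = ContinuousLinearMap.id ℝ ℂ) (ω : ℝ) (hω : 0 < ω) :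
    ∃ ρ : ℝ, 0 < ρ ∧ ρ ≤ 1 / 8 ∧ ∀ p : ℝ × ℝ, ‖p‖ ≤ 4 → ‖Hf a ρ p‖ ≤ ω ∧ ‖fderiv ℝ (Hf a ρ) p‖ ≤ ω := by
  have hcont : Continuous (fderiv ℝ a) := ha.continuous_fderiv (by simp)
  set K := ‖cc‖ + 1 with hK
  have hK0 : 0 < K := by positivity
  have hK1 : ‖cc‖ ≤ K := by linarith
  obtain ⟨r2, hr2, hr2'⟩ := Metric.continuousAt_iff.1 (hcont.continuousAt (x := (0 : ℂ)))
    (ω / (4 * K)) (by positivity)
  obtain ⟨r, hr, hr1, hr'⟩ : ∃ r : ℝ, 0 < r ∧ r ≤ 1 ∧ ∀ {x : ℂ}, dist x 0 < r →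
      dist (fderiv ℝ a x) (fderiv ℝ a 0) < ω / (4 * K) :=
    ⟨min r2 1, lt_min hr2 one_pos, min_le_right _ _, fun h => hr2' (lt_of_lt_of_le h (min_le_left _ _))⟩
  have hda : Differentiable ℝ a := ha.differentiable (by simp)
  refine ⟨r / (8 * K), by positivity, ?_, ?_⟩
  · rw [div_le_iff₀ (by positivity)]
    have := norm_nonneg cc
    linarith
  set ρ := r / (8 * K) with hρ
  have hρ0 : 0 < ρ := by positivity
  have key : ∀ p : ℝ × ℝ, ‖p‖ ≤ 4 → ‖(fderiv ℝ a (ρ • cc p)).comp cc - cc‖ ≤ ω / 4 := by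
    intro p hp
    have e1 : ‖ρ • cc p‖ < r := by
      rw [norm_smul, Real.norm_eq_abs, abs_of_pos hρ0]
      have : ‖cc p‖ ≤ K * 4 := (cc.le_opNorm p).trans
        (mul_le_mul hK1 hp (norm_nonneg _) hK0.le)
      calc ρ * ‖cc p‖ ≤ ρ * (K * 4) := by gcongr
        _ = r / 2 := by rw [hρ]; field_simp; norm_num
        _ < r := by linarith
    have e2 := hr' (x := ρ • cc p) (by simpa [dist_eq_norm] using e1)
    rw [dist_eq_norm, hd] at e2
    have e3 : (fderiv ℝ a (ρ • cc p)).comp cc - cc =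
        (fderiv ℝ a (ρ • cc p) - ContinuousLinearMap.id ℝ ℂ).comp cc := by
      ext <;> simp
    rw [e3]
    calc _ ≤ ‖fderiv ℝ a (ρ • cc p) - ContinuousLinearMap.id ℝ ℂ‖ * ‖cc‖ :=
          ContinuousLinearMap.opNorm_comp_le _ _
      _ ≤ (ω / (4 * K)) * K := mul_le_mul e2.le hK1 (norm_nonneg _) (by positivity)
      _ = ω / 4 := by field_simp
  intro p hp
  constructor
  · have hseg := (convex_closedBall (0 : ℝ × ℝ) 4).norm_image_sub_le_of_norm_hasFDerivWithin_le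
      (f := Hf a ρ) (f' := fun p => (fderiv ℝ a (ρ • cc p)).comp cc - cc) (C := ω / 4)
      (fun x _ => (Hf_deriv a ρ hρ0.ne' hda x).hasFDerivWithinAt)
      (fun x hx => key x (by simpa using hx)) (x := 0) (y := p) (by simp) (by simpa using hp)
    have z0 : Hf a ρ 0 = 0 := by simp [Hf, h0]
    rw [z0, sub_zero, sub_zero] at hseg
    nlinarith
  · rw [(Hf_deriv a ρ hρ0.ne' hda p).fderiv]
    linarith [key p hp]

theorem tan_small (h1 : S_core) (h2 : S_pot) (h3 : S_gf) (a : Equiv.Perm ℂ) (ha : AP a)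
    (h0 : a 0 = 0) (hd : fderiv ℝ (⇑a) 0 = ContinuousLinearMap.id ℝ ℂ) :
    ∃ n, Germ n a ∧ ∀ z : ℂ, 1 < ‖z‖ → n z = z := by
  let χ1 : ContDiffBump (0 : ℝ × ℝ) := ⟨3, 4, by norm_num, by norm_num⟩
  let χ2 : ContDiffBump (0 : ℝ × ℝ) := ⟨1, 3 / 2, by norm_num, by norm_num⟩
  have hs1 : Sm χ1 := χ1.contDiff
  have hs2 : Sm χ2 := χ2.contDiff
  have hc1 : HasCompactSupport χ1 := χ1.hasCompactSupport
  have hc2 : HasCompactSupport χ2 := χ2.hasCompactSupport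
  have ht1 : tsupport χ1 = Metric.closedBall 0 4 := χ1.tsupport_eq
  have ht2 : tsupport χ2 = Metric.closedBall 0 (3 / 2) := χ2.tsupport_eq
  have hone1 : ∀ p : ℝ × ℝ, ‖p‖ < 3 → (χ1 : ℝ × ℝ → ℝ) =ᶠ[nhds p] fun _ => 1 := by
    intro p hp
    exact χ1.eventuallyEq_one_of_mem_ball (by simpa using hp)
  have hone2 : ∀ p : ℝ × ℝ, ‖p‖ < 1 → (χ2 : ℝ × ℝ → ℝ) =ᶠ[nhds p] fun _ => 1 := by
    intro p hp
    exact χ2.eventuallyEq_one_of_mem_ball (by simpa using hp)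
  obtain ⟨C1, hC1, hb1⟩ := cut_small χ1 hs1 hc1
  obtain ⟨C2, hC2, hb2⟩ := cut_prim χ2 hs2 hc2 (Metric.ball 0 2) Metric.isOpen_ball
    (by rw [ht2]; exact Metric.closedBall_subset_ball (by norm_num))
  obtain ⟨δ, hδ0, hδ1, hδ2⟩ : ∃ δ : ℝ, 0 < δ ∧ δ ≤ 1 / 4 ∧ C2 * (16 * δ) ≤ 1 / 2 := by
    refine ⟨min (1 / 4) (1 / (32 * (C2 + 1))), by positivity, min_le_left _ _, ?_⟩
    have : min (1 / 4) (1 / (32 * (C2 + 1))) ≤ 1 / (32 * (C2 + 1)) := min_le_right _ _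
    calc C2 * (16 * min (1 / 4) (1 / (32 * (C2 + 1)))) ≤ C2 * (16 * (1 / (32 * (C2 + 1)))) := by
          gcongr
      _ = (C2 / (C2 + 1)) / 2 := by
        have hne : C2 + 1 ≠ 0 := by positivity
        field_simp
        try ring
      _ ≤ 1 / 2 := by
        have : C2 / (C2 + 1) ≤ 1 := by rw [div_le_one (by positivity)]; linarith
        linarith
  obtain ⟨ω, hω0, hω1⟩ : ∃ ω : ℝ, 0 < ω ∧ C1 * ω ≤ δ := by
    refine ⟨δ / (C1 + 1), by positivity, ?_⟩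
    rw [mul_div_assoc', div_le_iff₀ (by positivity)]
    nlinarith
  obtain ⟨ρ, hρ0, hρ8, hρ⟩ := Hf_small' a ha.1 h0 hd ω hω0
  have had : Differentiable ℝ a := ha.1.differentiable (by simp)
  have hHs : ContDiff ℝ ((⊤ : ℕ∞) : WithTop ℕ∞) (Hf a ρ) := Hf_smooth a ρ ha.1
  have hHd : ∀ p, HasFDerivAt (Hf a ρ) (fderiv ℝ (Hf a ρ) p) p := fun p =>
    (hHs.differentiable (by simp) p).hasFDerivAt
  set U : ℝ × ℝ → ℝ := fun p => (Hf a ρ p).re with hU
  set V : ℝ × ℝ → ℝ := fun p => (Hf a ρ p).im with hV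
  have hUs : Sm U := Complex.reCLM.contDiff.comp hHs
  have hVs : Sm V := Complex.imCLM.contDiff.comp hHs
  set u : ℝ × ℝ → ℝ := fun p => χ1 p * U p with hu
  set v : ℝ × ℝ → ℝ := fun p => χ1 p * V p with hv
  have hus : SmallC1 δ u := by
    refine small_mono (hb1 U ω hω0.le hUs fun p hp => ?_) hω1
    rw [ht1] at hp
    have k := hρ p (by simpa using hp)
    refine ⟨(Complex.abs_re_le_norm _).trans k.1, ?_⟩
    rw [(comp_re _ _ _ (hHd p)).fderiv]
    refine (ContinuousLinearMap.opNorm_comp_le _ _).trans ?_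
    rw [Complex.reCLM_norm, one_mul]
    exact k.2
  have hvs : SmallC1 δ v := by
    refine small_mono (hb1 V ω hω0.le hVs fun p hp => ?_) hω1
    rw [ht1] at hp
    have k := hρ p (by simpa using hp)
    refine ⟨(Complex.abs_im_le_norm _).trans k.1, ?_⟩
    rw [(comp_im _ _ _ (hHd p)).fderiv]
    refine (ContinuousLinearMap.opNorm_comp_le _ _).trans ?_
    rw [Complex.imCLM_norm, one_mul]
    exact k.2
  obtain ⟨σ, hσs, hσ1, hσ2, hps, hqs, hjac⟩ := h1 u v δ hδ1 hus hvs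
  set p : ℝ × ℝ → ℝ := fun z => σ z - z.2 with hp
  set q : ℝ × ℝ → ℝ := fun z => u (z.1, σ z) with hq
  have hclosed : ∀ x ∈ Set.Ioo (-2 : ℝ) 2, ∀ y ∈ Set.Ioo (-2 : ℝ) 2,
      ps p (x, y) = px q (x, y) := by
    intro x hx y hy
    apply hjac
    have b1 : |σ (x, y) - y| ≤ 4 * δ := (hps.2 (x, y)).1
    have b2 : ‖((x, σ (x, y)) : ℝ × ℝ)‖ < 3 := by
      rw [Prod.norm_def, max_lt_iff, Real.norm_eq_abs, Real.norm_eq_abs]
      have := abs_le.1 b1
      constructor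
      · rw [abs_lt]; constructor <;> linarith [hx.1, hx.2]
      · rw [abs_lt]; constructor <;> simp only <;> linarith [hy.1, hy.2, this.1, this.2]
    refine jac_congr (u' := U) (v' := V) ?_ ?_ (Hf_jac a ρ hρ0.ne' had ha.2.2 _)
    · filter_upwards [hone1 _ b2] with z hz
      simp [hu, hz]
    · filter_upwards [hone1 _ b2] with z hz
      simp [hv, hz]
  have hpot := h2 p q (Set.Ioo (-2) 2) (Set.Ioo (-2) 2) hps.1 hqs.1 isOpen_Ioo isOpen_Ioo
    Set.ordConnected_Ioo Set.ordConnected_Ioo (by norm_num) (by norm_num) hclosed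
  set g0 : ℝ × ℝ → ℝ := fun z : ℝ × ℝ => (∫ t in (0 : ℝ)..z.1, p (t, 0)) +
    ∫ t in (0 : ℝ)..z.2, q (z.1, t) with hg0
  have hball : ∀ z : ℝ × ℝ, z ∈ Metric.ball (0 : ℝ × ℝ) 2 → |z.1| < 2 ∧ |z.2| < 2 := by
    intro z hz
    rw [mem_ball_zero_iff, Prod.norm_def, max_lt_iff, Real.norm_eq_abs, Real.norm_eq_abs] at hz
    exact hz
  have hprim : ∀ z ∈ Metric.ball (0 : ℝ × ℝ) 2, HasFDerivAt g0
      (p z • ContinuousLinearMap.fst ℝ ℝ ℝ + q z • ContinuousLinearMap.snd ℝ ℝ ℝ) z := by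
    intro z hz
    obtain ⟨k1, k2⟩ := hball z hz
    exact hpot z.1 (abs_lt.1 k1) z.2 (abs_lt.1 k2)
  obtain ⟨hgs, hgc, hgd, hg1⟩ := hb2 g0 p q (16 * δ) (by positivity) hps.1 hqs.1 hprim (by
    intro z hz
    obtain ⟨k1, k2⟩ := hball z hz
    have p1 := (hps.2 z).1
    have p2 := (hps.2 z).2
    have q1 := (hqs.2 z).1
    have q2 := (hqs.2 z).2
    refine ⟨?_, ?_, p1.trans (by linarith), p2.trans (by linarith), q1.trans (by linarith),
      q2.trans (by linarith)⟩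
    · have i1 := intervalIntegral.norm_integral_le_of_norm_le_const (a := 0) (b := z.1)
        (f := fun t => p (t, 0)) (C := 4 * δ) (fun t _ => (hps.2 (t, 0)).1)
      have i2 := intervalIntegral.norm_integral_le_of_norm_le_const (a := 0) (b := z.2)
        (f := fun t => q (z.1, t)) (C := 4 * δ) (fun t _ => (hqs.2 (z.1, t)).1)
      rw [Real.norm_eq_abs, sub_zero] at i1 i2
      refine (abs_add_le _ _).trans ?_
      nlinarith
    · rw [(hprim z hz).fderiv]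
      refine (norm_add_le _ _).trans ?_
      rw [norm_smul, norm_smul, Real.norm_eq_abs, Real.norm_eq_abs]
      have n1 := ContinuousLinearMap.norm_fst_le ℝ ℝ ℝ
      have n2 := ContinuousLinearMap.norm_snd_le ℝ ℝ ℝ
      have m1 : |p z| * ‖ContinuousLinearMap.fst ℝ ℝ ℝ‖ ≤ (4 * δ) * 1 :=
        mul_le_mul p1 n1 (norm_nonneg _) (by positivity)
      have m2 : |q z| * ‖ContinuousLinearMap.snd ℝ ℝ ℝ‖ ≤ (4 * δ) * 1 :=
        mul_le_mul q1 n2 (norm_nonneg _) (by positivity)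
      linarith)
  obtain ⟨f, hfA, hfC, hf⟩ := h3 (fun z => χ2 z * g0 z) hgs hgc (fun z =>
    ⟨(hgd z).1.trans hδ2, (hgd z).2.trans hδ2⟩)
  refine ⟨resc f ρ hρ0.ne', ⟨resc_AP f ρ _ hfA, resc_CS f ρ _ hρ0 hfC, ρ / 2, by positivity,
    fun z hz => ?_⟩, fun z hz => ?_⟩
  swap
  · show ρ • f (ρ⁻¹ • z) = z
    set w : ℂ := ρ⁻¹ • z with hw
    have hwn : 8 < ‖w‖ := by
      rw [hw, norm_smul, Real.norm_eq_abs, abs_of_pos (inv_pos.2 hρ0), lt_inv_mul_iff₀ hρ0]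
      linarith
    have hout : ((w.re, w.im) : ℝ × ℝ) ∉ tsupport χ2 := by
      rw [ht2]
      intro hc
      rw [mem_closedBall_zero_iff, Prod.norm_def, max_le_iff, Real.norm_eq_abs,
        Real.norm_eq_abs] at hc
      have := Complex.norm_le_abs_re_add_abs_im w
      linarith [hc.1, hc.2]
    have hzero : (fun z => χ2 z * g0 z) =ᶠ[nhds (w.re, w.im)] fun _ => 0 := by
      filter_upwards [notMem_tsupport_iff_eventuallyEq.1 hout] with y hy
      rw [hy]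
      simp
    have hfd : fderiv ℝ (fun z => χ2 z * g0 z) (w.re, w.im) = 0 := by
      rw [hzero.fderiv_eq]
      simp
    have e3 := hf w.re w.im
    have e1 : px (fun z => χ2 z * g0 z) (w.re, w.im) = 0 := by
      unfold px
      rw [hfd]
      simp
    have e2 : ps (fun z => χ2 z * g0 z) (w.re, w.im) = 0 := by
      unfold ps
      rw [hfd]
      simp
    rw [e1, e2, add_zero, add_zero] at e3
    have e4 : f w = w := e3
    rw [e4, hw]
    simp [hρ0.ne']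
  show ρ • f (ρ⁻¹ • z) = a z
  set w : ℂ := ρ⁻¹ • z with hw
  have hwn : ‖w‖ < 1 / 2 := by
    rw [hw, norm_smul, Real.norm_eq_abs, abs_of_pos (inv_pos.2 hρ0), inv_mul_lt_iff₀ hρ0]
    linarith
  have hx : |w.re| < 1 / 2 := (Complex.abs_re_le_norm w).trans_lt hwn
  have hy : |w.im| < 1 / 2 := (Complex.abs_im_le_norm w).trans_lt hwn
  set Y : ℝ := w.im + v (w.re, w.im) with hY
  have hv1 : |v (w.re, w.im)| ≤ δ := (hvs.2 _).1
  have hYn : |Y| < 1 := by
    refine (abs_add_le _ _).trans_lt ?_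
    linarith
  have hxY : ‖((w.re, Y) : ℝ × ℝ)‖ < 1 := by
    rw [Prod.norm_def, max_lt_iff, Real.norm_eq_abs, Real.norm_eq_abs]
    exact ⟨by simp only; linarith, hYn⟩
  have hxy : ‖((w.re, w.im) : ℝ × ℝ)‖ < 3 := by
    rw [Prod.norm_def, max_lt_iff, Real.norm_eq_abs, Real.norm_eq_abs]
    exact ⟨by simp only; linarith, by simp only; linarith⟩
  obtain ⟨e1, e2⟩ := hg1 (w.re, Y) (hone2 _ hxY) (by simpa using hxY.trans (by norm_num))
  have e3 := hf w.re Y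
  rw [e1, e2] at e3
  have e4 : σ (w.re, Y) = w.im := hσ1 w.re w.im
  simp only [hp, hq, e4] at e3
  have o1 : χ1 (w.re, w.im) = 1 := (hone1 _ hxy).self_of_nhds
  have e5 : f w = w + Hf a ρ (w.re, w.im) := by
    have : (⟨w.re, Y + (w.im - Y)⟩ : ℂ) = w := by
      apply Complex.ext <;> simp
    rw [this] at e3
    rw [e3]
    apply Complex.ext
    · simp [hu, hU, o1]
    · simp [hY, hv, hV, o1]
  have e6 : Hf a ρ (w.re, w.im) = ρ⁻¹ • a z - w := by
    unfold Hf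
    have : cc (w.re, w.im) = w := by rw [cc_apply]
    rw [this, hw, smul_smul, mul_inv_cancel₀ hρ0.ne', one_smul]
  rw [e5, e6]
  simp [hρ0.ne']

end Pool.Agent.Q175.MW
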